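import Pool.Agent.P.MP_5e2a31_al.L.Defs

/-! Shared definitions of the matrix side. -/

namespace Pool.Agent.P.MP_5e2a31_al.L

open Matrix Finset
open scoped Classical

noncomputable section

variable {ι : Type} [Fintype ι] [DecidableEq ι] {n : ℕ}

/-- matrices that raise the level `l` by at least `c` -/
def Fil (l : ι → ℤ) (c : ℤ) : Submodule ℂ (Matrix ι ι ℂ) where
  carrier := {x | ∀ p q, l p < l q + c → x p q = 0}
  add_mem' ha hb p q h := by rw [Matrix.add_apply, ha p q h, hb p q h, add_zero]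
  zero_mem' _ _ _ := rfl
  smul_mem' a _ hx p q h := by rw [Matrix.smul_apply, hx p q h, smul_zero]

omit [Fintype ι] [DecidableEq ι] in
theorem mem_Fil {l : ι → ℤ} {c : ℤ} {x : Matrix ι ι ℂ} :
    x ∈ Fil l c ↔ ∀ p q, l p < l q + c → x p q = 0 := Iff.rfl

omit [DecidableEq ι] in
theorem Fil_mul {l : ι → ℤ} {a b : ℤ} {x y : Matrix ι ι ℂ} (hx : x ∈ Fil l a) (hy : y ∈ Fil l b) :
    x * y ∈ Fil l (a + b) := fun p q h => by
  rw [Matrix.mul_apply]
  refine Finset.sum_eq_zero fun r _ => ?_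
  by_cases h1 : l p < l r + a
  · rw [hx p r h1, zero_mul]
  · rw [hy r q (by omega), mul_zero]

omit [Fintype ι] [DecidableEq ι] in
theorem Fil_mono {l : ι → ℤ} {a b : ℤ} (h : a ≤ b) {x : Matrix ι ι ℂ} (hx : x ∈ Fil l b) :
    x ∈ Fil l a := fun p q h' => hx p q (by omega)

omit [Fintype ι] in
theorem one_mem_Fil (l : ι → ℤ) : (1 : Matrix ι ι ℂ) ∈ Fil l 0 := fun p q h =>
  Matrix.one_apply_ne (by rintro rfl; omega)

theorem Fil_pow {l : ι → ℤ} {a : ℤ} {x : Matrix ι ι ℂ} (hx : x ∈ Fil l a) (i : ℕ) :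
    x ^ i ∈ Fil l (i * a) := by
  induction i with
  | zero => simpa using one_mem_Fil l
  | succ i ih =>
    have := Fil_mul ih hx
    rwa [← pow_succ, show (i : ℤ) * a + a = (i + 1 : ℕ) * a by push_cast; ring] at this

omit [DecidableEq ι] in
theorem trace_Fil {l : ι → ℤ} {x : Matrix ι ι ℂ} (hx : x ∈ Fil l 1) : x.trace = 0 :=
  Finset.sum_eq_zero fun p _ => hx p p (by omega)

/-- `lie J` as a subspace -/
def lieS (J : Matrix ι ι ℂ) : Submodule ℂ (Matrix ι ι ℂ) where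
  carrier := lie J
  add_mem' ha hb := ⟨by rw [trace_add, ha.1, hb.1, add_zero],
    by rw [transpose_add, add_mul, mul_add, ha.2, hb.2, neg_add]⟩
  zero_mem' := ⟨trace_zero _ _, by simp⟩
  smul_mem' a _ hx := ⟨by rw [trace_smul, hx.1, smul_zero],
    by rw [transpose_smul, smul_mul_assoc, mul_smul_comm, hx.2, smul_neg]⟩

theorem mem_lieS {J x : Matrix ι ι ℂ} : x ∈ lieS J ↔ x ∈ lie J := Iff.rfl

theorem lie_bracket {J x y : Matrix ι ι ℂ} (hx : x ∈ lie J) (hy : y ∈ lie J) :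
    x * y - y * x ∈ lie J := by
  refine ⟨by rw [trace_sub, trace_mul_comm, sub_self], ?_⟩
  rw [transpose_sub, transpose_mul, transpose_mul, sub_mul, mul_assoc, mul_assoc, hx.2, hy.2,
    mul_neg, mul_neg, ← mul_assoc, ← mul_assoc, hx.2, hy.2]
  noncomm_ring

theorem trace_of_skew {J x : Matrix ι ι ℂ} (hJ : IsUnit J.det) (h : xᵀ * J = -(J * x)) :
    x.trace = 0 := by
  have e : xᵀ = -(J * x * J⁻¹) := by
    rw [← neg_mul, ← h, mul_assoc, mul_nonsing_inv _ hJ, mul_one]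
  have e2 := congrArg Matrix.trace e
  rw [trace_transpose, trace_neg, trace_mul_comm, ← mul_assoc, nonsing_inv_mul _ hJ, one_mul] at e2
  linear_combination e2 / 2

/-- the number of Jordan blocks of size greater than `i` -/
def dd (e : Matrix ι ι ℂ) (i : ℕ) : ℕ := (e ^ i).rank - (e ^ (i + 1)).rank

/-- a monomial symmetric or alternating form -/
structure Form (J : Matrix ι ι ℂ) where
  bar : ι → ι
  bar_bar : ∀ p, bar (bar p) = p
  ε : ℂ
  hε : ε = 1 ∨ ε = -1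
  symm : Jᵀ = ε • J
  ne : ∀ p q, J p q ≠ 0 ↔ q = bar p

namespace Form

variable {J : Matrix ι ι ℂ} (F : Form J)

omit [Fintype ι] [DecidableEq ι] in
theorem ne' (p : ι) : J p (F.bar p) ≠ 0 := (F.ne _ _).2 rfl

omit [Fintype ι] [DecidableEq ι] in
theorem ne'' (p : ι) : J (F.bar p) p ≠ 0 := (F.ne _ _).2 (F.bar_bar p).symm

omit [Fintype ι] [DecidableEq ι] in
theorem eq_zero {p q : ι} (h : q ≠ F.bar p) : J p q = 0 := by
  by_contra e
  exact h ((F.ne _ _).1 e)

omit [Fintype ι] [DecidableEq ι] in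
theorem swap (p q : ι) : J q p = F.ε * J p q := congrFun (congrFun F.symm p) q

omit [DecidableEq ι] in
theorem J_mul (x : Matrix ι ι ℂ) (p q : ι) : (J * x) p q = J p (F.bar p) * x (F.bar p) q := by
  rw [Matrix.mul_apply, Finset.sum_eq_single (F.bar p)]
  · exact fun r _ h => by rw [F.eq_zero h, zero_mul]
  · simp

omit [DecidableEq ι] in
theorem mul_J (x : Matrix ι ι ℂ) (p q : ι) : (x * J) p q = x p (F.bar q) * J (F.bar q) q := by
  rw [Matrix.mul_apply, Finset.sum_eq_single (F.bar q)]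
  · exact fun r _ h => by
      rw [F.eq_zero (p := r) (fun e => h (by rw [e, F.bar_bar])), mul_zero]
  · simp

/-- the inverse of `J` -/
def inv : Matrix ι ι ℂ := Matrix.of fun p q => if q = F.bar p then (J q p)⁻¹ else 0

theorem mul_inv : J * F.inv = 1 := by
  ext p q
  rw [F.J_mul, inv, of_apply, F.bar_bar, Matrix.one_apply]
  by_cases h : p = q
  · subst h
    rw [if_pos rfl, if_pos rfl, mul_inv_cancel₀ (F.ne' p)]
  · rw [if_neg (Ne.symm h), if_neg h, mul_zero]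

theorem inv_mul : F.inv * J = 1 := mul_eq_one_comm.1 F.mul_inv

include F in
theorem isUnit : IsUnit J.det := isUnit_det_of_right_inverse F.mul_inv

omit [DecidableEq ι] in
theorem skew_iff {x : Matrix ι ι ℂ} : xᵀ * J = -(J * x) ↔
    ∀ p q, x (F.bar q) p * J (F.bar q) q = -(J p (F.bar p) * x (F.bar p) q) := by
  rw [← Matrix.ext_iff]
  simp only [F.mul_J, Matrix.neg_apply, F.J_mul, transpose_apply]

theorem mem_lie {x : Matrix ι ι ℂ} : x ∈ lie J ↔
    ∀ p q, x (F.bar q) p * J (F.bar q) q = -(J p (F.bar p) * x (F.bar p) q) :=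
  ⟨fun h => F.skew_iff.1 h.2, fun h =>
    ⟨trace_of_skew F.isUnit (F.skew_iff.2 h), F.skew_iff.2 h⟩⟩

end Form

/-- the data of the types B, C, D; `β` is the number of basis vectors of weight zero -/
structure Cl (J : Matrix ι ι ℂ) (a : (Fin n → ℤ) → ι → ℤ) extends Form J where
  ps : Fin n → ι
  a_ps : ∀ ν i, a ν (ps i) = ν i
  a_bar : ∀ ν p, a ν (bar p) = -a ν p
  cases : ∀ p, (∃ i, p = ps i) ∨ (∃ i, p = bar (ps i)) ∨ bar p = p
  β : ℕ
  hβ : β ≤ 1
  fix : #{p | bar p = p} = β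
  det : ε = -1 → ∀ u : Matrix ι ι ℂ, uᵀ * J * u = J → u.det = 1

/-- a pyramid: the cell `(l p, t p)` lies in the column `l p` and in the row `t p` -/
structure Pyr (ι : Type) (μ : ℤ → ℕ) where
  l : ι → ℤ
  t : ι → ℕ
  inj : ∀ p q, l p = l q → t p = t q → p = q
  sur : ∀ c s, (∃ p, l p = c ∧ t p = s) ↔ s < μ c
  par : ∀ p q, Even (l p - l q)
  itv : ∀ c c' c'', c ≤ c'' → c'' ≤ c' → Even (c'' - c) → min (μ c) (μ c') ≤ μ c''

/-- the nilpotent matrix of a pyramid -/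
def Pyr.e {μ : ℤ → ℕ} (Y : Pyr ι μ) : Matrix ι ι ℂ :=
  Matrix.of fun p q => if Y.l p = Y.l q + 2 ∧ Y.t p = Y.t q then 1 else 0

/-- the entries in `R` are coordinates on `Y` -/
structure Coord (Y : Set (Matrix ι ι ℂ)) (b : ι → ℤ) (R : Finset (ι × ι)) : Prop where
  sur : ∀ c : ι × ι → ℂ, ∃ x ∈ Y, ∀ r ∈ R, x r.1 r.2 = c r
  dep : ∀ p q, (∀ x ∈ Y, x p q = 0) ∨
    ∃ r ∈ R, ∃ c : ℂ, b p - b q = b r.1 - b r.2 ∧ ∀ x ∈ Y, x p q = c * x r.1 r.2
  pos : ∀ r ∈ R, b r.2 < b r.1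

/-- `Z` is Zariski dense in `Y` -/
def ZD (Z Y : Set (Matrix ι ι ℂ)) : Prop :=
  Z ⊆ Y ∧ ∀ f : MvPolynomial (ι × ι) ℂ, (∀ x ∈ Z, MvPolynomial.eval (fun r => x r.1 r.2) f = 0) →
    ∀ x ∈ Y, MvPolynomial.eval (fun r => x r.1 r.2) f = 0

/-- the number of monomials of weight at most `m` -/
def cnt {κ : Type} [Fintype κ] (w : κ → ℕ) (m : ℕ) : ℕ :=
  Nat.card {k : κ → ℕ // ∑ r, k r * w r ≤ m}

/-- the position of `i` in its block -/
def pos (lv : Fin n → ℕ) (i : Fin n) : ℕ := #{j | j < i ∧ lv j = lv i}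

/-- the product of the positive roots of the Levi factor in type A -/
def PA (lv : Fin n → ℕ) : MvPolynomial (Fin n) ℂ :=
  ∏ i, ∏ j with j < i ∧ lv j = lv i, (MvPolynomial.X i - MvPolynomial.X j)

/-- the product of the positive roots of the Levi factor in the types B, C, D -/
def PJ (β : ℕ) (lv : Fin n → ℕ) : MvPolynomial (Fin n) ℂ :=
  (∏ i, ∏ j with j < i ∧ lv j = lv i,
    (MvPolynomial.X i ^ (if lv i = 0 then 2 else 1) -
      MvPolynomial.X j ^ (if lv j = 0 then 2 else 1))) *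
    ∏ i, MvPolynomial.X i ^ (if lv i = 0 then β else 0)

/-- the sizes of the columns of the symmetric pyramid; `o` is the parity of the levels -/
def mu (D : ℕ → ℕ) (o : ℕ) (c : ℤ) : ℕ := if c.natAbs % 2 = o then D c.natAbs else 0

/-- the block sizes in the types B, C, D -/
def Sizes (D : ℕ → ℕ) (o β : ℕ) (lv : Fin n → ℕ) : Prop :=
  2 * #{i | lv i = 0} + β = mu D o 0 ∧ ∀ c : ℕ, 0 < c → #{i | lv i = c} = mu D o c

end

end Pool.Agent.P.MP_5e2a31_al.L
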