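import Pool.Agent.P.MP_5e2a31_al.L.Base

/-! Package Co: coordinates on the nilradicals, the product of the roots of the Levi factor. -/

namespace Pool.Agent.P.MP_5e2a31_al.L

open Matrix Finset
open scoped Classical

noncomputable section

variable {ι : Type} [Fintype ι] [DecidableEq ι] {n : ℕ}

theorem coord_zero {rel : ι → ι → Prop} {b : ι → ℤ} (h : ∀ p q, rel p q → b q < b p)
    {R : Finset (ι × ι)} (hR : ∀ r, r ∈ R ↔ rel r.1 r.2) :
    Coord {x | x ∈ lie (0 : Matrix ι ι ℂ) ∧ ∀ p q, ¬ rel p q → x p q = 0} b R := by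
  refine ⟨fun c => ⟨Matrix.of fun p q => if rel p q then c (p, q) else 0,
    ⟨⟨Finset.sum_eq_zero fun p _ => ?_, by simp⟩, fun p q hn => ?_⟩, fun r hr => ?_⟩,
    fun p q => ?_, fun r hr => h _ _ ((hR r).1 hr)⟩
  · rw [Matrix.diag_apply, of_apply, if_neg fun e => lt_irrefl _ (h p p e)]
  · rw [of_apply, if_neg hn]
  · rw [of_apply, if_pos ((hR r).1 hr)]
  · by_cases e : rel p q
    · exact Or.inr ⟨(p, q), (hR _).2 e, 1, rfl, fun x _ => (one_mul _).symm⟩
    · exact Or.inl fun x hx => hx.2 p q e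

theorem co_mem_lie {J x : Matrix ι ι ℂ} (F : Form J)
    (h : ∀ p q, x (F.bar q) (F.bar p) * J (F.bar q) q = -(J (F.bar p) p * x p q)) : x ∈ lie J :=
  F.mem_lie.2 fun p q => by
    have := h (F.bar p) q
    rwa [F.bar_bar] at this

theorem coord_form {J : Matrix ι ι ℂ} (F : Form J) {rel : ι → ι → Prop} {b b₀ : ι → ℤ}
    (hb : ∀ p, b (F.bar p) = -b p) (hb₀ : ∀ p, b₀ (F.bar p) = -b₀ p)
    (hi : Function.Injective b₀) (h : ∀ p q, rel p q → b q < b p)
    (hs : ∀ p q, rel p q → rel (F.bar q) (F.bar p)) {R : Finset (ι × ι)}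
    (hR : ∀ r, r ∈ R ↔ rel r.1 r.2 ∧ (0 < b₀ r.1 + b₀ r.2 ∨ (F.ε = -1 ∧ r.2 = F.bar r.1))) :
    Coord {x | x ∈ lie J ∧ ∀ p q, ¬ rel p q → x p q = 0} b R := by
  have hε : F.ε ≠ 0 := by rcases F.hε with e | e <;> rw [e] <;> norm_num
  refine ⟨fun c => ⟨Matrix.of fun p q => if (p, q) ∈ R then c (p, q) else
    if (F.bar q, F.bar p) ∈ R then -(J q (F.bar q) / J p (F.bar p)) * c (F.bar q, F.bar p) else 0,
    ⟨co_mem_lie F fun p q => ?_, fun p q hn => ?_⟩, fun r hr => ?_⟩,
    fun p q => ?_, fun r hr => h _ _ ((hR r).1 hr).1⟩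
  · simp only [of_apply, F.bar_bar]
    have n1 := F.ne'' q
    have n2 := F.ne' p
    by_cases h1 : (p, q) ∈ R <;> by_cases h2 : (F.bar q, F.bar p) ∈ R
    · have e1 := ((hR _).1 h1).2
      have e2 := ((hR _).1 h2).2
      simp only [hb₀, F.bar_bar] at e1 e2
      have e3 : F.ε = -1 ∧ q = F.bar p := by
        rcases e1 with e1 | e1
        · rcases e2 with e2 | e2
          · omega
          · exact ⟨e2.1, e2.2.symm⟩
        · exact e1
      obtain ⟨e3, rfl⟩ := e3
      rw [if_pos h2, if_pos h1, F.bar_bar, F.swap p (F.bar p), e3]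
      ring
    · rw [if_neg h2, if_pos h1, if_pos h1]
      field_simp
    · rw [if_pos h2, if_neg h1, if_pos h2, F.swap p (F.bar p), F.swap q (F.bar q)]
      field_simp
    · rw [if_neg h2, if_neg h1, if_neg h1, if_neg h2, zero_mul, mul_zero, neg_zero]
  · rw [of_apply, if_neg fun e => hn ((hR _).1 e).1, if_neg fun e => hn ?_]
    have := hs _ _ ((hR _).1 e).1
    rwa [F.bar_bar, F.bar_bar] at this
  · rw [of_apply, if_pos hr]
  · by_cases e : rel p q
    swap
    · exact Or.inl fun x hx => hx.2 p q e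
    rcases lt_trichotomy 0 (b₀ p + b₀ q) with h1 | h1 | h1
    · exact Or.inr ⟨(p, q), (hR _).2 ⟨e, Or.inl h1⟩, 1, rfl, fun x _ => (one_mul _).symm⟩
    · have e1 : q = F.bar p := hi (by rw [hb₀]; omega)
      rcases F.hε with e2 | e2
      · refine Or.inl fun x hx => ?_
        have e3 := F.mem_lie.1 hx.1 (F.bar p) (F.bar p)
        rw [F.bar_bar, F.swap p (F.bar p), e2, one_mul] at e3
        have n2 := F.ne' p
        rw [e1]
        exact mul_right_cancel₀ n2 (by linear_combination e3 / 2)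
      · exact Or.inr ⟨(p, q), (hR _).2 ⟨e, Or.inr ⟨e2, e1⟩⟩, 1, rfl, fun x _ => (one_mul _).symm⟩
    · refine Or.inr ⟨(F.bar q, F.bar p), (hR _).2 ⟨hs _ _ e, Or.inl ?_⟩,
        -(J (F.bar q) q / J (F.bar p) p), ?_, fun x hx => ?_⟩
      · simp only [hb₀]
        omega
      · simp only [hb]
        omega
      · have e3 := F.mem_lie.1 hx.1 (F.bar p) q
        rw [F.bar_bar] at e3
        have n2 := F.ne'' p
        field_simp
        linear_combination e3

namespace Cl

variable {J : Matrix ι ι ℂ} {a : (Fin n → ℤ) → ι → ℤ} (F : Cl J a)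

theorem co_fix (ν : Fin n → ℤ) {p : ι} (h : F.bar p = p) : a ν p = 0 := by
  have := F.a_bar ν p
  rw [h] at this
  omega

theorem co_uniq {p q : ι} (hp : F.bar p = p) (hq : F.bar q = q) : p = q :=
  Finset.card_le_one.1 (F.fix.trans_le F.hβ) p (by simpa using hp) q (by simpa using hq)

/-- the basis vectors of positive, negative and zero weight -/
def co_equiv : Fin n ⊕ Fin n ⊕ {p // F.bar p = p} ≃ ι :=
  Equiv.ofBijective (Sum.elim F.ps (Sum.elim (fun i => F.bar (F.ps i)) Subtype.val)) (by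
    constructor
    · intro x y e
      have e' := congrArg (a fun i => (i : ℕ) + 1) e
      rcases x with i | i | ⟨p, hp⟩ <;> rcases y with j | j | ⟨q, hq⟩ <;>
        simp only [Sum.elim_inl, Sum.elim_inr, F.a_bar, F.a_ps] at e e'
      · rw [Fin.ext (by omega : (i : ℕ) = j)]
      · omega
      · rw [F.co_fix _ hq] at e'; omega
      · omega
      · rw [Fin.ext (by omega : (i : ℕ) = j)]
      · rw [F.co_fix _ hq] at e'; omega
      · rw [F.co_fix _ hp] at e'; omega
      · rw [F.co_fix _ hp] at e'; omega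
      · subst e
        rfl
    · intro p
      rcases F.cases p with ⟨i, rfl⟩ | ⟨i, rfl⟩ | hp
      · exact ⟨Sum.inl i, rfl⟩
      · exact ⟨Sum.inr (Sum.inl i), rfl⟩
      · exact ⟨Sum.inr (Sum.inr ⟨p, hp⟩), rfl⟩)

theorem co_prod {M : Type*} [CommMonoid M] (f : ι → M) : ∏ p, f p =
    (∏ i, f (F.ps i)) * ((∏ i, f (F.bar (F.ps i))) * ∏ p with F.bar p = p, f p) := by
  rw [← F.co_equiv.prod_comp, Fintype.prod_sum_type, Fintype.prod_sum_type,
    Finset.prod_subtype (p := fun p => F.bar p = p) (F := inferInstance) _ (by simp)]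
  rfl

theorem co_sum (f : ι → ℕ) : ∑ p, f p =
    (∑ i, f (F.ps i)) + ((∑ i, f (F.bar (F.ps i))) + ∑ p with F.bar p = p, f p) := by
  rw [← F.co_equiv.sum_comp, Fintype.sum_sum_type, Fintype.sum_sum_type,
    Finset.sum_subtype (p := fun p => F.bar p = p) (F := inferInstance) _ (by simp)]
  rfl

include F in
theorem a_inj {ν : Fin n → ℤ} (hν : Reg ν) : Function.Injective (a ν) := by
  intro p q e
  have h0 := hν.2
  rcases F.cases p with ⟨i, rfl⟩ | ⟨i, rfl⟩ | hp <;> rcases F.cases q with ⟨j, rfl⟩ | ⟨j, rfl⟩ | hq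
  all_goals try simp only [F.a_bar, F.a_ps] at e
  · rw [hν.1.injective e]
  · have := h0 i; have := h0 j; omega
  · have := h0 i; have := F.co_fix ν hq; omega
  · have := h0 i; have := h0 j; omega
  · rw [hν.1.injective (neg_injective e)]
  · have := h0 i; have := F.co_fix ν hq; omega
  · have := h0 j; have := F.co_fix ν hp; omega
  · have := h0 j; have := F.co_fix ν hp; omega
  · exact F.co_uniq hp hq

include F in
theorem a_mono {ν ν' : Fin n → ℤ} (hν : Reg ν) (h1 : Monotone ν') (h2 : ∀ i, 0 ≤ ν' i)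
    {p q : ι} (h : a ν p ≤ a ν q) : a ν' p ≤ a ν' q := by
  have h0 := hν.2
  rcases F.cases p with ⟨i, rfl⟩ | ⟨i, rfl⟩ | hp <;> rcases F.cases q with ⟨j, rfl⟩ | ⟨j, rfl⟩ | hq
  all_goals try simp only [F.a_bar, F.a_ps] at h ⊢
  · exact h1 (hν.1.le_iff_le.1 h)
  · have := h0 i; have := h0 j; omega
  · have := h0 i; have := F.co_fix ν hq; omega
  · have := h2 i; have := h2 j; omega
  · exact neg_le_neg (h1 (hν.1.le_iff_le.1 (neg_le_neg_iff.1 h)))
  · have := h2 i; have := F.co_fix ν' hq; omega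
  · have := h2 j; have := F.co_fix ν' hp; omega
  · have := h0 j; have := F.co_fix ν hp; omega
  · rw [F.co_fix ν' hp, F.co_fix ν' hq]

theorem card_eq : Fintype.card ι = 2 * n + F.β := by
  rw [← Fintype.card_congr F.co_equiv, Fintype.card_sum, Fintype.card_sum, Fintype.card_fin,
    Fintype.card_subtype, F.fix]
  omega

theorem card_level (lv : Fin n → ℕ) (c : ℤ) : #{p | a (fun i => lv i) p = c} =
    if c = 0 then 2 * #{i | lv i = 0} + F.β else #{i | lv i = c.natAbs} := by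
  rw [Finset.card_filter, F.co_sum]
  simp only [F.a_bar, F.a_ps]
  rw [Finset.sum_congr (s₁ := {p | F.bar p = p}) rfl (g := fun _ => if 0 = c then 1 else 0)
    fun p hp => by rw [F.co_fix _ (Finset.mem_filter.1 hp).2], Finset.sum_const, F.fix, ← Finset.card_filter, ← Finset.card_filter]
  rcases lt_trichotomy c 0 with h | h | h
  · rw [if_neg h.ne, if_neg h.ne', Finset.filter_false_of_mem fun i _ => by omega,
      Finset.filter_congr (q := fun i => lv i = c.natAbs) fun i _ => by omega]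
    simp
  · subst h
    rw [if_pos rfl, if_pos rfl, Finset.filter_congr (q := fun i => lv i = 0) fun i _ => by omega,
      Finset.filter_congr (p := fun i => -(lv i : ℤ) = 0) (q := fun i => lv i = 0)
        fun i _ => by omega, smul_eq_mul]
    omega
  · rw [if_neg h.ne', if_neg h.ne,
      Finset.filter_false_of_mem (p := fun i => -(lv i : ℤ) = c) fun i _ => by omega,
      Finset.filter_congr (q := fun i => lv i = c.natAbs) fun i _ => by omega]
    simp

theorem beta_zero (h : F.ε = -1) : F.β = 0 := by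
  rw [← F.fix, Finset.card_eq_zero, Finset.filter_eq_empty_iff]
  intro p _ hp
  have e := F.swap p p
  have n := F.ne' p
  rw [hp] at n
  rw [h] at e
  exact n (by linear_combination e / 2)

theorem prod_levi {ν ν₀ : Fin n → ℤ} (hν₀ : Reg ν₀) {lv : Fin n → ℕ}
    (hm : Monotone lv) (h0 : F.ε = -1 → ∀ i, lv i ≠ 0) {R R' : Finset (ι × ι)}
    (hR : ∀ r, r ∈ R ↔ a ν₀ r.2 < a ν₀ r.1 ∧
      (0 < a ν₀ r.1 + a ν₀ r.2 ∨ (F.ε = -1 ∧ r.2 = F.bar r.1)))
    (hR' : ∀ r, r ∈ R' ↔ a (fun i => lv i) r.2 < a (fun i => lv i) r.1 ∧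
      (0 < a ν₀ r.1 + a ν₀ r.2 ∨ (F.ε = -1 ∧ r.2 = F.bar r.1))) :
    ∏ r ∈ R \ R', ((a ν r.1 : ℂ) - a ν r.2) =
      MvPolynomial.eval (fun i => (ν i : ℂ)) (PJ F.β lv) := by
  have hp := hν₀.2
  have key : ∀ p q, (p, q) ∈ R \ R' → 0 < a ν₀ p := fun p q hr => by
    obtain ⟨e1, e2 | ⟨-, e2⟩⟩ := (hR _).1 (Finset.mem_sdiff.1 hr).1
    · simp only at e1 e2
      omega
    · simp only at e1 e2
      rw [e2, F.a_bar] at e1
      omega
  have k1 : ∀ i j, (F.ps i, F.ps j) ∈ R \ R' ↔ j < i ∧ lv j = lv i := fun i j => by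
    simp only [Finset.mem_sdiff, hR, hR', F.a_ps, hν₀.1.lt_iff_lt]
    have := hp i
    have := hp j
    constructor
    · rintro ⟨⟨e1, e2⟩, e3⟩
      have := hm e1.le
      exact ⟨e1, by by_contra e4; exact e3 ⟨by omega, e2⟩⟩
    · rintro ⟨e1, e2⟩
      exact ⟨⟨e1, Or.inl (by omega)⟩, fun e3 => by omega⟩
  have k2 : ∀ i j, (F.ps i, F.bar (F.ps j)) ∈ R \ R' ↔ (j < i ∧ lv j = lv i) ∧ lv i = 0 :=
      fun i j => by
    simp only [Finset.mem_sdiff, hR, hR', F.a_ps, F.a_bar, ← hν₀.1.lt_iff_lt]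
    have := hp i
    have := hp j
    constructor
    · rintro ⟨⟨-, e2⟩, e3⟩
      have e4 : ¬ (-(lv j : ℤ) < lv i) := fun e4 => e3 ⟨e4, e2⟩
      rcases e2 with e2 | e2
      · omega
      · have := h0 e2.1 i
        omega
    · rintro ⟨⟨e1, e2⟩, e3⟩
      exact ⟨⟨by omega, Or.inl (by omega)⟩, fun e3 => by omega⟩
  have k3 : ∀ i q, F.bar q = q → ((F.ps i, q) ∈ R \ R' ↔ lv i = 0) := fun i q hq => by
    simp only [Finset.mem_sdiff, hR, hR', F.a_ps, F.co_fix _ hq]
    have := hp i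
    constructor
    · rintro ⟨⟨-, e2⟩, e3⟩
      by_contra e4
      exact e3 ⟨by omega, e2⟩
    · intro e1
      exact ⟨⟨by omega, Or.inl (by omega)⟩, fun e3 => by omega⟩
  have k4 : ∀ p, a ν₀ p ≤ 0 →
      ∏ q, (if (p, q) ∈ R \ R' then ((a ν p : ℂ) - a ν q) else 1) = 1 := fun p h =>
    Finset.prod_eq_one fun q _ => if_neg fun e => absurd (key p q e) (by omega)
  rw [← Finset.univ_inter (R \ R'), ← Finset.prod_ite_mem, Fintype.prod_prod_type, F.co_prod,
    Finset.prod_eq_one (s := univ) (f := fun i => ∏ q, (if (F.bar (F.ps i), q) ∈ R \ R' then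
      ((a ν (F.bar (F.ps i)) : ℂ) - a ν q) else 1)) fun i _ => k4 _ (by
        rw [F.a_bar, F.a_ps]; have := hp i; omega),
    Finset.prod_eq_one (s := {p | F.bar p = p}) fun p h => k4 _ (by
      rw [F.co_fix _ (Finset.mem_filter.1 h).2]), mul_one, mul_one, PJ]
  simp only [map_mul, map_prod, map_sub, map_pow, MvPolynomial.eval_X]
  rw [← Finset.prod_mul_distrib]
  refine Finset.prod_congr rfl fun i _ => ?_
  rw [F.co_prod, ← mul_assoc, ← Finset.prod_mul_distrib, Finset.prod_filter (s := univ)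
    (fun j => j < i ∧ lv j = lv i)]
  congr 1
  · refine Finset.prod_congr rfl fun j _ => ?_
    simp only [k1, k2, F.a_bar, F.a_ps]
    by_cases e1 : j < i ∧ lv j = lv i
    · by_cases e2 : lv i = 0
      · rw [if_pos e1, if_pos ⟨e1, e2⟩, if_pos e1, if_pos e2, if_pos (e1.2.trans e2)]
        push_cast
        ring
      · rw [if_pos e1, if_neg fun e => e2 e.2, if_pos e1, if_neg e2,
          if_neg fun e => e2 (e1.2.symm.trans e), mul_one, pow_one, pow_one]
    · rw [if_neg e1, if_neg fun e => e1 e.1, if_neg e1, mul_one]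
  · rw [Finset.prod_congr rfl (g := fun _ => if lv i = 0 then (ν i : ℂ) else 1) fun q hq => by
      simp only [k3 i q (Finset.mem_filter.1 hq).2, F.co_fix _ (Finset.mem_filter.1 hq).2, F.a_ps,
        Int.cast_zero, sub_zero], Finset.prod_const, F.fix]
    split_ifs <;> simp

end Cl

end

end Pool.Agent.P.MP_5e2a31_al.L
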