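import Pool.Agent.P.MP_5e2a31_al.DefsA
import Pool.Agent.P.MP_1a0ecf_al.Spec

namespace Pool.Agent.P.MP_5e2a31_al.L

open Matrix Filter Pool.Agent.P.MP_1a0ecf_al.S
open scoped Topology

noncomputable section

variable {ι : Type} [Fintype ι] [DecidableEq ι] {n : ℕ}

/-- The Lie algebra `g` of the traceless matrices that are skew for the form `J`; for `J = 0` this
is `sl`. -/
def lie (J : Matrix ι ι ℂ) : Set (Matrix ι ι ℂ) := {x | x.trace = 0 ∧ xᵀ * J = -(J * x)}

/-- The derived series of the Lie algebra spanned by `S`. -/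
def der (S : Set (Matrix ι ι ℂ)) : ℕ → Submodule ℂ (Matrix ι ι ℂ)
  | 0 => Submodule.span ℂ S
  | k + 1 => Submodule.span ℂ {z | ∃ x ∈ der S k, ∃ y ∈ der S k, z = x * y - y * x}

/-- The Jordan type `λ` of `e` is dominated by its transpose: `λ 1 + … + λ i ≤ dim ker e ^ i`.
The differences of the ranks are the parts of the transpose. -/
def Dom (e : Matrix ι ι ℂ) : Prop :=
  ∀ i, ∑ j ∈ Finset.range (Fintype.card ι), min i ((e ^ j).rank - (e ^ (j + 1)).rank) +
    (e ^ i).rank ≤ Fintype.card ι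

/-- The orbit of `e` under the group of the isometries of `J` of determinant one. -/
def orbit (J e : Matrix ι ι ℂ) : Set (Matrix ι ι ℂ) :=
  {x | ∃ u : Matrix ι ι ℂ, u.det = 1 ∧ uᵀ * J * u = J ∧ u * e = x * u}

/-- Integral points of the diagonal Cartan subalgebra with `0 < ν 0 < ν 1 < …`. -/
def Reg (ν : Fin n → ℤ) : Prop := StrictMono ν ∧ ∀ i, 0 < ν i

/-- The nilradical of the Borel subalgebra; `a ν` is the diagonal of the Cartan element `ν`. -/
def nil (J : Matrix ι ι ℂ) (a : (Fin n → ℤ) → ι → ℤ) : Set (Matrix ι ι ℂ) :=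
  {x | x ∈ lie J ∧ ∀ ν, Reg ν → ∀ p q, a ν p ≤ a ν q → x p q = 0}

/-- The Hilbert function of `Z`: the dimension of the space of functions on `Z` spanned by the
monomials in the matrix entries of weight at most `m`. -/
def hilb (b : ι → ℤ) (Z : Set (Matrix ι ι ℂ)) (m : ℕ) : ℕ :=
  Set.finrank ℂ {f : Z → ℂ | ∃ k : ι × ι → ℕ, ∑ r, k r * (b r.1 - b r.2) ≤ m ∧
    f = fun x => ∏ r, x.1 r.1 r.2 ^ k r}

/-- `P` is the Joseph polynomial (characteristic polynomial, equivariant multiplicity) of a subset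
`Z` of `O ∩ n`, in the degree `dim n - dim O / 2`, for the orbit `O` of `e`. -/
def Joseph (J : Matrix ι ι ℂ) (a : (Fin n → ℤ) → ι → ℤ) (e : Matrix ι ι ℂ)
    (P : MvPolynomial (Fin n) ℂ) : Prop :=
  ∃ Z ⊆ orbit J e ∩ nil J a, ∀ ν, Reg ν →
    Tendsto (fun m : ℕ => (hilb (a ν) Z m : ℂ) / hilb (a ν) (nil J a) m *
      m ^ (Set.finrank ℂ (nil J a) - Set.finrank ℂ ((fun x => x * e - e * x) '' lie J) / 2))
      atTop (𝓝 (MvPolynomial.eval (fun i => (ν i : ℂ)) P))

/-- The action of signed permutations on polynomial functions on the Cartan subalgebra. -/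
def pact (w : HypOct n) (P : MvPolynomial (Fin n) ℂ) : MvPolynomial (Fin n) ℂ :=
  MvPolynomial.aeval (fun i => (w.left (w.right i) : ℤ) • MvPolynomial.X (w.right i)) P

/-- The transposition of `i` and `i + 1`. -/
def tr (n i : ℕ) : HypOct n :=
  if h : i + 1 < n then SemidirectProduct.inr (Equiv.swap ⟨i, by omega⟩ ⟨i + 1, h⟩) else 1

/-- The change of the signs of the first `j` coordinates. -/
def neg (n j : ℕ) : HypOct n := SemidirectProduct.inl fun i => if i.1 < j then -1 else 1

/-- Let the Coxeter group `G` act on polynomials through `φ`. Let `F` be a Lusztig family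
(two-sided cell, the cell of `z`) that contains an irreducible constituent `σ` of the module
generated by `P`. Suppose that `Q` holds or that `F` contains `σ' = σ ⊗ sgn`. Then every
irreducible representation `U` occurs in `ρ_F ⊗ ρ_F`. -/
def Cell {G : Type} [Group G] [Fintype G] {r : ℕ} {M : CoxeterMatrix (Fin r)}
    (cs : CoxeterSystem M G) (φ : G → HypOct n) (Q : Prop) (P : MvPolynomial (Fin n) ℂ) : Prop :=
  ∀ (H : Type) [Ring H] [Algebra (AddMonoidAlgebra ℤ ℤ) H]
    (T C : Module.Basis G (AddMonoidAlgebra ℤ ℤ) H) (bar : H →+* H),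
    IsHecke cs (fun _ => 1) T → IsBar T bar → IsKL T bar C →
  ∀ (z : G) (d : ℕ) (σ : Representation ℂ G (Fin d → ℂ)), σ.IsIrreducible →
    (∃ f : (Fin d → ℂ) →ₗ[ℂ] MvPolynomial (Fin n) ℂ, f ≠ 0 ∧
      (∀ w v, f (act σ w v) = pact (φ w) (f v)) ∧
      ∀ v, f v ∈ Submodule.span ℂ (Set.range fun w => pact (φ w) P)) →
    Occurs T C z σ →
    (Q ∨ ∃ σ' : Representation ℂ G (Fin d → ℂ),
      (∀ w v, act σ' w v = (-1 : ℂ) ^ cs.length w • act σ w v) ∧ Occurs T C z σ') →
  ∀ (c : ℕ) (U : Representation ℂ G (Fin c → ℂ)), U.IsIrreducible →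
  ∃ (k k' : ℕ) (π : Representation ℂ G (Fin k → ℂ)) (π' : Representation ℂ G (Fin k' → ℂ)),
    π.IsIrreducible ∧ π'.IsIrreducible ∧ Occurs T C z π ∧ Occurs T C z π' ∧
      ∃ f : U.IntertwiningMap (π.tprod π'), f ≠ 0

/-- The statement `Cell` for `W` with the simple reflections `s 0, …, s (r - 1)`. -/
def Square (W : Subgroup (HypOct n)) (r : ℕ) (s : ℕ → HypOct n) (Q : Prop)
    (P : MvPolynomial (Fin n) ℂ) : Prop :=
  ∀ [Fintype W] (M : CoxeterMatrix (Fin r)) (cs : CoxeterSystem M W),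
    (∀ i, (cs.simple i : HypOct n) = s i) → Cell cs Subtype.val Q P

/-- The conjecture for the Lie algebra `lie J` with Weyl group `W`: for a nilpotent `e` with
solvable centraliser, the statement `Square` holds for the Springer representation of the orbit
of `e`, the module generated by a nonzero Joseph polynomial. Self-duality may be read on
partitions (`d` is the collapse of the transpose, so `d O = O` gives `Dom e`) or on families
(`d O_F = O_(F ⊗ sgn)`). -/
def Conj (J : Matrix ι ι ℂ) (a : (Fin n → ℤ) → ι → ℤ) (W : Subgroup (HypOct n)) (r : ℕ)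
    (s : ℕ → HypOct n) : Prop :=
  ∀ e ∈ lie J, IsNilpotent e → (∃ k, der {x | x ∈ lie J ∧ x * e = e * x} k = ⊥) →
    ∃ P, P ≠ 0 ∧ Joseph J a e P ∧ Square W r s (Dom e) P

end

end Pool.Agent.P.MP_5e2a31_al.L
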