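import Pool.Agent.P.MP_5e2a31_al.L.Base

/-! Package N2: polynomial square roots, conjugacy under isometries. -/

namespace Pool.Agent.P.MP_5e2a31_al.L

open Matrix Finset
open scoped Classical

noncomputable section

variable {ι : Type} [Fintype ι] [DecidableEq ι] {n : ℕ}

open Polynomial in
theorem n2_poly : ∀ (d : ℕ) (p : ℂ[X]), p.natDegree = d → p.eval 0 ≠ 0 →
    ∃ q : ℂ[X], p ∣ q * q - X := by
  intro d
  induction d with
  | zero =>
    intro p hd h0
    refine ⟨0, IsUnit.dvd ?_⟩
    rw [eq_C_of_natDegree_eq_zero hd] at h0 ⊢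
    rw [eval_C] at h0
    exact isUnit_C.2 (IsUnit.mk0 _ h0)
  | succ d ih =>
    intro p hd h0
    have hp : p ≠ 0 := by
      rintro rfl
      simp at h0
    have hdeg : p.degree ≠ 0 := by
      intro h
      rw [natDegree_eq_of_degree_eq_some (n := 0) h] at hd
      omega
    obtain ⟨c, hc⟩ := IsAlgClosed.exists_root p hdeg
    obtain ⟨p', rfl⟩ := dvd_iff_isRoot.2 hc
    have hp' : p' ≠ 0 := right_ne_zero_of_mul hp
    rw [natDegree_mul (X_sub_C_ne_zero c) hp', natDegree_X_sub_C] at hd
    rw [eval_mul] at h0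
    have hc0 : c ≠ 0 := by
      rintro rfl
      simp at h0
    obtain ⟨q, s, hs⟩ := ih p' (by omega) (right_ne_zero_of_mul h0)
    have ht : ∃ t : ℂ, p'.eval c * (t * t) + 2 * q.eval c * t + s.eval c = 0 := by
      by_cases hz : p'.eval c = 0
      · have e := congrArg (eval c) hs
        rw [eval_sub, eval_mul, eval_X, eval_mul, hz, zero_mul] at e
        have hq : q.eval c ≠ 0 := by
          intro h
          rw [h] at e
          exact hc0 (by linear_combination -e)
        refine ⟨-(s.eval c) / (2 * q.eval c), ?_⟩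
        rw [hz]
        field_simp
        ring
      · obtain ⟨r, hr⟩ := IsAlgClosed.exists_eq_mul_self
          (discrim (p'.eval c) (2 * q.eval c) (s.eval c))
        exact exists_quadratic_eq_zero hz ⟨r, hr⟩
    obtain ⟨t, ht⟩ := ht
    refine ⟨q + p' * C t, ?_⟩
    have e : (q + p' * C t) * (q + p' * C t) - X =
        (p' * (C t * C t) + 2 * q * C t + s) * p' := by
      linear_combination hs
    rw [e]
    refine mul_dvd_mul_right (dvd_iff_isRoot.2 ?_) _
    simpa [IsRoot.def] using ht

theorem exists_sqrt {a : Matrix ι ι ℂ} (ha : IsUnit a.det) :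
    ∃ q : Polynomial ℂ, Polynomial.aeval a q * Polynomial.aeval a q = a := by
  have h0 : a.charpoly.eval 0 ≠ 0 := by
    intro h
    rw [← Polynomial.coeff_zero_eq_eval_zero] at h
    rw [Matrix.det_eq_sign_charpoly_coeff, h, mul_zero] at ha
    exact not_isUnit_zero ha
  obtain ⟨q, s, hs⟩ := n2_poly _ _ rfl h0
  refine ⟨q, ?_⟩
  have e := congrArg (Polynomial.aeval a) hs
  rw [map_sub, map_mul, Polynomial.aeval_X, map_mul, Matrix.aeval_self_charpoly, zero_mul] at e
  exact sub_eq_zero.1 e

theorem n2_aeval_comm {a b J : Matrix ι ι ℂ} (h : b * J = J * a) (q : Polynomial ℂ) :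
    Polynomial.aeval b q * J = J * Polynomial.aeval a q := by
  induction q using Polynomial.induction_on with
  | C c => simp only [Polynomial.aeval_C, Algebra.commutes]
  | add p q hp hq => rw [map_add, map_add, add_mul, mul_add, hp, hq]
  | monomial k c ih =>
    rw [pow_succ, ← mul_assoc, map_mul, map_mul (Polynomial.aeval a), Polynomial.aeval_X,
      Polynomial.aeval_X, mul_assoc, h, ← mul_assoc, ih, mul_assoc]

theorem n2_aeval_transpose (a : Matrix ι ι ℂ) (q : Polynomial ℂ) :
    (Polynomial.aeval a q)ᵀ = Polynomial.aeval aᵀ q := by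
  induction q using Polynomial.induction_on with
  | C c =>
    simp only [Polynomial.aeval_C, Algebra.algebraMap_eq_smul_one, transpose_smul, transpose_one]
  | add p q hp hq => rw [map_add, map_add, transpose_add, hp, hq]
  | monomial k c _ =>
    simp only [map_mul, map_pow, Polynomial.aeval_C, Polynomial.aeval_X,
      Algebra.algebraMap_eq_smul_one, smul_mul_assoc, one_mul, transpose_smul, transpose_pow]

theorem isom_conj {J x y g : Matrix ι ι ℂ} (hJ : IsUnit J.det) {ε : ℂ} (hε : ε = 1 ∨ ε = -1)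
    (hs : Jᵀ = ε • J) (hx : x ∈ lie J) (hy : y ∈ lie J) (hg : IsUnit g.det)
    (h : g * x = y * g) : ∃ u : Matrix ι ι ℂ, uᵀ * J * u = J ∧ u * x = y * u := by
  have hε0 : ε ≠ 0 := by rcases hε with rfl | rfl <;> norm_num
  obtain ⟨a, ha⟩ : ∃ a : Matrix ι ι ℂ, a = J⁻¹ * (gᵀ * J * g) := ⟨_, rfl⟩
  have hJa : J * a = gᵀ * J * g := by
    rw [ha, ← mul_assoc, mul_nonsing_inv _ hJ, one_mul]
  have haJ : aᵀ * J = J * a := by
    have e := congrArg Matrix.transpose hJa
    rw [transpose_mul, transpose_mul, transpose_mul, transpose_transpose, hs, mul_smul_comm,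
      smul_mul_assoc, mul_smul_comm, ← mul_assoc, ← hJa] at e
    exact smul_right_injective _ hε0 e
  have hau : IsUnit a.det := by
    rw [ha, det_mul, det_mul, det_mul, det_transpose]
    exact (isUnit_nonsing_inv_det _ hJ).mul ((hg.mul hJ).mul hg)
  have hax : a * x = x * a := by
    have h1 : xᵀ * gᵀ = gᵀ * yᵀ := by rw [← transpose_mul, h, transpose_mul]
    have e : J * (a * x) = J * (x * a) := by
      have e1 : J * (a * x) = gᵀ * (J * y) * g := by
        rw [← mul_assoc, hJa, mul_assoc, h]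
        simp only [mul_assoc]
      have e2 : J * (x * a) = -(xᵀ * (J * a)) := by
        rw [← mul_assoc, ← mul_assoc xᵀ, hx.2, neg_mul, neg_neg]
      have e3 : J * y = -(yᵀ * J) := by rw [hy.2, neg_neg]
      rw [e1, e2, hJa, e3, ← mul_assoc, ← mul_assoc, h1]
      simp only [mul_assoc, mul_neg, neg_mul]
    have e' := congrArg (fun m => J⁻¹ * m) e
    simpa only [← mul_assoc, nonsing_inv_mul _ hJ, one_mul] using e'
  obtain ⟨q, hq⟩ := exists_sqrt hau
  have hrJ : (Polynomial.aeval a q)ᵀ * J = J * Polynomial.aeval a q := by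
    rw [n2_aeval_transpose]
    exact n2_aeval_comm haJ q
  have hrx : Polynomial.aeval a q * x = x * Polynomial.aeval a q := n2_aeval_comm hax q
  set r := Polynomial.aeval a q
  have hru : IsUnit r.det := by
    rw [← hq, det_mul] at hau
    exact isUnit_of_mul_isUnit_left hau
  refine ⟨g * r⁻¹, ?_, ?_⟩
  · have e1 : (g * r⁻¹)ᵀ * J * (g * r⁻¹) = r⁻¹ᵀ * (gᵀ * J * g) * r⁻¹ := by
      rw [transpose_mul]
      simp only [mul_assoc]
    have e2 : r⁻¹ᵀ * rᵀ = 1 := by rw [← transpose_mul, mul_nonsing_inv _ hru, transpose_one]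
    rw [e1, ← hJa, ← hq, ← mul_assoc J, ← hrJ, ← mul_assoc, ← mul_assoc, e2, one_mul, mul_assoc,
      mul_nonsing_inv _ hru, mul_one]
  · have e : r⁻¹ * x = x * r⁻¹ := by
      calc r⁻¹ * x = r⁻¹ * (x * r) * r⁻¹ := by
            rw [mul_assoc, mul_assoc, mul_nonsing_inv _ hru, mul_one]
        _ = x * r⁻¹ := by rw [← hrx, ← mul_assoc, nonsing_inv_mul _ hru, one_mul]
    rw [mul_assoc, e, ← mul_assoc, h, mul_assoc]

end

end Pool.Agent.P.MP_5e2a31_al.L
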