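import Pool.Agent.P.MP_5e2a31_al.L.N1
import Pool.Agent.P.MP_5e2a31_al.L.N2

/-! Package Dn: density of the generic elements, membership in orbits. -/

namespace Pool.Agent.P.MP_5e2a31_al.L

open Matrix Finset
open scoped Classical

noncomputable section

variable {ι : Type} [Fintype ι] [DecidableEq ι] {n : ℕ}

theorem dn_minor (a : Matrix ι ι ℂ) :
    ∃ (P : Matrix (Fin a.rank) ι ℂ) (Q : Matrix ι (Fin a.rank) ℂ), P * a * Q = 1 := by
  obtain ⟨V, U, σ, -, -, h⟩ := Matrix.exists_rank_normal_form a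
  refine ⟨V.submatrix (fun i => σ.symm (Sum.inl i)) id,
    U.submatrix id (fun j => σ.symm (Sum.inl j)), ?_⟩
  ext i j
  have e := congrFun (congrFun h (σ.symm (Sum.inl i))) (σ.symm (Sum.inl j))
  rw [submatrix_apply, Equiv.apply_symm_apply, Equiv.apply_symm_apply, fromBlocks_apply₁₁] at e
  rw [← e]
  simp only [Matrix.mul_apply, submatrix_apply, id]

omit [DecidableEq ι] in
theorem dn_rank_le {r : ℕ} {P : Matrix (Fin r) ι ℂ} {Q : Matrix ι (Fin r) ℂ} {x : Matrix ι ι ℂ}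
    (h : (P * x * Q).det ≠ 0) : r ≤ x.rank := by
  have e := Matrix.rank_of_det_ne_zero h
  rw [Fintype.card_fin] at e
  rw [← e]
  exact (rank_mul_le_left _ _).trans (rank_mul_le_right _ _)

theorem dense_rank (Y : Submodule ℂ (Matrix ι ι ℂ)) {e : Matrix ι ι ℂ} (he : e ∈ Y) (N : ℕ) :
    ZD {x | x ∈ Y ∧ ∀ i < N, (e ^ i).rank ≤ (x ^ i).rank} Y := by
  refine ⟨fun x hx => hx.1, fun f hf x hx => ?_⟩
  choose P Q hPQ using fun i : ℕ => dn_minor (e ^ i)
  obtain ⟨M, hM⟩ : ∃ M : Matrix ι ι (Polynomial ℂ), ∀ t : ℂ,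
      M.map (Polynomial.evalRingHom t) = x + t • (e - x) := by
    refine ⟨Matrix.of fun p q => Polynomial.C (x p q) + Polynomial.X * Polynomial.C ((e - x) p q),
      fun t => ?_⟩
    ext p q
    simp [Matrix.map_apply]
  obtain ⟨g, hg⟩ : ∃ g : Polynomial ℂ, ∀ t : ℂ,
      g.eval t = ∏ i ∈ range N, (P i * (x + t • (e - x)) ^ i * Q i).det := by
    refine ⟨∏ i ∈ range N, ((P i).map Polynomial.C * M ^ i * (Q i).map Polynomial.C).det,
      fun t => ?_⟩
    rw [Polynomial.eval_prod]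
    refine prod_congr rfl fun i _ => ?_
    rw [← Polynomial.coe_evalRingHom, RingHom.map_det, RingHom.mapMatrix_apply, Matrix.map_mul,
      Matrix.map_mul, Matrix.map_pow, hM]
    congr 3
    · ext p q
      simp [Matrix.map_apply]
    · ext p q
      simp [Matrix.map_apply]
  obtain ⟨u, hu⟩ : ∃ u : Polynomial ℂ, ∀ t : ℂ,
      u.eval t = MvPolynomial.eval (fun r => (x + t • (e - x)) r.1 r.2) f := by
    refine ⟨MvPolynomial.eval₂ Polynomial.C (fun r => M r.1 r.2) f, fun t => ?_⟩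
    rw [← Polynomial.coe_evalRingHom, MvPolynomial.eval₂_comp_left, ← hM t]
    have : (Polynomial.evalRingHom t).comp Polynomial.C = RingHom.id ℂ := by
      ext a
      simp
    rw [this]
    rfl
  have h0 : u * g = 0 := by
    refine Polynomial.funext fun t => ?_
    rw [Polynomial.eval_mul, Polynomial.eval_zero]
    by_cases h : g.eval t = 0
    · rw [h, mul_zero]
    · rw [hg, ← Ne, prod_ne_zero_iff] at h
      rw [hu, hf _ ⟨Y.add_mem hx (Y.smul_mem _ (Y.sub_mem he hx)),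
        fun i hi => dn_rank_le (h i (mem_range.2 hi))⟩, zero_mul]
  have h1 : g ≠ 0 := by
    intro h
    have e1 := hg 1
    rw [h, Polynomial.eval_zero, one_smul, add_sub_cancel] at e1
    simp only [hPQ, det_one, prod_const_one] at e1
    exact zero_ne_one e1
  have h2 := hu 0
  rw [(mul_eq_zero.1 h0).resolve_right h1, Polynomial.eval_zero, zero_smul, add_zero] at h2
  exact h2.symm

theorem mem_orbit_zero {e x : Matrix ι ι ℂ} (he : IsNilpotent e)
    (h : ∀ i, (e ^ i).rank = (x ^ i).rank) : x ∈ orbit 0 e := by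
  obtain ⟨g, hg, hx⟩ := conj_of_rank he h
  rcases Nat.eq_zero_or_pos (Fintype.card ι) with h0 | h0
  · have := Fintype.card_eq_zero_iff.1 h0
    exact ⟨g, det_isEmpty, by simp, hx⟩
  · obtain ⟨c, hc⟩ := IsAlgClosed.exists_pow_nat_eq (g.det)⁻¹ h0
    refine ⟨c • g, ?_, by simp, ?_⟩
    · rw [det_smul, hc, inv_mul_cancel₀ hg.ne_zero]
    · rw [smul_mul_assoc, hx, mul_smul_comm]

theorem dn_det {J u : Matrix ι ι ℂ} (hJ : IsUnit J.det) (h : uᵀ * J * u = J) :
    u.det = 1 ∨ u.det = -1 := by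
  have e := congrArg Matrix.det h
  rw [det_mul, det_mul, det_transpose] at e
  have e2 : u.det * u.det = 1 :=
    mul_right_cancel₀ hJ.ne_zero (by linear_combination e)
  exact mul_self_eq_one_iff.1 e2

omit [DecidableEq ι] in
theorem dn_isom_mul {J u v : Matrix ι ι ℂ} (hu : uᵀ * J * u = J) (hv : vᵀ * J * v = J) :
    (u * v)ᵀ * J * (u * v) = J := by
  have e : (u * v)ᵀ * J * (u * v) = vᵀ * (uᵀ * J * u) * v := by
    rw [transpose_mul]
    simp only [mul_assoc]
  rw [e, hu, hv]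

theorem mem_orbit_form {J e e₀ x : Matrix ι ι ℂ} (F : Form J) (he : IsNilpotent e)
    (he' : e ∈ lie J) (h₀ : e₀ ∈ lie J) (hx : x ∈ lie J)
    (hr₀ : ∀ i, (e ^ i).rank = (e₀ ^ i).rank) (hr : ∀ i, (e ^ i).rank = (x ^ i).rank)
    (hd : (∀ u : Matrix ι ι ℂ, uᵀ * J * u = J → u.det = 1) ∨
      ∃ c : Matrix ι ι ℂ, c.det = -1 ∧ cᵀ * J * c = J ∧ c * e₀ = e₀ * c) :
    x ∈ orbit J e := by
  obtain ⟨g, hg, hge⟩ := conj_of_rank he hr₀
  obtain ⟨u, hu, hue⟩ := isom_conj F.isUnit F.hε F.symm he' h₀ hg hge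
  have hn₀ : IsNilpotent e₀ := by
    obtain ⟨k, hk⟩ := he
    refine ⟨k, ?_⟩
    have e1 : g * e ^ k = e₀ ^ k * g := (SemiconjBy.pow_right hge k)
    rw [hk, mul_zero] at e1
    have e2 := congrArg (fun m => m * g⁻¹) e1
    simp only [zero_mul, mul_assoc, mul_nonsing_inv _ hg, mul_one] at e2
    exact e2.symm
  obtain ⟨g', hg', hge'⟩ := conj_of_rank hn₀ fun i => (hr₀ i).symm.trans (hr i)
  obtain ⟨v, hv, hve⟩ := isom_conj F.isUnit F.hε F.symm h₀ hx hg' hge'
  have hvu := dn_isom_mul hv hu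
  have hvue : v * u * e = x * (v * u) := by
    rw [mul_assoc, hue, ← mul_assoc, hve, mul_assoc]
  rcases dn_det F.isUnit hvu with h1 | h1
  · exact ⟨v * u, h1, hvu, hvue⟩
  · rcases hd with hd | ⟨c, hc, hcJ, hce⟩
    · exact ⟨v * u, hd _ hvu, hvu, hvue⟩
    · refine ⟨v * (c * u), ?_, dn_isom_mul hv (dn_isom_mul hcJ hu), ?_⟩
      · rw [det_mul] at h1
        rw [det_mul, det_mul, hc]
        linear_combination -h1
      · rw [mul_assoc, mul_assoc, hue, ← mul_assoc c, hce, mul_assoc, ← mul_assoc, hve, mul_assoc]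

end

end Pool.Agent.P.MP_5e2a31_al.L
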