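import Pool.Agent.P.MP_5e2a31_al.L.Base

/-! Package G1: the number of monomials of bounded weight. -/

namespace Pool.Agent.P.MP_5e2a31_al.L

open Matrix Finset
open scoped Classical

noncomputable section

variable {ι : Type} [Fintype ι] [DecidableEq ι] {n : ℕ}

/-- tuples with bounded sum and tuples with one more entry and given sum -/
def g1_equiv (κ : Type) [Fintype κ] (m : ℕ) :
    {y : κ → ℕ // ∑ r, y r ≤ m} ≃ (univ : Finset (Option κ)).finsuppAntidiag m where
  toFun y := ⟨Finsupp.equivFunOnFinite.symm fun o => o.elim (m - ∑ r, y.1 r) y.1, by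
    have := y.2
    simp only [mem_finsuppAntidiag, Finsupp.equivFunOnFinite_symm_apply_apply, Fintype.sum_option,
      Option.elim_none, Option.elim_some, subset_univ, and_true]
    omega⟩
  invFun f := ⟨fun r => f.1 (some r), by
    have := (mem_finsuppAntidiag.1 f.2).1
    rw [Fintype.sum_option] at this
    exact (Nat.le_add_left _ _).trans_eq this⟩
  left_inv y := by
    ext r
    simp
  right_inv f := by
    have := (mem_finsuppAntidiag.1 f.2).1
    rw [Fintype.sum_option] at this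
    ext o
    cases o with
    | none =>
      simp only [Finsupp.equivFunOnFinite_symm_apply_apply, Option.elim_none]
      omega
    | some r => simp

theorem g1_fin (κ : Type) [Fintype κ] (m : ℕ) : Finite {y : κ → ℕ // ∑ r, y r ≤ m} :=
  Finite.of_equiv _ (g1_equiv κ m).symm

theorem g1_card (κ : Type) [Fintype κ] (m : ℕ) :
    Nat.card {y : κ → ℕ // ∑ r, y r ≤ m} = (m + Fintype.card κ).choose (Fintype.card κ) := by
  rw [Nat.card_congr (g1_equiv κ m), Nat.card_eq_fintype_card, Fintype.card_coe,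
    card_finsuppAntidiag_nat_eq_choose, card_univ, Fintype.card_option,
    show Fintype.card κ + 1 + m - 1 = m + Fintype.card κ by omega, Nat.choose_symm_add]

theorem g1_fin' {κ : Type} [Fintype κ] {w : κ → ℕ} (hw : ∀ r, 0 < w r) (m : ℕ) :
    Finite {k : κ → ℕ // ∑ r, k r * w r ≤ m} := by
  have := g1_fin κ m
  refine Finite.of_injective (β := {y : κ → ℕ // ∑ r, y r ≤ m}) (fun k => ⟨k.1,
    (sum_le_sum fun r _ => Nat.le_mul_of_pos_right _ (hw r)).trans k.2⟩) fun a b h => ?_
  exact Subtype.ext (congrArg Subtype.val h :)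

theorem g1_prod {κ : Type} [Fintype κ] (w : κ → ℕ) (m : ℕ) :
    Nat.card ({k : κ → ℕ // ∑ r, k r * w r ≤ m} × ∀ r, Fin (w r)) = cnt w m * ∏ r, w r := by
  rw [Nat.card_prod, cnt, Nat.card_pi]
  simp

theorem g1_low {κ : Type} [Fintype κ] {w : κ → ℕ} (hw : ∀ r, 0 < w r) (m : ℕ) :
    (m + Fintype.card κ).choose (Fintype.card κ) ≤ cnt w m * ∏ r, w r := by
  have := g1_fin' hw m
  rw [← g1_card, ← g1_prod]
  refine Nat.card_le_card_of_injective (fun y => (⟨fun r => y.1 r / w r,
    (sum_le_sum fun r _ => Nat.div_mul_le_self _ _).trans y.2⟩,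
    fun r => ⟨y.1 r % w r, Nat.mod_lt _ (hw r)⟩)) fun a b h => ?_
  ext r
  have h1 : a.1 r / w r = b.1 r / w r := congrFun (congrArg (fun z => z.1.1) h) r
  have h2 : a.1 r % w r = b.1 r % w r := congrArg (fun z => (z.2 r).1) h
  rw [← Nat.div_add_mod (a.1 r) (w r), h1, h2, Nat.div_add_mod]

theorem g1_up {κ : Type} [Fintype κ] {w : κ → ℕ} (hw : ∀ r, 0 < w r) (m : ℕ) :
    cnt w m * ∏ r, w r ≤ (m + ∑ r, w r + Fintype.card κ).choose (Fintype.card κ) := by
  have := g1_fin κ (m + ∑ r, w r)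
  rw [← g1_card, ← g1_prod]
  refine Nat.card_le_card_of_injective (fun z => ⟨fun r => z.1.1 r * w r + z.2 r, by
    rw [sum_add_distrib]
    exact add_le_add z.1.2 (sum_le_sum fun r _ => (z.2 r).2.le)⟩) fun a b h => ?_
  have h1 : ∀ r, a.1.1 r * w r + a.2 r = b.1.1 r * w r + b.2 r := fun r =>
    congrFun (congrArg Subtype.val h) r
  have h2 : ∀ r, (a.2 r : ℕ) = b.2 r := fun r => by
    have := congrArg (· % w r) (h1 r)
    simpa [Nat.mod_eq_of_lt (a.2 r).2, Nat.mod_eq_of_lt (b.2 r).2] using this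
  refine Prod.ext (Subtype.ext (funext fun r => ?_)) (funext fun r => Fin.ext (h2 r))
  have := h1 r
  rw [h2 r] at this
  exact Nat.eq_of_mul_eq_mul_right (hw r) (Nat.add_right_cancel this)

open Filter Topology in
theorem g1_lim (D c : ℕ) : Tendsto (fun m : ℕ => ((m + c).choose D : ℝ) / m ^ D) atTop
    (𝓝 ((D.factorial : ℝ)⁻¹)) := by
  have h1 : Tendsto (fun m : ℕ => ((m + c : ℕ) : ℝ) / m) atTop (𝓝 1) := by
    have h := (tendsto_const_div_atTop_nhds_zero_nat (c : ℝ)).const_add 1
    rw [add_zero] at h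
    refine h.congr' ((eventually_gt_atTop 0).mono fun m hm => ?_)
    have : (m : ℝ) ≠ 0 := by positivity
    simp only [Nat.cast_add]
    field_simp
  have h2 := ((isEquivalent_choose D).comp_tendsto (tendsto_add_atTop_nat c)).div
    (Asymptotics.IsEquivalent.refl (u := fun m : ℕ => (m : ℝ) ^ D))
  refine h2.symm.tendsto_nhds ?_
  have h3 := (h1.pow D).mul_const (D.factorial : ℝ)⁻¹
  rw [one_pow, one_mul] at h3
  refine h3.congr fun m => ?_
  simp only [Pi.div_apply, Function.comp_apply, div_pow]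
  ring

open Filter Topology in
theorem cnt_tendsto {κ : Type} [Fintype κ] {w : κ → ℕ} (hw : ∀ r, 0 < w r) :
    Tendsto (fun m : ℕ => (cnt w m : ℂ) / m ^ Fintype.card κ) atTop
      (𝓝 (((Fintype.card κ).factorial * ∏ r, (w r : ℂ))⁻¹)) := by
  have hP : (0 : ℝ) < ((∏ r, w r : ℕ) : ℝ) := Nat.cast_pos.2 (prod_pos fun r _ => hw r)
  have h1 : Tendsto (fun m : ℕ => ((cnt w m * ∏ r, w r : ℕ) : ℝ) / m ^ Fintype.card κ) atTop
      (𝓝 (((Fintype.card κ).factorial : ℝ)⁻¹)) :=
    tendsto_of_tendsto_of_tendsto_of_le_of_le (g1_lim _ (Fintype.card κ))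
      (g1_lim _ (∑ r, w r + Fintype.card κ))
      (fun m => div_le_div_of_nonneg_right (Nat.cast_le.2 (g1_low hw m)) (by positivity))
      fun m => div_le_div_of_nonneg_right
        (Nat.cast_le.2 ((g1_up hw m).trans_eq (by rw [add_assoc]))) (by positivity)
  have h2 := (Complex.continuous_ofReal.tendsto _).comp (h1.mul_const ((∏ r, w r : ℕ) : ℝ)⁻¹)
  have hP' : (∏ r, (w r : ℂ)) ≠ 0 := prod_ne_zero_iff.2 fun r _ => Nat.cast_ne_zero.2 (hw r).ne'
  convert h2 using 2
  · simp only [Function.comp_apply]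
    push_cast
    field_simp
  · push_cast
    rw [mul_inv]

end

end Pool.Agent.P.MP_5e2a31_al.L
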