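import Pool.Agent.P.MP_5e2a31_al.L.G1

/-! Package G2: Hilbert functions of dense subsets of coordinate subspaces. -/

namespace Pool.Agent.P.MP_5e2a31_al.L

open Matrix Finset
open scoped Classical

noncomputable section

variable {ι : Type} [Fintype ι] [DecidableEq ι] {n : ℕ}

omit [Fintype ι] [DecidableEq ι] in
theorem g2_sur {Y : Set (Matrix ι ι ℂ)} {b : ι → ℤ} {R : Finset (ι × ι)} (h : Coord Y b R)
    (c : R → ℂ) : ∃ x ∈ Y, ∀ r : R, x r.1.1 r.1.2 = c r := by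
  obtain ⟨x, hx, hc⟩ := h.sur fun r => if hr : r ∈ R then c ⟨r, hr⟩ else 0
  exact ⟨x, hx, fun r => by rw [hc r.1 r.2, dif_pos r.2]⟩

omit [DecidableEq ι] in
theorem Coord.finrank {Y : Submodule ℂ (Matrix ι ι ℂ)} {b : ι → ℤ} {R : Finset (ι × ι)}
    (h : Coord (Y : Set (Matrix ι ι ℂ)) b R) : Module.finrank ℂ Y = R.card := by
  let φ : Y →ₗ[ℂ] (R → ℂ) :=
    { toFun := fun x r => x.1 r.1.1 r.1.2
      map_add' := fun _ _ => rfl
      map_smul' := fun _ _ => rfl }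
  have hinj : Function.Injective φ := by
    rw [injective_iff_map_eq_zero]
    intro x hx
    ext p q
    rcases h.dep p q with h0 | ⟨r, hr, c, -, hc⟩
    · exact h0 x.1 x.2
    · have h1 : x.1 r.1 r.2 = 0 := congrFun hx ⟨r, hr⟩
      rw [hc x.1 x.2, h1, mul_zero]
      rfl
  have hsur : Function.Surjective φ := by
    intro c
    obtain ⟨x, hx, hc⟩ := g2_sur h c
    exact ⟨⟨x, hx⟩, funext hc⟩
  rw [(LinearEquiv.ofBijective φ ⟨hinj, hsur⟩).finrank_eq, Module.finrank_fintype_fun_eq_card,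
    Fintype.card_coe]

/-- the monomial in the entries at the positions in `R` -/
def g2mono (Z : Set (Matrix ι ι ℂ)) (R : Finset (ι × ι)) (k : R → ℕ) : Z → ℂ :=
  fun x => ∏ r : R, x.1 r.1.1 r.1.2 ^ k r

/-- the function is a multiple of a monomial of weight `d` -/
def g2G (Z : Set (Matrix ι ι ℂ)) (b : ι → ℤ) (R : Finset (ι × ι)) (f : Z → ℂ) (d : ℤ) : Prop :=
  f = 0 ∨ ∃ (c : ℂ) (k : R → ℕ), ∑ r : R, (k r : ℤ) * (b r.1.1 - b r.1.2) = d ∧
    f = c • g2mono Z R k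

omit [Fintype ι] [DecidableEq ι] in
theorem g2G_one (Z : Set (Matrix ι ι ℂ)) (b : ι → ℤ) (R : Finset (ι × ι)) : g2G Z b R 1 0 := by
  refine Or.inr ⟨1, 0, by simp, ?_⟩
  funext x
  simp [g2mono]

omit [Fintype ι] [DecidableEq ι] in
theorem g2G_mul {Z : Set (Matrix ι ι ℂ)} {b : ι → ℤ} {R : Finset (ι × ι)} {f g : Z → ℂ}
    {d e : ℤ} (hf : g2G Z b R f d) (hg : g2G Z b R g e) : g2G Z b R (f * g) (d + e) := by
  rcases hf with rfl | ⟨c, k, hk, rfl⟩
  · exact Or.inl (zero_mul _)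
  rcases hg with rfl | ⟨c', k', hk', rfl⟩
  · exact Or.inl (mul_zero _)
  refine Or.inr ⟨c * c', k + k', ?_, ?_⟩
  · rw [← hk, ← hk', ← sum_add_distrib]
    exact sum_congr rfl fun r _ => by simp only [Pi.add_apply]; push_cast; ring
  · funext x
    simp only [g2mono, Pi.mul_apply, Pi.smul_apply, smul_eq_mul, Pi.add_apply, pow_add,
      prod_mul_distrib]
    ring

omit [Fintype ι] [DecidableEq ι] in
theorem g2G_pow {Z : Set (Matrix ι ι ℂ)} {b : ι → ℤ} {R : Finset (ι × ι)} {f : Z → ℂ}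
    {d : ℤ} (hf : g2G Z b R f d) (j : ℕ) : g2G Z b R (f ^ j) (j * d) := by
  induction j with
  | zero => simpa using g2G_one Z b R
  | succ j ih =>
    have := g2G_mul ih hf
    rw [← pow_succ] at this
    have e : ((j + 1 : ℕ) : ℤ) * d = j * d + d := by push_cast; ring
    rwa [e]

omit [Fintype ι] [DecidableEq ι] in
theorem g2G_entry {Y Z : Set (Matrix ι ι ℂ)} {b : ι → ℤ} {R : Finset (ι × ι)} (h : Coord Y b R)
    (hZ : Z ⊆ Y) (p q : ι) : g2G Z b R (fun x => x.1 p q) (b p - b q) := by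
  rcases h.dep p q with h0 | ⟨r, hr, c, hb, hc⟩
  · exact Or.inl (funext fun x => h0 x.1 (hZ x.2))
  refine Or.inr ⟨c, Pi.single ⟨r, hr⟩ 1, ?_, ?_⟩
  · rw [sum_eq_single (⟨r, hr⟩ : R)]
    · simp [hb]
    · intro s _ hs
      simp [Pi.single_eq_of_ne hs]
    · intro hs
      exact absurd (mem_univ _) hs
  · funext x
    simp only [g2mono, Pi.smul_apply, smul_eq_mul]
    rw [hc x.1 (hZ x.2), prod_eq_single (⟨r, hr⟩ : R)]
    · simp
    · intro s _ hs
      simp [Pi.single_eq_of_ne hs]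
    · intro hs
      exact absurd (mem_univ _) hs

omit [Fintype ι] [DecidableEq ι] in
theorem g2G_prod {Y Z : Set (Matrix ι ι ℂ)} {b : ι → ℤ} {R : Finset (ι × ι)} (h : Coord Y b R)
    (hZ : Z ⊆ Y) (k : ι × ι → ℕ) (s : Finset (ι × ι)) :
    g2G Z b R (fun x => ∏ r ∈ s, x.1 r.1 r.2 ^ k r) (∑ r ∈ s, (k r : ℤ) * (b r.1 - b r.2)) := by
  induction s using Finset.induction_on with
  | empty => exact g2G_one Z b R
  | insert a s ha ih =>
    have := g2G_mul (g2G_pow (g2G_entry h hZ a.1 a.2) (k a)) ih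
    rw [sum_insert ha]
    have e : (fun x : Z => ∏ r ∈ insert a s, x.1 r.1 r.2 ^ k r) =
        (fun x : Z => x.1 a.1 a.2) ^ k a * fun x : Z => ∏ r ∈ s, x.1 r.1 r.2 ^ k r := by
      funext x
      rw [prod_insert ha]
      rfl
    rwa [e]

omit [DecidableEq ι] in
theorem g2_indep {Y Z : Set (Matrix ι ι ℂ)} {b : ι → ℤ} {R : Finset (ι × ι)} (h : Coord Y b R)
    (hZ : ZD Z Y) : LinearIndependent ℂ (g2mono Z R) := by
  let ev : MvPolynomial R ℂ →ₗ[ℂ] (Z → ℂ) :=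
    { toFun := fun f x => MvPolynomial.eval (fun r : R => x.1 r.1.1 r.1.2) f
      map_add' := fun f g => funext fun x => by simp
      map_smul' := fun c f => funext fun x => by simp }
  have hker : LinearMap.ker ev = ⊥ := by
    rw [LinearMap.ker_eq_bot']
    intro f hf
    apply MvPolynomial.funext
    intro c
    obtain ⟨x, hx, hc⟩ := g2_sur h c
    have h1 := hZ.2 (MvPolynomial.rename Subtype.val f) (fun z hz => by
      rw [MvPolynomial.eval_rename]
      exact congrFun hf ⟨z, hz⟩) x hx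
    rw [MvPolynomial.eval_rename] at h1
    have e : ((fun r : ι × ι => x r.1 r.2) ∘ Subtype.val : R → ℂ) = c := funext hc
    rw [e] at h1
    rw [h1, map_zero]
  have h2 := ((MvPolynomial.basisMonomials R ℂ).linearIndependent.comp
    (Finsupp.equivFunOnFinite.symm : (R → ℕ) → (R →₀ ℕ))
    Finsupp.equivFunOnFinite.symm.injective).map' ev hker
  have e : g2mono Z R = ev ∘ ((MvPolynomial.basisMonomials R ℂ) ∘
      (Finsupp.equivFunOnFinite.symm : (R → ℕ) → (R →₀ ℕ))) := by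
    funext k x
    change _ = MvPolynomial.eval _ (MvPolynomial.basisMonomials R ℂ _)
    rw [MvPolynomial.coe_basisMonomials, MvPolynomial.eval_monomial, one_mul,
      Finsupp.prod_fintype _ _ (fun _ => pow_zero _)]
    rfl
  rwa [e]

omit [Fintype ι] [DecidableEq ι] in
theorem g2_weight {Y : Set (Matrix ι ι ℂ)} {b : ι → ℤ} {R : Finset (ι × ι)} (h : Coord Y b R)
    (k : R → ℕ) : ((∑ r : R, k r * (b r.1.1 - b r.1.2).toNat : ℕ) : ℤ) =
      ∑ r : R, (k r : ℤ) * (b r.1.1 - b r.1.2) := by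
  push_cast
  refine sum_congr rfl fun r _ => ?_
  rw [Int.toNat_of_nonneg (sub_nonneg.2 (h.pos r.1 r.2).le)]

omit [Fintype ι] [DecidableEq ι] in
theorem g2_pos {Y : Set (Matrix ι ι ℂ)} {b : ι → ℤ} {R : Finset (ι × ι)} (h : Coord Y b R)
    (r : R) : 0 < (b r.1.1 - b r.1.2).toNat := by
  have := h.pos r.1 r.2
  omega

omit [DecidableEq ι] in
theorem hilb_eq {Y Z : Set (Matrix ι ι ℂ)} {b : ι → ℤ} {R : Finset (ι × ι)} (h : Coord Y b R)
    (hZ : ZD Z Y) (m : ℕ) : hilb b Z m = cnt (fun r : R => (b r.1.1 - b r.1.2).toNat) m := by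
  have hfin : {k : R → ℕ | ∑ r, k r * (b r.1.1 - b r.1.2).toNat ≤ m}.Finite := by
    refine (Set.finite_Iic (fun _ : R => m)).subset fun k hk r => ?_
    have h1 : k r * (b r.1.1 - b r.1.2).toNat ≤ ∑ r, k r * (b r.1.1 - b r.1.2).toNat :=
      single_le_sum (f := fun r : R => k r * (b r.1.1 - b r.1.2).toNat)
        (fun _ _ => Nat.zero_le _) (mem_univ r)
    exact (Nat.le_mul_of_pos_right _ (g2_pos h r)).trans (h1.trans hk)
  have : Finite {k : R → ℕ // ∑ r, k r * (b r.1.1 - b r.1.2).toNat ≤ m} := hfin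
  have := Fintype.ofFinite {k : R → ℕ // ∑ r, k r * (b r.1.1 - b r.1.2).toNat ≤ m}
  have hli := (g2_indep h hZ).comp
    (Subtype.val : {k : R → ℕ // ∑ r, k r * (b r.1.1 - b r.1.2).toNat ≤ m} → _)
    Subtype.val_injective
  unfold hilb cnt Set.finrank
  rw [Nat.card_eq_fintype_card, ← finrank_span_eq_card hli]
  refine congrArg (fun S : Submodule ℂ (Z → ℂ) => Module.finrank ℂ S) ?_
  apply le_antisymm
  · rw [Submodule.span_le]
    rintro f ⟨k, hk, rfl⟩
    rcases g2G_prod h hZ.1 k univ with h0 | ⟨c, k', hk', h1⟩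
    · rw [h0]
      exact Submodule.zero_mem _
    · rw [h1]
      refine Submodule.smul_mem _ c (Submodule.subset_span ⟨⟨k', ?_⟩, rfl⟩)
      have := g2_weight h k'
      omega
  · refine Submodule.span_mono ?_
    rintro f ⟨⟨k, hk⟩, rfl⟩
    refine ⟨fun r => if hr : r ∈ R then k ⟨r, hr⟩ else 0, ?_, ?_⟩
    · have h1 := g2_weight h k
      have h2 : ∑ r : ι × ι, ((if hr : r ∈ R then k ⟨r, hr⟩ else 0 : ℕ) : ℤ) * (b r.1 - b r.2) =
          ∑ r : R, (k r : ℤ) * (b r.1.1 - b r.1.2) := by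
        rw [← sum_subset (subset_univ R) (fun r _ hr => by simp [hr]), ← sum_coe_sort R]
        exact sum_congr rfl fun r _ => by rw [dif_pos r.2]
      rw [h2]
      omega
    · funext x
      change ∏ r : R, x.1 r.1.1 r.1.2 ^ k r = _
      rw [← prod_subset (subset_univ R) (fun r _ hr => by simp [hr]), ← prod_coe_sort R]
      exact prod_congr rfl fun r _ => by simp only [dif_pos r.2]

omit [Fintype ι] [DecidableEq ι] in
theorem g2_prod {Y : Set (Matrix ι ι ℂ)} {b : ι → ℤ} {R : Finset (ι × ι)} (h : Coord Y b R) :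
    ∏ r : R, (((b r.1.1 - b r.1.2).toNat : ℕ) : ℂ) = ∏ r ∈ R, ((b r.1 : ℂ) - b r.2) := by
  rw [← prod_coe_sort R]
  refine prod_congr rfl fun r _ => ?_
  have h1 : (((b r.1.1 - b r.1.2).toNat : ℕ) : ℤ) = b r.1.1 - b r.1.2 :=
    Int.toNat_of_nonneg (sub_nonneg.2 (h.pos r.1 r.2).le)
  rw [← Int.cast_sub, ← h1, Int.cast_natCast, h1]

open Filter Topology in
theorem growth {Y Y' Z : Set (Matrix ι ι ℂ)} {b : ι → ℤ} {R R' : Finset (ι × ι)}
    (h : Coord Y b R) (h' : Coord Y' b R') (hR : R' ⊆ R) (hZ : ZD Z Y') :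
    Tendsto (fun m : ℕ => (hilb b Z m : ℂ) / hilb b Y m * m ^ (R.card - R'.card)) atTop
      (𝓝 ((R.card.factorial : ℂ) / R'.card.factorial *
        ∏ r ∈ R \ R', ((b r.1 : ℂ) - b r.2))) := by
  have hY : ZD Y Y := ⟨subset_rfl, fun _ hf => hf⟩
  have hne : ∀ {Y : Set (Matrix ι ι ℂ)} {R : Finset (ι × ι)}, Coord Y b R →
      ∏ r ∈ R, ((b r.1 : ℂ) - b r.2) ≠ 0 := fun h => by
    rw [← g2_prod h]
    exact prod_ne_zero_iff.2 fun r _ => Nat.cast_ne_zero.2 (g2_pos h r).ne'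
  have T := cnt_tendsto (g2_pos h)
  have T' := cnt_tendsto (g2_pos h')
  rw [g2_prod h, Fintype.card_coe] at T
  rw [g2_prod h', Fintype.card_coe] at T'
  have hf : ∀ j : ℕ, (j.factorial : ℂ) ≠ 0 := fun j => Nat.cast_ne_zero.2 j.factorial_ne_zero
  have T2 := T'.div T (inv_ne_zero (mul_ne_zero (hf _) (hne h)))
  have e : ((R'.card.factorial : ℂ) * ∏ r ∈ R', ((b r.1 : ℂ) - b r.2))⁻¹ /
      ((R.card.factorial : ℂ) * ∏ r ∈ R, ((b r.1 : ℂ) - b r.2))⁻¹ =
      (R.card.factorial : ℂ) / R'.card.factorial * ∏ r ∈ R \ R', ((b r.1 : ℂ) - b r.2) := by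
    rw [← prod_sdiff hR]
    have h1 := hne h'
    have h2 := hf R'.card
    field_simp
  rw [e] at T2
  refine T2.congr' ?_
  filter_upwards [eventually_gt_atTop 0] with m hm
  have hm' : (m : ℂ) ≠ 0 := Nat.cast_ne_zero.2 hm.ne'
  rw [hilb_eq h' hZ, hilb_eq h hY, pow_sub₀ _ hm' (card_le_card hR), Pi.div_apply,
    div_div_div_eq, ← div_eq_mul_inv, div_mul_div_comm, mul_comm ((m : ℂ) ^ R'.card)]

end

end Pool.Agent.P.MP_5e2a31_al.L
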