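import Pool.Agent.P.MP_5e2a31_al.L.Base

/-! Package M1: pyramids. -/

namespace Pool.Agent.P.MP_5e2a31_al.L

open Matrix Finset
open scoped Classical

noncomputable section

variable {ι : Type} [Fintype ι] [DecidableEq ι] {n : ℕ}

omit [DecidableEq ι] in
theorem exists_t (l : ι → ℤ) : ∃ t : ι → ℕ, (∀ p q, l p = l q → t p = t q → p = q) ∧
    ∀ c s, (∃ p, l p = c ∧ t p = s) ↔ s < #{p | l p = c} := by
  let S : ℤ → Finset ι := fun c => {p | l p = c}
  have hS : ∀ c p, p ∈ S c ↔ l p = c := fun c p => by simp [S]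
  let f : ℤ → ι → ℕ := fun c p =>
    if h : l p = c then ((S c).equivFin ⟨p, (hS c p).2 h⟩ : ℕ) else 0
  have hf : ∀ c p (h : l p = c), f c p = ((S c).equivFin ⟨p, (hS c p).2 h⟩ : ℕ) :=
    fun c p h => dif_pos h
  refine ⟨fun p => f (l p) p, fun p q h1 h2 => ?_, fun c s => ⟨?_, fun h => ?_⟩⟩
  · have h3 : f (l q) p = f (l q) q := by
      have : f (l p) p = f (l q) q := h2
      rwa [h1] at this
    rw [hf _ _ h1, hf _ _ rfl] at h3
    have h4 := (S (l q)).equivFin.injective (Fin.ext h3)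
    exact congrArg Subtype.val h4
  · rintro ⟨p, h1, h2⟩
    have h3 : f c p = s := by
      have : f (l p) p = s := h2
      rwa [h1] at this
    rw [hf _ _ h1] at h3
    rw [← h3]
    exact Fin.isLt _
  · obtain ⟨⟨p, hp⟩, h1⟩ := (S c).equivFin.surjective ⟨s, h⟩
    have h2 : l p = c := (hS c p).1 hp
    refine ⟨p, h2, ?_⟩
    change f (l p) p = s
    rw [h2, hf _ _ h2]
    exact congrArg Fin.val h1

omit [Fintype ι] [DecidableEq ι] in
theorem Pyr.e_mem {μ : ℤ → ℕ} (Y : Pyr ι μ) : Y.e ∈ Fil Y.l 2 := fun p q h => by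
  rw [Pyr.e, of_apply, if_neg]
  rintro ⟨h1, -⟩
  omega

omit [Fintype ι] [DecidableEq ι] in
theorem m1_lt {μ : ℤ → ℕ} (Y : Pyr ι μ) (p : ι) : Y.t p < μ (Y.l p) :=
  (Y.sur _ _).1 ⟨p, rfl, rfl⟩

omit [DecidableEq ι] in
theorem m1_mul_e {μ : ℤ → ℕ} (Y : Pyr ι μ) (y : Matrix ι ι ℂ) (p : ι) {q r : ι}
    (h1 : Y.l r = Y.l q + 2) (h2 : Y.t r = Y.t q) : (y * Y.e) p q = y p r := by
  rw [Matrix.mul_apply, Finset.sum_eq_single r]
  · rw [Pyr.e, of_apply, if_pos ⟨h1, h2⟩, mul_one]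
  · intro s _ hs
    rw [Pyr.e, of_apply, if_neg, mul_zero]
    rintro ⟨h3, h4⟩
    exact hs (Y.inj _ _ (by omega) (by omega))
  · simp

omit [DecidableEq ι] in
theorem m1_mul_e0 {μ : ℤ → ℕ} (Y : Pyr ι μ) (y : Matrix ι ι ℂ) (p : ι) {q : ι}
    (h : ¬∃ r, Y.l r = Y.l q + 2 ∧ Y.t r = Y.t q) : (y * Y.e) p q = 0 := by
  rw [Matrix.mul_apply]
  refine Finset.sum_eq_zero fun s _ => ?_
  rw [Pyr.e, of_apply, if_neg, mul_zero]
  exact fun h' => h ⟨s, h'⟩

omit [DecidableEq ι] in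
theorem m1_e_mul {μ : ℤ → ℕ} (Y : Pyr ι μ) (y : Matrix ι ι ℂ) (q : ι) {p r : ι}
    (h1 : Y.l p = Y.l r + 2) (h2 : Y.t p = Y.t r) : (Y.e * y) p q = y r q := by
  rw [Matrix.mul_apply, Finset.sum_eq_single r]
  · rw [Pyr.e, of_apply, if_pos ⟨h1, h2⟩, one_mul]
  · intro s _ hs
    rw [Pyr.e, of_apply, if_neg, zero_mul]
    rintro ⟨h3, h4⟩
    exact hs (Y.inj _ _ (by omega) (by omega))
  · simp

omit [DecidableEq ι] in
theorem m1_e_mul0 {μ : ℤ → ℕ} (Y : Pyr ι μ) (y : Matrix ι ι ℂ) (q : ι) {p : ι}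
    (h : ¬∃ r, Y.l p = Y.l r + 2 ∧ Y.t p = Y.t r) : (Y.e * y) p q = 0 := by
  rw [Matrix.mul_apply]
  refine Finset.sum_eq_zero fun s _ => ?_
  rw [Pyr.e, of_apply, if_neg, zero_mul]
  exact fun h' => h ⟨s, h'⟩

omit [DecidableEq ι] in
theorem Pyr.good {μ : ℤ → ℕ} (Y : Pyr ι μ) {y : Matrix ι ι ℂ}
    (h : y * Y.e - Y.e * y ∈ Fil Y.l 1) : y ∈ Fil Y.l 0 := by
  have hc : ∀ p q, Y.l p ≤ Y.l q → (y * Y.e) p q = (Y.e * y) p q := fun p q hpq => by
    have := h p q (by omega)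
    rwa [Matrix.sub_apply, sub_eq_zero] at this
  have hgap : ∀ p q, Y.l p < Y.l q → Y.l p + 2 ≤ Y.l q := fun p q hpq => by
    obtain ⟨k, hk⟩ := Y.par p q
    omega
  intro p q hpq
  by_contra hne
  rcases le_total (Y.t p) (Y.t q) with ht | ht
  · obtain ⟨⟨p, q⟩, hm, hmax⟩ := Finset.exists_max_image
      ({r : ι × ι | Y.l r.1 < Y.l r.2 ∧ Y.t r.1 ≤ Y.t r.2 ∧ y r.1 r.2 ≠ 0} : Finset (ι × ι))
      (fun r => Y.l r.2) ⟨(p, q), by simpa using ⟨by omega, ht, hne⟩⟩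
    simp only [mem_filter, mem_univ, true_and] at hm hmax
    obtain ⟨h1, h2, h3⟩ := hm
    have h4 := hgap p q h1
    have h5 := Y.itv (Y.l p) (Y.l q) (Y.l p + 2) (by omega) h4 ⟨1, by ring⟩
    have h6 := m1_lt Y p
    have h7 := m1_lt Y q
    obtain ⟨p', hp1, hp2⟩ := (Y.sur (Y.l p + 2) (Y.t p)).2 (by omega)
    have h8 := hc p' q (by omega)
    rw [m1_e_mul Y y q hp1 hp2] at h8
    by_cases hq : ∃ r, Y.l r = Y.l q + 2 ∧ Y.t r = Y.t q
    · obtain ⟨q', hq1, hq2⟩ := hq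
      rw [m1_mul_e Y y p' hq1 hq2] at h8
      have := hmax (p', q') ⟨by dsimp only; omega, by dsimp only; omega, by
        dsimp only; rw [h8]; exact h3⟩
      dsimp only at this
      omega
    · rw [m1_mul_e0 Y y p' hq] at h8
      exact h3 h8.symm
  · obtain ⟨⟨p, q⟩, hm, hmin⟩ := Finset.exists_min_image
      ({r : ι × ι | Y.l r.1 < Y.l r.2 ∧ Y.t r.2 ≤ Y.t r.1 ∧ y r.1 r.2 ≠ 0} : Finset (ι × ι))
      (fun r => Y.l r.1) ⟨(p, q), by simpa using ⟨by omega, ht, hne⟩⟩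
    simp only [mem_filter, mem_univ, true_and] at hm hmin
    obtain ⟨h1, h2, h3⟩ := hm
    have h4 := hgap p q h1
    obtain ⟨k, hk⟩ := Y.par p q
    have h5 := Y.itv (Y.l p) (Y.l q) (Y.l q - 2) (by omega) (by omega) ⟨-k - 1, by omega⟩
    have h6 := m1_lt Y p
    have h7 := m1_lt Y q
    obtain ⟨q', hq1, hq2⟩ := (Y.sur (Y.l q - 2) (Y.t q)).2 (by omega)
    have h8 := hc p q' (by omega)
    rw [m1_mul_e Y y p (r := q) (by omega) hq2.symm] at h8
    by_cases hp : ∃ r, Y.l p = Y.l r + 2 ∧ Y.t p = Y.t r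
    · obtain ⟨p', hp1, hp2⟩ := hp
      rw [m1_e_mul Y y q' hp1 hp2] at h8
      have := hmin (p', q') ⟨by dsimp only; omega, by dsimp only; omega, by
        dsimp only; rw [← h8]; exact h3⟩
      dsimp only at this
      omega
    · rw [m1_e_mul0 Y y q' hp] at h8
      exact h3 h8

theorem m1_rank_diag (P : ι → Prop) [DecidablePred P] :
    (diagonal fun p => if P p then (1 : ℂ) else 0).rank = #{p | P p} := by
  rw [Matrix.rank_diagonal, Fintype.card_subtype]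
  congr 1
  ext p
  by_cases h : P p <;> simp [h]

omit [DecidableEq ι] in
theorem m1_rank_add (A B : Matrix ι ι ℂ) : (A + B).rank ≤ A.rank + B.rank := by
  unfold Matrix.rank
  refine le_trans (Submodule.finrank_mono ?_) (Submodule.finrank_add_le_finrank_add_finrank _ _)
  rintro _ ⟨v, rfl⟩
  rw [Matrix.mulVecLin_add, LinearMap.add_apply]
  exact Submodule.add_mem_sup ⟨v, rfl⟩ ⟨v, rfl⟩

theorem rank_le {l : ι → ℤ} {x : Matrix ι ι ℂ} (hx : x ∈ Fil l 2) (i : ℕ) (w : ℤ) :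
    (x ^ i).rank ≤ #{p | l p < w} + #{p | w + 2 * i ≤ l p} := by
  have h := Fil_pow hx i
  have e : x ^ i = x ^ i * (diagonal fun p => if l p < w then (1 : ℂ) else 0) +
      (diagonal fun p => if w + 2 * i ≤ l p then (1 : ℂ) else 0) *
        (x ^ i * diagonal fun p => if l p < w then (0 : ℂ) else 1) := by
    ext p q
    rw [Matrix.add_apply, Matrix.mul_diagonal, Matrix.diagonal_mul, Matrix.mul_diagonal]
    by_cases h1 : l q < w
    · simp [h1]
    · by_cases h2 : w + 2 * i ≤ l p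
      · simp [h1, h2]
      · simp [h1, h2, h p q (by omega)]
  rw [e, ← m1_rank_diag, ← m1_rank_diag]
  exact (m1_rank_add _ _).trans
    (add_le_add (Matrix.rank_mul_le_right _ _) (Matrix.rank_mul_le_left _ _))

theorem m1_pow {μ : ℤ → ℕ} (Y : Pyr ι μ) (i : ℕ) (p q : ι) :
    (Y.e ^ i) p q = if Y.l p = Y.l q + 2 * i ∧ Y.t p = Y.t q then 1 else 0 := by
  induction i generalizing q with
  | zero =>
    rw [pow_zero, Matrix.one_apply]
    by_cases h : p = q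
    · subst h
      simp
    · rw [if_neg h, if_neg]
      rintro ⟨h1, h2⟩
      exact h (Y.inj _ _ (by simpa using h1) h2)
  | succ i ih =>
    rw [pow_succ]
    by_cases hq : ∃ r, Y.l r = Y.l q + 2 ∧ Y.t r = Y.t q
    · obtain ⟨r, h1, h2⟩ := hq
      rw [m1_mul_e Y _ p h1 h2, ih]
      refine if_congr ?_ rfl rfl
      push_cast
      omega
    · rw [m1_mul_e0 Y _ p hq, if_neg]
      rintro ⟨h1, h2⟩
      push_cast at h1
      have h5 := Y.itv (Y.l q) (Y.l p) (Y.l q + 2) (by omega) (by omega) ⟨1, by ring⟩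
      have h6 := m1_lt Y p
      have h7 := m1_lt Y q
      exact hq ((Y.sur (Y.l q + 2) (Y.t q)).2 (by omega))

theorem Pyr.le_rank {μ : ℤ → ℕ} (Y : Pyr ι μ) (i : ℕ) (w : ℤ)
    (h1 : ∀ c, c < w → μ c ≤ μ (c + 2 * i)) (h2 : ∀ c, w + 2 * i ≤ c → μ c ≤ μ (c - 2 * i)) :
    #{p | Y.l p < w} + #{p | w + 2 * i ≤ Y.l p} ≤ (Y.e ^ i).rank := by
  have e : Y.e ^ i * (Y.e ^ i)ᵀ =
      diagonal fun p => if ∃ q, Y.l p = Y.l q + 2 * i ∧ Y.t p = Y.t q then (1 : ℂ) else 0 := by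
    ext p p'
    rw [Matrix.mul_apply, Matrix.diagonal_apply]
    simp only [transpose_apply, m1_pow]
    by_cases hp : ∃ q, Y.l p = Y.l q + 2 * i ∧ Y.t p = Y.t q
    · rw [if_pos hp]
      obtain ⟨q, hq⟩ := hp
      rw [Finset.sum_eq_single q]
      · rw [if_pos hq, one_mul]
        by_cases h : p = p'
        · subst h
          rw [if_pos hq, if_pos rfl]
        · rw [if_neg h, if_neg]
          rintro ⟨h3, h4⟩
          exact h (Y.inj _ _ (by omega) (by omega))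
      · intro s _ hs
        rw [if_neg, zero_mul]
        rintro ⟨h3, h4⟩
        exact hs (Y.inj _ _ (by omega) (by omega))
      · simp
    · rw [if_neg hp, ite_self]
      refine Finset.sum_eq_zero fun s _ => ?_
      rw [if_neg, zero_mul]
      exact fun h => hp ⟨s, h⟩
  have hr := Matrix.rank_mul_le_left (Y.e ^ i) (Y.e ^ i)ᵀ
  rw [e, m1_rank_diag] at hr
  refine le_trans ?_ hr
  have hf : ∀ q, ∃ p, Y.l q < w → Y.l p = Y.l q + 2 * i ∧ Y.t p = Y.t q := fun q => by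
    by_cases h : Y.l q < w
    · obtain ⟨p, hp⟩ := (Y.sur (Y.l q + 2 * i) (Y.t q)).2 ((m1_lt Y q).trans_le (h1 _ h))
      exact ⟨p, fun _ => hp⟩
    · exact ⟨q, fun h' => absurd h' h⟩
  choose f hf using hf
  have hinj : Set.InjOn f ({p | Y.l p < w} : Finset ι) := fun a ha b hb hab => by
    have ha' : Y.l a < w := by simpa using ha
    have hb' : Y.l b < w := by simpa using hb
    have h3 := hf a ha'
    have h4 := hf b hb'
    rw [hab] at h3
    exact Y.inj _ _ (by omega) (by omega)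
  rw [← Finset.card_image_of_injOn hinj, ← Finset.card_union_of_disjoint]
  · refine Finset.card_le_card fun p hp => ?_
    rw [mem_filter]
    refine ⟨mem_univ _, ?_⟩
    rcases Finset.mem_union.1 hp with hp | hp
    · obtain ⟨q, hq, rfl⟩ := Finset.mem_image.1 hp
      exact ⟨q, hf q (by simpa using hq)⟩
    · have hp' : w + 2 * i ≤ Y.l p := by simpa using hp
      obtain ⟨q, hq1, hq2⟩ := (Y.sur (Y.l p - 2 * i) (Y.t p)).2 ((m1_lt Y p).trans_le (h2 _ hp'))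
      exact ⟨q, by omega, hq2.symm⟩
  · rw [Finset.disjoint_left]
    intro p hp hp2
    obtain ⟨q, hq, rfl⟩ := Finset.mem_image.1 hp
    have hq' : Y.l q < w := by simpa using hq
    have h3 := hf q hq'
    have h4 : w + 2 * i ≤ Y.l (f q) := by simpa using hp2
    omega

end

end Pool.Agent.P.MP_5e2a31_al.L
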