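import Pool.Agent.P.MP_5e2a31_al.L.Base

/-! Package R3: the dimension of the orbit. -/

namespace Pool.Agent.P.MP_5e2a31_al.L

open Matrix Finset
open scoped Classical

noncomputable section

variable {ι : Type} [Fintype ι] [DecidableEq ι] {n : ℕ}

theorem r3_trace_single (x : Matrix ι ι ℂ) (p q : ι) :
    (x * Matrix.single q p (1 : ℂ)).trace = x p q := by
  rw [trace_mul_single]
  simp

/-- the trace form on a subspace -/
def r3_B (g : Submodule ℂ (Matrix ι ι ℂ)) : LinearMap.BilinForm ℂ g :=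
  LinearMap.mk₂ ℂ (fun x y => (x.1 * y.1).trace)
    (fun x x' y => by simp only [Submodule.coe_add, add_mul, trace_add])
    (fun c x y => by simp only [Submodule.coe_smul, smul_mul_assoc, trace_smul])
    (fun x y y' => by simp only [Submodule.coe_add, mul_add, trace_add])
    (fun c x y => by simp only [Submodule.coe_smul, mul_smul_comm, trace_smul])

theorem r3_B_apply (g : Submodule ℂ (Matrix ι ι ℂ)) (x y : g) :
    r3_B g x y = (x.1 * y.1).trace := rfl

/-- the bracket with `e` -/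
def r3_ad (e : Matrix ι ι ℂ) : Matrix ι ι ℂ →ₗ[ℂ] Matrix ι ι ℂ where
  toFun x := x * e - e * x
  map_add' x y := by rw [add_mul, mul_add]; abel
  map_smul' c x := by rw [smul_mul_assoc, mul_smul_comm, smul_sub]; rfl

theorem r3_finrank (g : Submodule ℂ (Matrix ι ι ℂ)) (e : Matrix ι ι ℂ) :
    Set.finrank ℂ ((fun x => x * e - e * x) '' (g : Set (Matrix ι ι ℂ))) =
      Module.finrank ℂ (g.map (r3_ad e)) := by
  have : ((fun x => x * e - e * x) '' (g : Set (Matrix ι ι ℂ))) =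
      (g.map (r3_ad e) : Set (Matrix ι ι ℂ)) := rfl
  rw [this, Set.finrank, Submodule.span_eq]

theorem rank_ad {l : ι → ℤ} {g : Submodule ℂ (Matrix ι ι ℂ)} {e : Matrix ι ι ℂ}
    (he : e ∈ Fil l 1) (hb : ∀ x ∈ g, x * e - e * x ∈ g)
    (hπ : ∀ y, ∃ y' ∈ g, (y ∈ Fil l 0 → y' ∈ Fil l 0) ∧
      ∀ x ∈ g, (x * y').trace = (x * y).trace)
    (hg : ∀ y, y * e - e * y ∈ Fil l 1 → y ∈ Fil l 0) :
    Set.finrank ℂ ((fun x => x * e - e * x) '' (g : Set (Matrix ι ι ℂ))) =
      2 * Module.finrank ℂ (g ⊓ Fil l 1 : Submodule ℂ (Matrix ι ι ℂ)) := by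
  have hsym : ∀ x y : g, r3_B g x y = r3_B g y x := fun x y => by
    rw [r3_B_apply, r3_B_apply, trace_mul_comm]
  have hleft : ∀ x : g, (∀ y, r3_B g x y = 0) → x = 0 := fun x hx => by
    refine Subtype.ext (Matrix.ext fun p q => ?_)
    obtain ⟨y', hy', -, h2⟩ := hπ (Matrix.single q p 1)
    have h3 := hx ⟨y', hy'⟩
    rw [r3_B_apply, h2 x.1 x.2, r3_trace_single] at h3
    exact h3
  have hB : (r3_B g).Nondegenerate :=
    ⟨hleft, fun x hx => hleft x fun y => by rw [hsym]; exact hx y⟩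
  set P : Submodule ℂ g := (Fil l 0).comap g.subtype with hP
  set U : Submodule ℂ g := (Fil l 1).comap g.subtype with hU
  have hPU : (r3_B g).orthogonal P = U := by
    ext x
    rw [LinearMap.BilinForm.mem_orthogonal_iff]
    constructor
    · intro hx
      refine fun p q hpq => ?_
      obtain ⟨y', hy', h1, h2⟩ := hπ (Matrix.single q p 1)
      have h0 : Matrix.single q p (1 : ℂ) ∈ Fil l 0 := fun a b hab => by
        rw [Matrix.single_apply, if_neg]
        rintro ⟨rfl, rfl⟩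
        omega
      have h3 := hx ⟨y', hy'⟩ (h1 h0)
      rw [hsym, r3_B_apply, h2 x.1 x.2, r3_trace_single] at h3
      exact h3
    · intro hx y hy
      rw [r3_B_apply]
      exact trace_Fil (l := l) (by simpa using Fil_mul (a := 0) (b := 1) hy hx)
  let A : g →ₗ[ℂ] g := (r3_ad e).restrict hb
  have hA : ∀ x : g, (A x).1 = x.1 * e - e * x.1 := fun x => rfl
  have hcP : LinearMap.ker A ≤ P := fun x hx => by
    have h1 : x.1 * e - e * x.1 = 0 := by
      rw [← hA, LinearMap.mem_ker.1 hx]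
      rfl
    exact hg x.1 (by rw [h1]; exact zero_mem _)
  have hr : LinearMap.range A ≤ (r3_B g).orthogonal (LinearMap.ker A) := by
    rintro _ ⟨x, rfl⟩ z hz
    have h1 : z.1 * e - e * z.1 = 0 := by
      rw [← hA, LinearMap.mem_ker.1 hz]
      rfl
    rw [sub_eq_zero] at h1
    change r3_B g z (A x) = 0
    rw [r3_B_apply, hA, mul_sub, trace_sub, ← mul_assoc, ← mul_assoc, trace_mul_comm (z.1 * x.1),
      ← mul_assoc, h1, sub_self]
  have hrk := LinearMap.finrank_range_add_finrank_ker A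
  have ho1 := LinearMap.BilinForm.finrank_orthogonal hB (LinearMap.ker A)
  have ho2 := LinearMap.BilinForm.finrank_orthogonal hB P
  have hre : LinearMap.range A = (r3_B g).orthogonal (LinearMap.ker A) :=
    Submodule.eq_of_le_of_finrank_eq hr (by omega)
  have hUr : U ≤ LinearMap.range A := by
    rw [hre, ← hPU]
    exact LinearMap.BilinForm.orthogonal_le hcP
  have hcomap : U.comap A = P := by
    ext x
    constructor
    · intro hx
      exact hg x.1 hx
    · intro hx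
      have h1 : x.1 * e ∈ Fil l 1 := by simpa using Fil_mul (a := 0) (b := 1) hx he
      have h2 : e * x.1 ∈ Fil l 1 := by simpa using Fil_mul (a := 1) (b := 0) he hx
      exact sub_mem h1 h2
  have hrk2 := LinearMap.finrank_range_add_finrank_ker (K := ℂ) (V := P) (V₂ := g)
    (A.domRestrict P)
  have e1 : LinearMap.range (A.domRestrict P) = U := by
    rw [LinearMap.range_domRestrict, ← hcomap, Submodule.map_comap_eq, inf_eq_right.2 hUr]
  have e2 : Module.finrank ℂ (LinearMap.ker (A.domRestrict P)) =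
      Module.finrank ℂ (LinearMap.ker A) := by
    rw [LinearMap.ker_domRestrict]
    exact (Submodule.comapSubtypeEquivOfLe hcP).finrank_eq
  have e3 : Module.finrank ℂ (g ⊓ Fil l 1 : Submodule ℂ (Matrix ι ι ℂ)) = Module.finrank ℂ U := by
    rw [← Submodule.map_comap_subtype, Submodule.finrank_map_subtype_eq]
  have e4 : Module.finrank ℂ (g.map (r3_ad e)) = Module.finrank ℂ (LinearMap.range A) := by
    rw [← Submodule.finrank_map_subtype_eq g (LinearMap.range A)]
    suffices hs : g.map (r3_ad e) = (LinearMap.range A).map g.subtype by rw [hs]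
    ext y
    constructor
    · rintro ⟨x, hx, rfl⟩
      exact ⟨A ⟨x, hx⟩, ⟨_, rfl⟩, rfl⟩
    · rintro ⟨_, ⟨x, rfl⟩, rfl⟩
      exact ⟨x.1, x.2, rfl⟩
  have hle := Submodule.finrank_le P
  rw [hPU] at ho2
  rw [e1, e2] at hrk2
  rw [r3_finrank, e3, e4]
  omega

/-- conjugation -/
def r3_conj (u v : Matrix ι ι ℂ) (h1 : u * v = 1) (h2 : v * u = 1) :
    Matrix ι ι ℂ ≃ₗ[ℂ] Matrix ι ι ℂ where
  toFun y := u * y * v
  invFun y := v * y * u
  map_add' x y := by rw [mul_add, add_mul]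
  map_smul' c x := by rw [mul_smul_comm, smul_mul_assoc]; rfl
  left_inv y := by
    change v * (u * y * v) * u = y
    rw [← mul_assoc, ← mul_assoc, h2, one_mul, mul_assoc, h2, mul_one]
  right_inv y := by
    change u * (v * y * u) * v = y
    rw [← mul_assoc, ← mul_assoc, h1, one_mul, mul_assoc, h1, mul_one]

theorem r3_lie_conj {J u v y : Matrix ι ι ℂ} (h2 : v * u = 1) (hu : uᵀ * J * u = J)
    (hv : vᵀ * J * v = J) (hy : y ∈ lie J) : u * y * v ∈ lie J := by
  have h1 : u * v = 1 := mul_eq_one_comm.1 h2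
  refine ⟨by rw [trace_mul_comm, ← mul_assoc, h2, one_mul, hy.1], ?_⟩
  have e1 : uᵀ * J = J * v := by
    conv_rhs => rw [← hu]
    rw [mul_assoc, h1, mul_one]
  have e2 : vᵀ * J = J * u := by
    conv_rhs => rw [← hv]
    rw [mul_assoc, h2, mul_one]
  rw [transpose_mul, transpose_mul, mul_assoc, mul_assoc, e1, ← mul_assoc yᵀ, hy.2, neg_mul,
    mul_neg, ← mul_assoc, ← mul_assoc, e2]
  simp only [mul_assoc]

theorem rank_ad_orbit {J e x : Matrix ι ι ℂ} (h : x ∈ orbit J e) :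
    Set.finrank ℂ ((fun y => y * e - e * y) '' lie J) =
      Set.finrank ℂ ((fun y => y * x - x * y) '' lie J) := by
  obtain ⟨u, hd, hu, hx⟩ := h
  have hun : IsUnit u.det := by rw [hd]; exact isUnit_one
  have h1 : u * u⁻¹ = 1 := mul_nonsing_inv _ hun
  have h2 : u⁻¹ * u = 1 := nonsing_inv_mul _ hun
  have hv : (u⁻¹)ᵀ * J * u⁻¹ = J := by
    conv_lhs => rw [← hu]
    rw [← mul_assoc, ← mul_assoc, ← transpose_mul, h1, transpose_one, one_mul, mul_assoc, h1,
      mul_one]
  have hx' : e * u⁻¹ = u⁻¹ * x := by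
    calc e * u⁻¹ = u⁻¹ * (u * e) * u⁻¹ := by rw [← mul_assoc, h2, one_mul]
      _ = u⁻¹ * x := by rw [hx, mul_assoc, mul_assoc, h1, mul_one]
  have key : ∀ y : Matrix ι ι ℂ, u * (y * e - e * y) * u⁻¹ =
      u * y * u⁻¹ * x - x * (u * y * u⁻¹) := fun y => by
    rw [mul_sub, sub_mul, mul_assoc (u * y), ← hx', ← mul_assoc u e, hx]
    simp only [mul_assoc]
  have e1 := r3_finrank (lieS J) e
  have e2 := r3_finrank (lieS J) x
  change Set.finrank ℂ ((fun y => y * e - e * y) '' lie J) = _ at e1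
  change Set.finrank ℂ ((fun y => y * x - x * y) '' lie J) = _ at e2
  rw [e1, e2, ← LinearEquiv.finrank_map_eq (r3_conj u u⁻¹ h1 h2)]
  suffices hs : ((lieS J).map (r3_ad e)).map
      (r3_conj u u⁻¹ h1 h2 : Matrix ι ι ℂ →ₗ[ℂ] Matrix ι ι ℂ) = (lieS J).map (r3_ad x) by rw [hs]
  ext z
  constructor
  · rintro ⟨_, ⟨y, hy, rfl⟩, rfl⟩
    exact ⟨u * y * u⁻¹, r3_lie_conj h2 hu hv hy, (key y).symm⟩
  · rintro ⟨y, hy, rfl⟩
    refine ⟨_, ⟨u⁻¹ * y * u, r3_lie_conj h1 hv hu hy, rfl⟩, ?_⟩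
    have e3 : u * (u⁻¹ * y * u) * u⁻¹ = y := (r3_conj u u⁻¹ h1 h2).right_inv y
    have e4 := key (u⁻¹ * y * u)
    rw [e3] at e4
    exact e4

theorem proj_zero (l : ι → ℤ) (y : Matrix ι ι ℂ) : ∃ y' ∈ lieS (0 : Matrix ι ι ℂ),
    (y ∈ Fil l 0 → y' ∈ Fil l 0) ∧
      ∀ x ∈ lieS (0 : Matrix ι ι ℂ), (x * y').trace = (x * y).trace := by
  refine ⟨y - (y.trace / Fintype.card ι) • (1 : Matrix ι ι ℂ), ⟨?_, by simp⟩, fun hy => ?_,
    fun x hx => ?_⟩
  · rw [trace_sub, trace_smul, trace_one, smul_eq_mul]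
    rcases isEmpty_or_nonempty ι with hι | hι
    · simp [Matrix.trace]
    · have : (Fintype.card ι : ℂ) ≠ 0 := Nat.cast_ne_zero.2 Fintype.card_ne_zero
      field_simp
      ring
  · exact sub_mem hy (Submodule.smul_mem _ _ (one_mem_Fil l))
  · have h0 : x.trace = 0 := hx.1
    rw [mul_sub, trace_sub, mul_smul_comm, mul_one, trace_smul, h0, smul_zero, sub_zero]

theorem proj_form {J : Matrix ι ι ℂ} (F : Form J) {l : ι → ℤ} (hl : ∀ p, l (F.bar p) = -l p)
    (y : Matrix ι ι ℂ) : ∃ y' ∈ lieS J, (y ∈ Fil l 0 → y' ∈ Fil l 0) ∧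
      ∀ x ∈ lieS J, (x * y').trace = (x * y).trace := by
  have hε : F.ε * F.ε = 1 := by rcases F.hε with h | h <;> rw [h] <;> norm_num
  have hJJ : J = F.ε • Jᵀ := by rw [F.symm, smul_smul, hε, one_smul]
  have hi : F.invᵀ * J = F.ε • (1 : Matrix ι ι ℂ) := by
    calc F.invᵀ * J = F.invᵀ * (F.ε • Jᵀ) := congrArg (fun z => F.invᵀ * z) hJJ
      _ = F.ε • (1 : Matrix ι ι ℂ) := by
        rw [mul_smul_comm, ← transpose_mul, F.mul_inv, transpose_one]
  have hsk : ((1 / 2 : ℂ) • (y - F.inv * yᵀ * J))ᵀ * J =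
      -(J * ((1 / 2 : ℂ) • (y - F.inv * yᵀ * J))) := by
    rw [transpose_smul, smul_mul_assoc, mul_smul_comm, ← smul_neg, transpose_sub, transpose_mul,
      transpose_mul, transpose_transpose, sub_mul, mul_assoc, mul_assoc, hi, F.symm, mul_sub,
      ← mul_assoc J, ← mul_assoc J, F.mul_inv, one_mul, mul_smul_comm, mul_one, smul_mul_assoc,
      mul_smul_comm, smul_smul, hε, one_smul, neg_sub]
  refine ⟨(1 / 2 : ℂ) • (y - F.inv * yᵀ * J), ⟨trace_of_skew F.isUnit hsk, hsk⟩, fun hy => ?_,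
    fun x hx => ?_⟩
  · refine Submodule.smul_mem _ _ (sub_mem hy fun p q hpq => ?_)
    rw [F.mul_J, Matrix.mul_apply, Finset.sum_eq_zero, zero_mul]
    intro r _
    by_cases hr : r = F.bar p
    · rw [transpose_apply, hy (F.bar q) r (by rw [hr, hl, hl]; omega), mul_zero]
    · rw [Form.inv, of_apply, if_neg hr, zero_mul]
  · have h1 : J * x * F.inv = -xᵀ := by
      have h2 : J * x = -(xᵀ * J) := by rw [hx.2, neg_neg]
      rw [h2, neg_mul, mul_assoc, F.mul_inv, mul_one]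
    have h3 : (x * (F.inv * yᵀ * J)).trace = -(x * y).trace := by
      rw [← mul_assoc, trace_mul_comm, ← mul_assoc, ← mul_assoc, h1, neg_mul, trace_neg,
        ← transpose_mul, trace_transpose, trace_mul_comm]
    rw [mul_smul_comm, trace_smul, mul_sub, trace_sub, h3, smul_eq_mul]
    ring

end

end Pool.Agent.P.MP_5e2a31_al.L
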