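import Pool.Agent.P.MP_5e2a31_al.L.WBase

/-! Package V: blocks, positions, products of Vandermonde determinants. -/

namespace Pool.Agent.P.MP_5e2a31_al.L

open Finset Equiv SemidirectProduct Pool.Agent.P.MP_1a0ecf_al
open scoped Classical

noncomputable section

variable {n : ℕ}

theorem exists_mono (m : ℕ → ℕ) (S : ℕ) (h : ∑ c ∈ range S, m c = n) :
    ∃ lv : Fin n → ℕ, Monotone lv ∧ ∀ c, #{i | lv i = c} = if c < S then m c else 0 := by
  induction S generalizing n with
  | zero =>
    obtain rfl : n = 0 := by simpa using h.symm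
    exact ⟨fun _ => 0, monotone_const, fun c => by simp⟩
  | succ S ih =>
    rw [sum_range_succ] at h
    obtain ⟨lv, h1, h2⟩ := ih (n := ∑ c ∈ range S, m c) rfl
    subst h
    have hlt : ∀ i, lv i < S := by
      intro i
      by_contra hn
      have := h2 (lv i)
      rw [if_neg hn, card_eq_zero] at this
      exact filter_eq_empty_iff.1 this (mem_univ i) rfl
    refine ⟨Fin.append lv fun _ => S, ?_, fun c => ?_⟩
    · intro i j hij
      induction i using Fin.addCases with
      | left i =>
        induction j using Fin.addCases with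
        | left j =>
          simp only [Fin.append_left]
          exact h1 (Fin.le_def.2 (Fin.le_def.1 hij))
        | right j => simp only [Fin.append_left, Fin.append_right]; exact (hlt i).le
      | right i =>
        induction j using Fin.addCases with
        | left j =>
          exfalso
          have := j.2
          simp only [Fin.le_def, Fin.val_natAdd, Fin.val_castAdd] at hij
          omega
        | right j => simp only [Fin.append_right, le_refl]
    · rw [card_filter, Fin.sum_univ_add]
      simp only [Fin.append_left, Fin.append_right]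
      rw [← card_filter, h2]
      by_cases e : S = c
      · subst e; simp
      · by_cases e' : c < S
        · simp [e, e', show c < S + 1 by omega]
        · simp [e, e', show ¬ c < S + 1 by omega]

theorem v_pos_lt (lv : Fin n → ℕ) {i j : Fin n} (h : lv i = lv j) (hij : i < j) :
    pos lv i < pos lv j := by
  unfold pos
  refine card_lt_card ⟨fun x hx => ?_, fun hx => ?_⟩
  · simp only [mem_filter, mem_univ, true_and] at hx ⊢
    exact ⟨hx.1.trans hij, hx.2.trans h⟩
  · have := hx (show i ∈ ({x | x < j ∧ lv x = lv j} : Finset _) by simp [hij, h])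
    simp at this

theorem v_pos_lt_card (lv : Fin n → ℕ) (i : Fin n) : pos lv i < #{j | lv j = lv i} := by
  unfold pos
  refine card_lt_card ⟨fun x hx => ?_, fun hx => ?_⟩
  · simp only [mem_filter, mem_univ, true_and] at hx ⊢
    exact hx.2
  · have := hx (show i ∈ ({x | lv x = lv i} : Finset _) by simp)
    simp at this

theorem pos_inj (lv : Fin n → ℕ) {i j : Fin n} (h : lv i = lv j) (h' : pos lv i = pos lv j) :
    i = j := by
  rcases lt_trichotomy i j with h1 | h1 | h1
  · exact absurd h' (v_pos_lt lv h h1).ne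
  · exact h1
  · exact absurd h' (v_pos_lt lv h.symm h1).ne'

theorem v_image (lv : Fin n → ℕ) (c : ℕ) :
    ({i | lv i = c} : Finset (Fin n)).image (pos lv) = range #{i | lv i = c} := by
  refine eq_of_subset_of_card_le (fun t ht => ?_) ?_
  · obtain ⟨i, hi, rfl⟩ := mem_image.1 ht
    simp only [mem_filter, mem_univ, true_and] at hi
    subst hi
    exact mem_range.2 (v_pos_lt_card lv i)
  · rw [card_range, card_image_of_injOn]
    intro i hi j hj hij
    simp only [coe_filter, mem_univ, true_and, Set.mem_ofPred_eq] at hi hj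
    exact pos_inj lv (hi.trans hj.symm) hij

theorem v_sum {M : Type} [AddCommMonoid M] (lv : Fin n → ℕ) (c : ℕ) (f : ℕ → M) :
    ∑ i with lv i = c, f (pos lv i) = ∑ t ∈ range #{i | lv i = c}, f t := by
  rw [← v_image, sum_image]
  intro i hi j hj hij
  simp only [coe_filter, mem_univ, true_and, Set.mem_ofPred_eq] at hi hj
  exact pos_inj lv (hi.trans hj.symm) hij

theorem pos_sur (lv : Fin n → ℕ) (c t : ℕ) :
    (∃ i, lv i = c ∧ pos lv i = t) ↔ t < #{i | lv i = c} := by
  rw [← mem_range, ← v_image, mem_image]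
  simp

theorem sum_pos {M : Type} [AddCommMonoid M] (lv : Fin n → ℕ) {S : ℕ} (hS : ∀ i, lv i < S)
    (f : ℕ → ℕ → M) :
    ∑ i, f (lv i) (pos lv i) = ∑ c ∈ range S, ∑ t ∈ range #{i | lv i = c}, f c t := by
  rw [← sum_fiberwise_of_maps_to (s := univ) (t := range S) (g := lv)
    fun i _ => mem_range.2 (hS i)]
  refine sum_congr rfl fun c _ => ?_
  rw [← v_sum lv c (f c)]
  refine sum_congr rfl fun i hi => ?_
  rw [(mem_filter.1 hi).2]

theorem vander {R : Type} [CommRing R] (lv : Fin n → ℕ) (Y : Fin n → R) :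
    ∏ i, ∏ j with j < i ∧ lv j = lv i, (Y i - Y j) =
      ∑ g ∈ Yg univ lv, (Perm.sign g : ℤ) • ∏ i, Y (g i) ^ pos lv i := by
  nontriviality R
  let M : Matrix (Fin n) (Fin n) R := fun i j => if lv i = lv j then Y i ^ pos lv j else 0
  let q : Fin n → Polynomial R := fun j =>
    ∏ j' with j' < j ∧ lv j' = lv j, (Polynomial.X - Polynomial.C (Y j'))
  have hq : ∀ j, (q j).natDegree = pos lv j := fun j =>
    Polynomial.natDegree_finsetProd_X_sub_C_eq_card _ _
  have hm : ∀ j, (q j).Monic := fun j => Polynomial.monic_prod_X_sub_C _ _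
  let U : Matrix (Fin n) (Fin n) R := fun k j => if lv k = lv j then (q j).coeff (pos lv k) else 0
  let N : Matrix (Fin n) (Fin n) R := fun i j => if lv i = lv j then (q j).eval (Y i) else 0
  have e : M * U = N := by
    ext i j
    rw [Matrix.mul_apply]
    by_cases h : lv i = lv j
    · simp only [N, if_pos h]
      rw [Polynomial.eval_eq_sum_range' (n := #{k | lv k = lv j})
        (by rw [hq]; exact v_pos_lt_card lv j), ← v_sum lv (lv j) fun t => (q j).coeff t * Y i ^ t,
        sum_filter]
      refine sum_congr rfl fun k _ => ?_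
      simp only [M, U, h]
      by_cases h2 : lv k = lv j
      · simp [h2, mul_comm]
      · simp [h2]
    · simp only [N, if_neg h]
      refine sum_eq_zero fun k _ => ?_
      simp only [M, U]
      by_cases h2 : lv k = lv j
      · rw [if_neg (fun h3 => h (h3.trans h2)), zero_mul]
      · rw [if_neg h2, mul_zero]
  have dU : U.det = 1 := by
    rw [Matrix.det_of_isUpperTriangular (M := U)]
    · refine prod_eq_one fun j _ => ?_
      simp only [U, if_pos]
      rw [← hq]; exact hm j
    · intro k j hkj
      simp only [U]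
      split_ifs with h
      · exact Polynomial.coeff_eq_zero_of_natDegree_lt (by rw [hq]; exact v_pos_lt lv h.symm hkj)
      · rfl
  have dN : N.det = ∏ i, ∏ j with j < i ∧ lv j = lv i, (Y i - Y j) := by
    rw [Matrix.det_of_isLowerTriangular N]
    · refine prod_congr rfl fun j _ => ?_
      simp [N, q, Polynomial.eval_prod]
    · intro i j hij
      simp only [N]
      split_ifs with h
      · simp only [q, Polynomial.eval_prod]
        exact prod_eq_zero (i := i) (by simpa [h] using hij) (by simp)
      · rfl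
  rw [← dN, ← e, Matrix.det_mul, dU, mul_one, Matrix.det_apply]
  symm
  unfold Yg
  rw [sum_filter]
  refine sum_congr rfl fun g _ => ?_
  split_ifs with h
  · rw [Units.smul_def]
    congr 1
    exact prod_congr rfl fun i _ => by simp only [M, if_pos (h.2 i)]
  · obtain ⟨i, hi⟩ : ∃ i, lv (g i) ≠ lv i := by
      by_contra hn
      push Not at hn
      exact h ⟨by simp, hn⟩
    rw [prod_eq_zero (mem_univ i) (by simp only [M, if_neg hi]), smul_zero]

theorem v_alt (lv : Fin n → ℕ) (δ : Fin n → ℕ) :
    Alt (pRep n) lv (∏ i, MvPolynomial.X i ^ δ i) =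
      ∑ g ∈ Yg univ lv, (Perm.sign g : ℤ) • ∏ i, MvPolynomial.X (g i) ^ δ i := by
  unfold Alt Sym
  rw [LinearMap.sum_apply]
  refine sum_congr rfl fun g _ => ?_
  rw [LinearMap.smul_apply, MonoidHom.comp_apply, pRep_apply, sgn', Int.cast_smul_eq_zsmul]
  simp [pact]

theorem PA_eq (lv : Fin n → ℕ) :
    PA lv = Alt (pRep n) lv (∏ i, MvPolynomial.X i ^ pos lv i) := by
  rw [v_alt, PA, vander]

theorem PJ_eq (β : ℕ) (lv : Fin n → ℕ) : PJ β lv = Alt (pRep n) lv
    (∏ i, MvPolynomial.X i ^ (if lv i = 0 then 2 * pos lv i + β else pos lv i)) := by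
  rw [v_alt, PJ, vander lv fun i => MvPolynomial.X i ^ (if lv i = 0 then 2 else 1), sum_mul]
  refine sum_congr rfl fun g hg => ?_
  have hl := (mem_Yg.1 hg).2
  rw [smul_mul_assoc, ← Equiv.prod_comp g fun i => MvPolynomial.X i ^ (if lv i = 0 then β else 0),
    ← prod_mul_distrib]
  congr 1
  refine prod_congr rfl fun i _ => ?_
  rw [hl, ← pow_mul, ← pow_add]
  split_ifs <;> simp

theorem PA_ne (lv : Fin n → ℕ) : PA lv ≠ 0 := by
  refine prod_ne_zero_iff.2 fun i _ => prod_ne_zero_iff.2 fun j hj => sub_ne_zero.2 fun h => ?_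
  exact (mem_filter.1 hj).2.1.ne' (MvPolynomial.X_injective h)

theorem PJ_ne (β : ℕ) (lv : Fin n → ℕ) : PJ β lv ≠ 0 := by
  refine mul_ne_zero (prod_ne_zero_iff.2 fun i _ => prod_ne_zero_iff.2 fun j hj =>
    sub_ne_zero.2 fun h => ?_)
    (prod_ne_zero_iff.2 fun i _ => pow_ne_zero _ (MvPolynomial.X_ne_zero i))
  have hne : j ≠ i := (mem_filter.1 hj).2.1.ne
  have := congrArg (MvPolynomial.eval fun x => if x = i then (1 : ℂ) else 0) h
  simp only [map_pow, MvPolynomial.eval_X, if_pos, one_pow, if_neg hne] at this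
  split_ifs at this <;> simp at this

theorem pRep_tt (δ : Fin n → ℕ) (i : Fin n) : pRep n (tt i) (∏ j, MvPolynomial.X j ^ δ j) =
    ((-1 : ℂ) ^ δ i) • ∏ j, MvPolynomial.X j ^ δ j := by
  rw [pRep_apply, pact, map_prod, ← mul_prod_erase _ _ (mem_univ i),
    ← mul_prod_erase _ (fun j => MvPolynomial.X j ^ δ j) (mem_univ i), ← smul_mul_assoc]
  congr 1
  · simp [tt, MvPolynomial.smul_eq_C_mul, neg_pow (MvPolynomial.X i : MvPolynomial (Fin n) ℂ)]
  · refine prod_congr rfl fun j hj => ?_
    simp [tt, Pi.mulSingle_eq_of_ne (ne_of_mem_erase hj)]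

theorem pRep_ss (δ : Fin n → ℕ) {i j : Fin n} (h : δ i = δ j) :
    pRep n (ss i j) (∏ l, MvPolynomial.X l ^ δ l) = ∏ l, MvPolynomial.X l ^ δ l := by
  rw [pRep_apply, pact, map_prod, ← Equiv.prod_comp (swap i j) fun l => MvPolynomial.X l ^ δ l]
  refine prod_congr rfl fun l _ => ?_
  have : δ (swap i j l) = δ l := by
    rw [swap_apply_def]
    split_ifs with a b
    · rw [a, h]
    · rw [b, h]
    · rfl
  simp [ss, this]

end

end Pool.Agent.P.MP_5e2a31_al.L
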