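import Pool.Agent.P.MP_5e2a31_al.L.N3
import Pool.Agent.P.MP_5e2a31_al.L.M1
import Pool.Agent.P.MP_5e2a31_al.L.R3
import Pool.Agent.P.MP_5e2a31_al.L.Dn
import Pool.Agent.P.MP_5e2a31_al.L.G2
import Pool.Agent.P.MP_5e2a31_al.L.Co
import Pool.Agent.P.MP_5e2a31_al.L.V

/-! The Joseph polynomial of the nilradical of a polarisation; type A. -/

namespace Pool.Agent.P.MP_5e2a31_al.L

open Matrix Finset
open scoped Classical

noncomputable section

variable {ι : Type} [Fintype ι] [DecidableEq ι] {n : ℕ}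

theorem reg_succ (n : ℕ) : Reg fun i : Fin n => (i : ℤ) + 1 :=
  ⟨fun i j h => by have : (i : ℕ) < j := h; simp only; omega, fun i => by positivity⟩

/-- `nil J a` as a subspace -/
def nilS (J : Matrix ι ι ℂ) (a : (Fin n → ℤ) → ι → ℤ) : Submodule ℂ (Matrix ι ι ℂ) where
  carrier := nil J a
  add_mem' ha hb := ⟨(lieS J).add_mem ha.1 hb.1, fun ν hν p q h => by
    rw [Matrix.add_apply, ha.2 ν hν p q h, hb.2 ν hν p q h, add_zero]⟩
  zero_mem' := ⟨(lieS J).zero_mem, fun _ _ _ _ _ => rfl⟩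
  smul_mem' c _ hx := ⟨(lieS J).smul_mem c hx.1, fun ν hν p q h => by
    rw [Matrix.smul_apply, hx.2 ν hν p q h, smul_zero]⟩

theorem joseph_of {J e e₀ : Matrix ι ι ℂ} {a : (Fin n → ℤ) → ι → ℤ} {l : ι → ℤ}
    (he : IsNilpotent e) (h₀ : e₀ ∈ lie J) (hf : e₀ ∈ Fil l 2) (hpar : ∀ p q, Even (l p - l q))
    (hg : ∀ y, y * e₀ - e₀ * y ∈ Fil l 1 → y ∈ Fil l 0)
    (hπ : ∀ y, ∃ y' ∈ lieS J, (y ∈ Fil l 0 → y' ∈ Fil l 0) ∧
      ∀ x ∈ lieS J, (x * y').trace = (x * y).trace)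
    (hup : ∀ x ∈ Fil l 2, ∀ i, (x ^ i).rank ≤ (e ^ i).rank)
    (hlow : ∀ i, (e ^ i).rank ≤ (e₀ ^ i).rank)
    (horb : ∀ x ∈ lie J, (∀ i, (e ^ i).rank = (x ^ i).rank) → x ∈ orbit J e)
    {R R' : Finset (ι × ι)} (hR : R' ⊆ R) (hn : ∀ ν, Reg ν → Coord (nil J a) (a ν) R)
    (hu : ∀ ν, Reg ν → Coord {x | x ∈ lie J ∧ ∀ p q, ¬ l q < l p → x p q = 0} (a ν) R')
    (hm : ∀ ν, Reg ν → ∀ p q, a ν p ≤ a ν q → l p ≤ l q) {P : MvPolynomial (Fin n) ℂ}
    (hP : ∀ ν, Reg ν → ∏ r ∈ R \ R', ((a ν r.1 : ℂ) - a ν r.2) =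
      MvPolynomial.eval (fun i => (ν i : ℂ)) P) :
    ∃ κ : ℂ, κ ≠ 0 ∧ Joseph J a e (κ • P) := by
  let u : Submodule ℂ (Matrix ι ι ℂ) := lieS J ⊓ Fil l 1
  have eu : {x | x ∈ lie J ∧ ∀ p q, ¬ l q < l p → x p q = 0} = (u : Set (Matrix ι ι ℂ)) :=
    Set.ext fun x => and_congr_right' (forall₂_congr fun p q => imp_congr_left (by omega))
  rw [eu] at hu
  have h12 : ∀ x ∈ Fil l 1, x ∈ Fil l 2 := fun x hx p q h => hx p q (by
    obtain ⟨c, hc⟩ := hpar p q
    omega)
  have he₀ : e₀ ∈ u := ⟨h₀, Fil_mono (by norm_num) hf⟩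
  have d1 : Set.finrank ℂ (nil J a) = R.card := by
    have := Coord.finrank (Y := nilS J a) (hn _ (reg_succ n))
    rw [← this, Set.finrank]
    exact congrArg (fun S : Submodule ℂ (Matrix ι ι ℂ) => Module.finrank ℂ S)
      (Submodule.span_eq (nilS J a))
  have d2 : Set.finrank ℂ ((fun x => x * e - e * x) '' lie J) = 2 * R'.card := by
    rw [rank_ad_orbit (horb e₀ h₀ fun i => le_antisymm (hlow i) (hup e₀ hf i)),
      ← Coord.finrank (hu _ (reg_succ n))]
    exact rank_ad (g := lieS J) he₀.2 (fun x hx => lie_bracket hx h₀) hπ hg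
  refine ⟨(R.card.factorial : ℂ) / R'.card.factorial, by
    have := Nat.factorial_ne_zero R.card
    have := Nat.factorial_ne_zero R'.card
    positivity, {x | x ∈ u ∧ ∀ i < Fintype.card ι, (e₀ ^ i).rank ≤ (x ^ i).rank}, ?_,
    fun ν hν => ?_⟩
  · rintro x ⟨hx, hr⟩
    refine ⟨horb x hx.1 fun i => le_antisymm ?_ (hup x (h12 x hx.2) i), hx.1,
      fun ν hν p q h => hx.2 p q (by have := hm ν hν p q h; omega)⟩
    rcases lt_or_ge i (Fintype.card ι) with h | h
    · exact (hlow i).trans (hr i h)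
    · rw [pow_card_eq_zero he h, Matrix.rank_zero]
      exact Nat.zero_le _
  · rw [d1, d2, Nat.mul_div_cancel_left _ two_pos, MvPolynomial.smul_eval, ← hP ν hν]
    exact growth (hn ν hν) (hu ν hν) hR (dense_rank u he₀ _)

omit [DecidableEq ι] in
theorem card_window (l : ι → ℤ) {w w' : ℤ} (h : w ≤ w') :
    #{p | l p < w} + #{p | w' ≤ l p} + #{p | w ≤ l p ∧ l p < w'} = Fintype.card ι := by
  simp only [Finset.card_filter, ← Finset.sum_add_distrib]
  rw [← Finset.card_univ, Finset.card_eq_sum_ones]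
  refine Finset.sum_congr rfl fun p _ => ?_
  split_ifs <;> omega

theorem geoA {e : Matrix (Fin n) (Fin n) ℂ} (he : IsNilpotent e) :
    ∃ lv : Fin n → ℕ, (∀ c, #{i | lv i = c} = dd e c) ∧
      ∃ κ : ℂ, κ ≠ 0 ∧ Joseph 0 id e (κ • PA lv) := by
  have hs : ∑ c ∈ range n, dd e c = n := by
    have := dd_sum e n
    rwa [pow_card_eq_zero he (by simp), Matrix.rank_zero, zero_add, Fintype.card_fin] at this
  obtain ⟨lv, hm, hc⟩ := exists_mono (dd e) n hs
  have hc' : ∀ c, #{i | lv i = c} = dd e c := fun c => by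
    rw [hc]
    split_ifs with h
    · rfl
    · exact (dd_zero he (by simpa using h)).symm
  refine ⟨lv, hc', ?_⟩
  have anti : Antitone (dd e) := antitone_nat_of_succ_le (dd_anti e)
  let l : Fin n → ℤ := fun i => 2 * lv i
  let μ : ℤ → ℕ := fun c => #{p | l p = c}
  have hμ : ∀ s : ℕ, μ (2 * s) = dd e s := fun s => by
    rw [← hc']
    exact congrArg Finset.card (Finset.filter_congr fun p _ => by simp only [l]; omega)
  have hμ0 : ∀ c, μ c ≠ 0 → ∃ s : ℕ, c = 2 * s := fun c h => by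
    obtain ⟨p, hp⟩ := Finset.card_ne_zero.1 h
    exact ⟨lv p, (Finset.mem_filter.1 hp).2.symm⟩
  have hle : ∀ c c', 0 ≤ c' → c' ≤ c → Even (c - c') → μ c ≤ μ c' := fun c c' h0 h1 ⟨t, ht⟩ => by
    by_cases h : μ c = 0
    · omega
    obtain ⟨s, rfl⟩ := hμ0 c h
    obtain ⟨s', rfl⟩ : ∃ s' : ℕ, c' = 2 * s' := ⟨(c' / 2).toNat, by omega⟩
    rw [hμ, hμ]
    exact anti (by omega)
  obtain ⟨t, t1, t2⟩ := exists_t l
  let Y : Pyr (Fin n) μ := ⟨l, t, t1, t2, fun p q => ⟨lv p - lv q, by simp only [l]; ring⟩,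
    fun c c' c'' h1 h2 ⟨s, hs⟩ => by
      by_cases h : μ c = 0
      · omega
      obtain ⟨s', rfl⟩ := hμ0 c h
      by_cases h' : μ c' = 0
      · omega
      obtain ⟨s'', rfl⟩ := hμ0 c' h'
      exact (min_le_right _ _).trans (hle _ _ (by omega) h2 ⟨s'' - s' - s, by omega⟩)⟩
  have win : ∀ i : ℕ, #{p | l p < 0} + #{p | 0 + 2 * (i : ℤ) ≤ l p} = (e ^ i).rank := fun i => by
    have h1 := card_window l (w := 0) (w' := 0 + 2 * i) (by omega)
    have h2 := dd_sum e i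
    have h3 : #{p | 0 ≤ l p ∧ l p < 0 + 2 * (i : ℤ)} = ∑ j ∈ range i, dd e j := by
      rw [Finset.card_eq_sum_card_fiberwise (f := lv) (t := range i) fun p hp => by
        have := (Finset.mem_filter.1 hp).2
        simp only [l] at this
        exact Finset.mem_coe.2 (Finset.mem_range.2 (by omega))]
      refine Finset.sum_congr rfl fun j hj => ?_
      rw [← hc', Finset.filter_filter]
      have := Finset.mem_range.1 hj
      exact congrArg Finset.card (Finset.filter_congr fun p _ => by simp only [l]; omega)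
    omega
  refine joseph_of (l := l) (e₀ := Y.e) he ⟨trace_Fil (Fil_mono (by norm_num) Y.e_mem), by simp⟩
    Y.e_mem Y.par (fun y => Y.good) (proj_zero l) (fun x hx i => win i ▸ rank_le hx i 0)
    (fun i => win i ▸ Y.le_rank i 0 (fun c h => ?_) fun c h => ?_)
    (fun x _ => mem_orbit_zero he) (R := {r | r.2 < r.1}) (R' := {r | l r.2 < l r.1})
    (fun r hr => ?_) (fun ν hν => ?_) (fun ν hν => ?_) (fun ν hν p q h => ?_) fun ν hν => ?_
  · by_cases h' : μ c = 0
    · omega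
    · obtain ⟨s, rfl⟩ := hμ0 c h'
      omega
  · exact hle _ _ (by omega) (by omega) ⟨i, by ring⟩
  · have := (Finset.mem_filter.1 hr).2
    simp only [l] at this
    exact Finset.mem_filter.2 ⟨Finset.mem_univ _, hm.reflect_lt (by omega)⟩
  · have : nil 0 id = {x : Matrix (Fin n) (Fin n) ℂ | x ∈ lie 0 ∧ ∀ p q, ¬ q < p → x p q = 0} :=
      Set.ext fun x => and_congr_right' ⟨fun h p q h' => h ν hν p q (hν.1.monotone (not_lt.1 h')),
        fun h ν' hν' p q h' => h p q (not_lt.2 (hν'.1.le_iff_le.1 h'))⟩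
    rw [this]
    exact coord_zero (fun p q h => hν.1 h) (by simp)
  · exact coord_zero (rel := fun p q => l q < l p)
      (fun p q h => hν.1 (hm.reflect_lt (by simp only [l] at h; omega))) (by simp)
  · have := hm (hν.1.le_iff_le.1 h)
    simp only [l]
    omega
  · rw [PA, map_prod]
    simp only [map_prod, map_sub, MvPolynomial.eval_X, id]
    rw [Finset.prod_sigma']
    refine Finset.prod_bij' (fun r _ => ⟨r.1, r.2⟩) (fun r _ => (r.1, r.2)) (fun r hr => ?_)
      (fun r hr => ?_) (fun _ _ => rfl) (fun _ _ => rfl) fun _ _ => rfl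
    · simp only [Finset.mem_sdiff, Finset.mem_filter, Finset.mem_univ, true_and, l] at hr
      have := hm hr.1.le
      simp only [Finset.mem_sigma, Finset.mem_filter, Finset.mem_univ, true_and]
      exact ⟨hr.1, by omega⟩
    · simp only [Finset.mem_sigma, Finset.mem_filter, Finset.mem_univ, true_and] at hr
      simp only [Finset.mem_sdiff, Finset.mem_filter, Finset.mem_univ, true_and, l]
      exact ⟨hr.1, by omega⟩

end

end Pool.Agent.P.MP_5e2a31_al.L
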