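import Pool.Agent.P.MP_5e2a31_al.L.N2

/-! Package M2: the nilpotent matrix of a symmetric pyramid, moved into the Lie algebra. -/

namespace Pool.Agent.P.MP_5e2a31_al.L

open Matrix Finset
open scoped Classical

noncomputable section

variable {ι : Type} [Fintype ι] [DecidableEq ι] {n : ℕ}

omit [DecidableEq ι] in
theorem m2_anti {l : ι → ℤ} {x y : Matrix ι ι ℂ} (hx : ∀ p q, x p q ≠ 0 → l p + l q = 0)
    (hy : ∀ p q, y p q ≠ 0 → l p + l q = 0) : x * y ∈ Fil l 0 := fun p q h => by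
  rw [Matrix.mul_apply]
  refine Finset.sum_eq_zero fun r _ => ?_
  by_contra hne
  have h1 := hx p r (left_ne_zero_of_mul hne)
  have h2 := hy r q (right_ne_zero_of_mul hne)
  omega

theorem m2_aeval_Fil {l : ι → ℤ} {a : Matrix ι ι ℂ} (ha : a ∈ Fil l 0) (q : Polynomial ℂ) :
    Polynomial.aeval a q ∈ Fil l 0 := by
  induction q using Polynomial.induction_on' with
  | add p q hp hq => rw [map_add]; exact Submodule.add_mem _ hp hq
  | monomial k c =>
    rw [Polynomial.aeval_monomial, ← Algebra.smul_def]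
    refine Submodule.smul_mem _ _ ?_
    simpa using Fil_pow ha k

theorem m2_aeval_adj {a J : Matrix ι ι ℂ} (ha : aᵀ * J = J * a) (q : Polynomial ℂ) :
    (Polynomial.aeval a q)ᵀ * J = J * Polynomial.aeval a q := by
  have hp : ∀ k : ℕ, (a ^ k)ᵀ * J = J * a ^ k := by
    intro k
    induction k with
    | zero => simp
    | succ k ih =>
      rw [pow_succ, transpose_mul, mul_assoc, ih, ← mul_assoc, ha, mul_assoc, ← pow_succ',
        pow_succ]
  induction q using Polynomial.induction_on' with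
  | add p q hp hq => rw [map_add, transpose_add, add_mul, mul_add, hp, hq]
  | monomial k c =>
    rw [Polynomial.aeval_monomial, ← Algebra.smul_def, transpose_smul, smul_mul_assoc,
      mul_smul_comm, hp]

omit [Fintype ι] [DecidableEq ι] in
theorem m2_partner {μ : ℤ → ℕ} (Y : Pyr ι μ) (hμ : ∀ c, μ (-c) = μ c) :
    ∃ σ : ι → ι, (∀ p, Y.l (σ p) = -Y.l p) ∧ (∀ p, Y.t (σ p) = Y.t p) ∧ ∀ p, σ (σ p) = p := by
  have h : ∀ p, ∃ q, Y.l q = -Y.l p ∧ Y.t q = Y.t p := fun p =>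
    (Y.sur _ _).2 (by rw [hμ]; exact (Y.sur _ _).1 ⟨p, rfl, rfl⟩)
  choose σ h1 h2 using h
  exact ⟨σ, h1, h2, fun p => Y.inj _ _ (by rw [h1, h1, neg_neg]) (by rw [h2, h2])⟩

theorem m2_I_neg (k : ℤ) : Complex.I ^ (-k) = (-1) ^ k * Complex.I ^ k := by
  rw [← mul_zpow, _root_.zpow_neg, ← _root_.inv_zpow, Complex.inv_I, neg_one_mul]

theorem m2_det {μ : ℤ → ℕ} (Y : Pyr ι μ) (hμ : ∀ c, μ (-c) = μ c) (hev : ∀ p, Even (Y.l p))
    (hne : Nonempty ι) : ∏ p, (if Y.t p = 0 then (-1 : ℂ) else 1) = -1 := by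
  obtain ⟨σ, hσl, hσt, hσσ⟩ := m2_partner Y hμ
  obtain ⟨p0⟩ := hne
  have h0 : 0 < μ (Y.l p0) := lt_of_le_of_lt (Nat.zero_le _) ((Y.sur _ _).1 ⟨p0, rfl, rfl⟩)
  have h1 : 0 < μ 0 := by
    rcases le_total 0 (Y.l p0) with h | h
    · have := Y.itv (-Y.l p0) (Y.l p0) 0 (by omega) h (by simpa using hev p0)
      rw [hμ, min_self] at this
      omega
    · have := Y.itv (Y.l p0) (-Y.l p0) 0 h (by omega) (by simpa using hev p0)
      rw [hμ, min_self] at this
      omega
  obtain ⟨z, hz1, hz2⟩ := (Y.sur 0 0).2 h1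
  rw [← Finset.mul_prod_erase _ _ (mem_univ z), if_pos hz2]
  have : ∏ p ∈ univ.erase z, (if Y.t p = 0 then (-1 : ℂ) else 1) = 1 := by
    refine Finset.prod_involution (fun p _ => σ p) ?_ ?_ ?_ ?_
    · intro p _
      rw [hσt]
      split_ifs <;> simp
    · intro p hp hne he
      have ht : Y.t p = 0 := by
        by_contra h
        exact hne (if_neg h)
      have hl := hσl p
      rw [he] at hl
      exact (mem_erase.1 hp).1 (Y.inj _ _ (by omega) (by omega))
    · intro p hp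
      refine mem_erase.2 ⟨fun he => (mem_erase.1 hp).1 ?_, mem_univ _⟩
      have hl := hσl p
      have ht := hσt p
      rw [he] at hl ht
      exact Y.inj _ _ (by omega) (by omega)
    · intro p _
      exact hσσ p
  rw [this, mul_one]

theorem m2_form {μ : ℤ → ℕ} (Y : Pyr ι μ) (hμ : ∀ c, μ (-c) = μ c) {ε : ℂ}
    (hε0 : ε = 1 ∨ ε = -1) (hε : ∀ p, ε = (-1) ^ Y.l p) :
    ∃ K : Matrix ι ι ℂ, K * K = 1 ∧ Kᵀ = ε • K ∧ Y.eᵀ * K = -(K * Y.e) ∧
      ∀ p q, K p q ≠ 0 → Y.l p + Y.l q = 0 ∧ Y.t p = Y.t q := by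
  obtain ⟨σ, hσl, hσt, hσσ⟩ := m2_partner Y hμ
  have hI : ∀ k : ℤ, Complex.I ^ k ≠ 0 := fun k => zpow_ne_zero k Complex.I_ne_zero
  set K : Matrix ι ι ℂ := Matrix.of fun p q => if q = σ p then Complex.I ^ Y.l p else 0 with hK
  have hKa : ∀ p q, K p q = if q = σ p then Complex.I ^ Y.l p else 0 := fun p q => rfl
  have hsym : Kᵀ = ε • K := by
    ext p q
    rw [transpose_apply, Matrix.smul_apply, hKa, hKa, smul_eq_mul]
    by_cases h : q = σ p
    · subst h
      rw [if_pos (hσσ p).symm, if_pos rfl, hσl, m2_I_neg, hε p]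
    · rw [if_neg h, if_neg (fun e => h (by rw [e, hσσ])), mul_zero]
  let G : Form K :=
    { bar := σ, bar_bar := hσσ, ε := ε, hε := hε0, symm := hsym
      ne := fun p q => by
        rw [hKa]
        by_cases h : q = σ p
        · simp [h, hI]
        · simp [h] }
  have hbar : ∀ p, G.bar p = σ p := fun p => rfl
  refine ⟨K, ?_, hsym, ?_, ?_⟩
  · ext p q
    rw [G.J_mul, hbar, hKa, hKa, if_pos rfl, hσσ, hσl, Matrix.one_apply]
    by_cases h : p = q
    · subst h
      rw [if_pos rfl, ← zpow_add₀ Complex.I_ne_zero]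
      simp
    · rw [if_neg (Ne.symm h), if_neg h, mul_zero]
  · rw [G.skew_iff]
    intro p q
    rw [hbar, hbar, hKa, hKa, if_pos rfl, if_pos (hσσ q).symm]
    simp only [Pyr.e, of_apply, hσl, hσt]
    by_cases h : -Y.l q = Y.l p + 2 ∧ Y.t q = Y.t p
    · rw [if_pos h, if_pos ⟨by omega, h.2.symm⟩, h.1, zpow_add₀ Complex.I_ne_zero]
      have : Complex.I ^ (2 : ℤ) = -1 := by
        rw [zpow_ofNat, Complex.I_sq]
      rw [this]; ring
    · rw [if_neg h, if_neg (fun e => h ⟨by omega, e.2.symm⟩)]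
      simp
  · intro p q h
    have := (G.ne p q).1 h
    rw [this, hbar, hσl, hσt]
    exact ⟨by omega, rfl⟩

theorem exists_model {J : Matrix ι ι ℂ} (F : Form J) {μ : ℤ → ℕ} (Y : Pyr ι μ)
    (hl : ∀ p, Y.l (F.bar p) = -Y.l p) (hμ : ∀ c, μ (-c) = μ c)
    (hε : ∀ p, F.ε = (-1) ^ Y.l p) :
    ∃ r r' : Matrix ι ι ℂ, r * r' = 1 ∧ r ∈ Fil Y.l 0 ∧ r' ∈ Fil Y.l 0 ∧ r * Y.e * r' ∈ lie J ∧
      (F.ε = 1 → Nonempty ι → ∃ c : Matrix ι ι ℂ, c.det = -1 ∧ cᵀ * J * c = J ∧
        c * (r * Y.e * r') = r * Y.e * r' * c) := by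
  obtain ⟨K, hKK, hKs, hKe, hKn⟩ := m2_form Y hμ F.hε hε
  have hεε : F.ε * F.ε = 1 := by rcases F.hε with h | h <;> rw [h] <;> simp
  have aK : ∀ p q, K p q ≠ 0 → Y.l p + Y.l q = 0 := fun p q h => (hKn p q h).1
  have aJ : ∀ p q, J p q ≠ 0 → Y.l p + Y.l q = 0 := fun p q h => by
    rw [(F.ne p q).1 h, hl]; omega
  have aI : ∀ p q, F.inv p q ≠ 0 → Y.l p + Y.l q = 0 := fun p q h => by
    have : q = F.bar p := by
      by_contra e
      exact h (by rw [Form.inv, of_apply, if_neg e])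
    rw [this, hl]; omega
  set a := F.inv * K with ha
  have ha0 : a ∈ Fil Y.l 0 := m2_anti aI aK
  have hb0 : K * J ∈ Fil Y.l 0 := m2_anti aK aJ
  have hab : a * (K * J) = 1 := by
    rw [ha, mul_assoc, ← mul_assoc K, hKK, one_mul, F.inv_mul]
  have hJa : J * a = K := by rw [ha, ← mul_assoc, F.mul_inv, one_mul]
  have hiT : F.invᵀ * J = F.ε • (1 : Matrix ι ι ℂ) := by
    have h1 : F.invᵀ * Jᵀ = 1 := by rw [← transpose_mul, F.mul_inv, transpose_one]
    rw [F.symm, mul_smul_comm] at h1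
    rw [← h1, smul_smul, hεε, one_smul]
  have haT : aᵀ * J = J * a := by
    rw [hJa, ha, transpose_mul, mul_assoc, hiT, hKs, mul_smul_comm, mul_one, smul_smul, hεε,
      one_smul]
  obtain ⟨q, hq⟩ := exists_sqrt (a := a) (isUnit_det_of_right_inverse hab)
  set r := Polynomial.aeval a q with hr
  have hr0 : r ∈ Fil Y.l 0 := m2_aeval_Fil ha0 q
  have hrT : rᵀ * J = J * r := m2_aeval_adj haT q
  set r' := r * (K * J) with hr'
  have hrr : r * r' = 1 := by rw [hr', ← mul_assoc, hq, hab]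
  have hrr' : r' * r = 1 := mul_eq_one_comm.1 hrr
  have hTT : r'ᵀ * rᵀ = 1 := by rw [← transpose_mul, hrr, transpose_one]
  have hr'0 : r' ∈ Fil Y.l 0 := by simpa using Fil_mul hr0 hb0
  clear_value r'
  have hK : rᵀ * J * r = K := by rw [hrT, mul_assoc, hq, hJa]
  have h1 : rᵀ * J = K * r' := by rw [← hK, mul_assoc, hrr, mul_one]
  have h2 : J * r = r'ᵀ * K := by rw [← hK, ← mul_assoc, ← mul_assoc, hTT, one_mul]
  have hsk : (r * Y.e * r')ᵀ * J = -(J * (r * Y.e * r')) := by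
    rw [transpose_mul, transpose_mul, mul_assoc, mul_assoc, h1, ← mul_assoc Y.eᵀ, hKe,
      ← mul_assoc J, ← mul_assoc J, h2]
    simp only [neg_mul, mul_neg, mul_assoc]
  refine ⟨r, r', hrr, hr0, hr'0, ⟨trace_of_skew F.isUnit hsk, hsk⟩, fun h1ε hne => ?_⟩
  set d : ι → ℂ := fun p => if Y.t p = 0 then -1 else 1 with hd
  have hdd : ∀ p q, Y.t p = Y.t q → d p = d q := fun p q h => by simp only [hd, h]
  have hd2 : ∀ p, d p * d p = 1 := fun p => by
    simp only [hd]
    split_ifs <;> simp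
  have hDK : diagonal d * K * diagonal d = K := by
    ext p q
    rw [mul_diagonal, diagonal_mul]
    by_cases h : K p q = 0
    · rw [h]; simp
    · rw [hdd p q (hKn p q h).2]
      linear_combination K p q * hd2 q
  have hDe : diagonal d * Y.e = Y.e * diagonal d := by
    ext p q
    rw [mul_diagonal, diagonal_mul]
    simp only [Pyr.e, of_apply]
    by_cases h : Y.l p = Y.l q + 2 ∧ Y.t p = Y.t q
    · rw [if_pos h, hdd p q h.2]; ring
    · rw [if_neg h]; ring
  have hev : ∀ p, Even (Y.l p) := fun p => by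
    by_contra h
    have h3 := hε p
    rw [h1ε, (Int.not_even_iff_odd.1 h).neg_one_zpow] at h3
    norm_num at h3
  refine ⟨r * diagonal d * r', ?_, ?_, ?_⟩
  · have h3 : r.det * r'.det = 1 := by rw [← det_mul, hrr, det_one]
    rw [det_mul, det_mul, det_diagonal, m2_det Y hμ hev hne]
    linear_combination (-1 : ℂ) * h3
  · have h3 : r'ᵀ * K * r' = J := by rw [← h2, mul_assoc, hrr, mul_one]
    rw [transpose_mul, transpose_mul, diagonal_transpose]
    calc r'ᵀ * (diagonal d * rᵀ) * J * (r * diagonal d * r')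
        = r'ᵀ * (diagonal d * (rᵀ * J * r) * diagonal d) * r' := by simp only [mul_assoc]
      _ = J := by rw [hK, hDK, h3]
  · calc r * diagonal d * r' * (r * Y.e * r')
        = r * (diagonal d * (r' * r) * Y.e) * r' := by simp only [mul_assoc]
      _ = r * (Y.e * (r' * r) * diagonal d) * r' := by rw [hrr', mul_one, mul_one, hDe]
      _ = r * Y.e * r' * (r * diagonal d * r') := by simp only [mul_assoc]

end

end Pool.Agent.P.MP_5e2a31_al.L
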