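import Pool.Agent.P.MP_5e2a31_al.L.GA
import Pool.Agent.P.MP_5e2a31_al.L.M2

/-! The Joseph polynomial in the types B, C, D. -/

namespace Pool.Agent.P.MP_5e2a31_al.L

open Matrix Finset
open scoped Classical

noncomputable section

variable {ι : Type} [Fintype ι] [DecidableEq ι] {n : ℕ}

theorem mu_nat (D : ℕ → ℕ) (o c : ℕ) : mu D o c = if c % 2 = o then D c else 0 := by
  simp [mu]

theorem mu_neg (D : ℕ → ℕ) (o : ℕ) (c : ℤ) : mu D o (-c) = mu D o c := by
  simp [mu]

theorem mu_add {D : ℕ → ℕ} {o : ℕ} (ho : o ≤ 1) (hpar : ∀ i, i % 2 ≠ o → D i = D (i + 1))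
    (c : ℕ) : mu D o c + mu D o (c + 1 : ℕ) = D c := by
  rw [mu_nat, mu_nat]
  split_ifs with h1 h2 h2
  · omega
  · rfl
  · rw [zero_add, hpar c h1]
  · omega

theorem mu_le {D : ℕ → ℕ} (hD : Antitone D) (o : ℕ) {c c' : ℤ} (h : c'.natAbs ≤ c.natAbs)
    (hp : Even (c - c')) : mu D o c ≤ mu D o c' := by
  obtain ⟨t, ht⟩ := hp
  unfold mu
  split_ifs with h1 h2
  · exact hD h
  · omega
  · exact Nat.zero_le _
  · exact le_rfl

theorem mu_par {D : ℕ → ℕ} {o : ℕ} {c : ℤ} (h : mu D o c ≠ 0) : c.natAbs % 2 = o := by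
  by_contra e
  exact h (if_neg e)

theorem geoJ {J e : Matrix ι ι ℂ} {a : (Fin n → ℤ) → ι → ℤ} (F : Cl J a) (hn : 0 < n)
    (he : IsNilpotent e) (he' : e ∈ lie J) {o : ℕ}
    (ho : (o = 0 ∧ F.ε = 1) ∨ (o = 1 ∧ F.ε = -1))
    (hpar : ∀ i, i % 2 ≠ o → dd e i = dd e (i + 1)) :
    ∃ lv : Fin n → ℕ, Sizes (dd e) o F.β lv ∧ ∃ κ : ℂ, κ ≠ 0 ∧ Joseph J a e (κ • PJ F.β lv) := by
  have ho1 : o ≤ 1 := by omega
  have anti : Antitone (dd e) := antitone_nat_of_succ_le (dd_anti e)
  have key := mu_add ho1 hpar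
  set N := Fintype.card ι with hN
  set μ := mu (dd e) o with hμ
  have hz : ∀ c : ℕ, N ≤ c → μ c = 0 := fun c h => by
    have := key c
    rw [dd_zero he h] at this
    omega
  have hs : ∑ c ∈ range N, dd e c = N := by
    have := dd_sum e N
    rwa [pow_card_eq_zero he le_rfl, Matrix.rank_zero, zero_add] at this
  have hT : μ 0 + 2 * ∑ c ∈ range N, μ (c + 1 : ℕ) = 2 * n + F.β := by
    have h1 := Finset.sum_range_succ (fun c : ℕ => μ c) N
    rw [Finset.sum_range_succ', hz N le_rfl] at h1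
    have h2 := F.card_eq
    rw [← Finset.sum_congr rfl fun c _ => key c, Finset.sum_add_distrib] at hs
    simp only [Nat.cast_zero] at h1
    omega
  have hβ := F.hβ
  obtain ⟨lv, hm, hc⟩ := exists_mono (n := n) (fun c => if c = 0 then μ 0 / 2 else μ c) (N + 1) (by
    rw [Finset.sum_range_succ']
    simp only [Nat.add_one_ne_zero, if_false, if_true]
    omega)
  have hS : Sizes (dd e) o F.β lv := by
    refine ⟨?_, fun c h => ?_⟩
    · rw [hc, if_pos (Nat.succ_pos _), if_pos rfl, ← hμ]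
      omega
    · rw [hc, if_neg h.ne', ← hμ]
      split_ifs with h'
      · rfl
      · exact (hz c (by omega)).symm
  refine ⟨lv, hS, ?_⟩
  let l : ι → ℤ := a fun i => lv i
  have hl : ∀ c, #{p | l p = c} = μ c := fun c => by
    rw [F.card_level]
    split_ifs with h
    · rw [h]
      exact hS.1
    · rw [hS.2 _ (Int.natAbs_pos.2 h), mu_nat]
      rfl
  have hp : ∀ p, (l p).natAbs % 2 = o := fun p => mu_par (D := dd e) (by
    rw [← hμ, ← hl]
    exact Finset.card_ne_zero.2 ⟨p, by simp⟩)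
  obtain ⟨t, t1, t2⟩ := exists_t l
  simp only [hl] at t2
  let Y : Pyr ι μ := ⟨l, t, t1, t2,
    fun p q => by
      have := hp p
      have := hp q
      rw [Int.even_iff]
      omega,
    fun c c' c'' h1 h2 ⟨s, hs⟩ => by
      by_cases h : μ c = 0
      · omega
      by_cases h' : μ c' = 0
      · omega
      have := mu_par h
      have := mu_par h'
      rcases le_total c'' 0 with h3 | h3
      · exact (min_le_left _ _).trans (mu_le anti o (by omega) ⟨-s, by omega⟩)
      · exact (min_le_right _ _).trans (mu_le anti o (by omega) (by rw [Int.even_iff]; omega))⟩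
  have hneg : ∀ c, μ (-c) = μ c := mu_neg _ _
  have win : ∀ i : ℕ, #{p | l p < -(i : ℤ)} + #{p | -(i : ℤ) + 2 * (i : ℤ) ≤ l p} =
      (e ^ i).rank := fun i => by
    have h1 := card_window l (w := -(i : ℤ)) (w' := -(i : ℤ) + 2 * i) (by omega)
    have h2 := dd_sum e i
    have h3 : #{p | -(i : ℤ) ≤ l p ∧ l p < -(i : ℤ) + 2 * (i : ℤ)} = ∑ j ∈ range i, dd e j := by
      clear h1 h2
      induction i with
      | zero => simp
      | succ i ih =>
        rw [Finset.sum_range_succ, ← ih, ← key, ← hneg (i + 1 : ℕ), ← hl, ← hl]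
        simp only [Finset.card_filter, ← Finset.sum_add_distrib]
        refine Finset.sum_congr rfl fun p _ => ?_
        split_ifs <;> omega
    omega
  have hb : ∀ p, l (F.bar p) = -l p := F.a_bar _
  obtain ⟨r, r', h1, h2, h3, h4, h5⟩ := exists_model F.toForm Y hb (mu_neg _ _) fun p => by
    have := hp p
    rcases ho with ⟨h, h'⟩ | ⟨h, h'⟩
    · rw [h', Even.neg_one_zpow (by rw [Int.even_iff]; change l p % 2 = 0; omega)]
    · rw [h', Odd.neg_one_zpow (by rw [Int.odd_iff]; change l p % 2 = 1; omega)]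
  have h1' : r' * r = 1 := mul_eq_one_comm.1 h1
  have hf : r * Y.e * r' ∈ Fil l 2 := by simpa using Fil_mul (Fil_mul h2 Y.e_mem) h3
  have hup : ∀ x ∈ Fil l 2, ∀ i, (x ^ i).rank ≤ (e ^ i).rank := fun x hx i =>
    win i ▸ rank_le hx i _
  have hlow : ∀ i, (e ^ i).rank ≤ ((r * Y.e * r') ^ i).rank := fun i => by
    have e1 : Y.e ^ i = r' * (r * Y.e * r') ^ i * r := by
      induction i with
      | zero => rw [pow_zero, pow_zero, mul_one, h1']
      | succ i ih =>
        rw [pow_succ, ih, pow_succ]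
        simp only [mul_assoc]
        rw [h1', mul_one]
    refine (win i ▸ Y.le_rank i (-(i : ℤ)) (fun c h => ?_) fun c h => ?_).trans
      (e1 ▸ (Matrix.rank_mul_le_left _ _).trans (Matrix.rank_mul_le_right _ _))
    · exact mu_le anti o (by omega) ⟨-i, by ring⟩
    · exact mu_le anti o (by omega) ⟨i, by ring⟩
  have r0 := reg_succ n
  have m1 : Monotone fun i => (lv i : ℤ) := fun i j h => Int.ofNat_le.2 (hm h)
  have hmo : ∀ ν, Reg ν → ∀ p q, a ν p ≤ a ν q → l p ≤ l q := fun ν hν p q h =>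
    F.a_mono hν m1 (fun _ => Int.natCast_nonneg _) h
  have hlt : ∀ {ν ν'}, Reg ν → Reg ν' → ∀ p q, a ν p ≤ a ν q → a ν' p ≤ a ν' q :=
    fun hν hν' p q h => F.a_mono hν hν'.1.monotone (fun i => (hν'.2 i).le) h
  set ν₀ : Fin n → ℤ := fun i => (i : ℤ) + 1
  refine joseph_of (l := l) he h4 hf Y.par (fun y hy => ?_) (proj_form F.toForm hb) hup hlow
    (fun x hx hr => mem_orbit_form F.toForm he he' h4 hx
      (fun i => le_antisymm (hlow i) (hup _ hf i)) hr ?_)
    (R := {r | a ν₀ r.2 < a ν₀ r.1 ∧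
      (0 < a ν₀ r.1 + a ν₀ r.2 ∨ (F.ε = -1 ∧ r.2 = F.bar r.1))})
    (R' := {r | l r.2 < l r.1 ∧ (0 < a ν₀ r.1 + a ν₀ r.2 ∨ (F.ε = -1 ∧ r.2 = F.bar r.1))})
    (fun r hr => ?_) (fun ν hν => ?_) (fun ν hν => ?_) hmo fun ν hν => ?_
  · have e1 : r' * y * r * Y.e - Y.e * (r' * y * r) =
        r' * (y * (r * Y.e * r') - r * Y.e * r' * y) * r := by
      simp only [mul_sub, sub_mul, mul_assoc]
      rw [h1', mul_one, ← mul_assoc r' r, h1', one_mul]
    have e2 := Y.good (y := r' * y * r) (by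
      rw [e1]
      simpa using Fil_mul (Fil_mul h3 hy) h2)
    have e3 := Fil_mul (Fil_mul h2 e2) h3
    simp only [mul_assoc] at e3
    rwa [h1, mul_one, ← mul_assoc, h1, one_mul, add_zero, add_zero] at e3
  · rcases ho with ⟨-, h⟩ | ⟨-, h⟩
    · exact Or.inr (h5 h ⟨F.ps ⟨0, hn⟩⟩)
    · exact Or.inl (F.det h)
  · obtain ⟨-, k1, k2⟩ := Finset.mem_filter.1 hr
    exact Finset.mem_filter.2 ⟨Finset.mem_univ _,
      not_le.1 fun h => not_le.2 k1 (hmo _ r0 _ _ h), k2⟩
  · have : nil J a = {x | x ∈ lie J ∧ ∀ p q, ¬ a ν₀ q < a ν₀ p → x p q = 0} :=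
      Set.ext fun x => and_congr_right' ⟨fun h p q h' => h ν₀ r0 p q (not_lt.1 h'),
        fun h ν' hν' p q h' => h p q (not_lt.2 (hlt hν' r0 p q h'))⟩
    rw [this]
    exact coord_form F.toForm (rel := fun p q => a ν₀ q < a ν₀ p) (F.a_bar ν) (F.a_bar ν₀)
      (F.a_inj r0) (fun p q h => not_le.1 fun h' => not_le.2 h (hlt hν r0 p q h'))
      (fun p q h => by rw [F.a_bar, F.a_bar]; omega) (by simp)
  · exact coord_form F.toForm (rel := fun p q => l q < l p) (F.a_bar ν) (F.a_bar ν₀)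
      (F.a_inj r0) (fun p q h => not_le.1 fun h' => not_le.2 h (hmo ν hν p q h'))
      (fun p q h => by rw [hb, hb]; omega) (by simp)
  · refine F.prod_levi r0 hm (fun h i hi => ?_) (by simp [ν₀]) (by simp [l, ν₀])
    have := hp (F.ps i)
    simp only [l, F.a_ps, hi] at this
    rcases ho with ⟨-, h'⟩ | ⟨h', -⟩
    · rw [h'] at h
      norm_num at h
    · simp [h'] at this

end

end Pool.Agent.P.MP_5e2a31_al.L
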