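import Pool.Agent.P.MP_5e2a31_al.L.WBase

/-! Package J: Jucys-Murphy elements act on polytabloids by contents. -/

namespace Pool.Agent.P.MP_5e2a31_al.L

open Finset Equiv SemidirectProduct Pool.Agent.P.MP_1a0ecf_al
open scoped Classical

noncomputable section

variable {n : ℕ}

theorem j_inr_tt (g : Perm (Fin n)) (i : Fin n) : (inr g : HypOct n) * tt i = tt (g i) * inr g := by
  refine SemidirectProduct.ext ?_ (by simp [tt])
  funext j
  have e1 : ((inr g : HypOct n) * tt i).left j =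
      (inr g : HypOct n).left j * (tt i).left ((inr g : HypOct n).right⁻¹ j) := rfl
  have e2 : (tt (g i) * (inr g : HypOct n)).left j =
      (tt (g i)).left j * (inr g : HypOct n).left ((tt (g i)).right⁻¹ j) := rfl
  rw [e1, e2]
  simp only [tt, left_inr, right_inr, left_inl, Pi.one_apply, one_mul, mul_one, Pi.mulSingle_apply,
    Perm.inv_eq_iff_eq]

theorem j_inr_ss (g : Perm (Fin n)) (i j : Fin n) :
    (inr g : HypOct n) * ss i j = ss (g i) (g j) * inr g := by
  rw [ss, ss, ← map_mul, ← map_mul, swap_apply_apply, inv_mul_cancel_right]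

theorem j_inv (g : Perm (Fin n)) (i : Fin n) : g (g⁻¹ i) = i := by simp

section

variable {E : Type} [AddCommGroup E] [Module ℂ E] {ρ : Representation ℂ (HypOct n) E}

theorem j_tt (g : Perm (Fin n)) (i : Fin n) (x : E) :
    ρ (inr g) (ρ (tt i) x) = ρ (tt (g i)) (ρ (inr g) x) := by
  rw [← Module.End.mul_apply, ← map_mul, j_inr_tt, map_mul, Module.End.mul_apply]

theorem j_ss (g : Perm (Fin n)) (i j : Fin n) (x : E) :
    ρ (inr g) (ρ (ss i j) x) = ρ (ss (g i) (g j)) (ρ (inr g) x) := by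
  rw [← Module.End.mul_apply, ← map_mul, j_inr_ss, map_mul, Module.End.mul_apply]

theorem j_alt {κ : Type} [DecidableEq κ] (l : Fin n → κ) (x : E) :
    Alt ρ l x = ∑ g ∈ Yg univ l, sgn' g • ρ (inr g) x := by
  simp only [Alt, Sym, LinearMap.sum_apply, LinearMap.smul_apply]
  rfl

/-- the column labels -/
abbrev jcl (L : Lab n) (i : Fin n) : Bool × ℕ := (L.sd i, L.col i)

/-- the signs -/
abbrev jeta (L : Lab n) (i : Fin n) : ℂ := if L.sd i then -1 else 1

theorem j_sign (L : Lab n) {v : E} (h : ∀ i, ρ (tt i) v = jeta L i • v) (i : Fin n) :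
    ρ (tt i) (Alt ρ (jcl L) v) = jeta L i • Alt ρ (jcl L) v := by
  rw [j_alt, map_sum, smul_sum]
  refine sum_congr rfl fun g hg => ?_
  have e : L.sd (g⁻¹ i) = L.sd i := congrArg Prod.fst ((mem_Yg.1 (inv_mem_Yg hg)).2 i)
  have := j_tt (ρ := ρ) g (g⁻¹ i) v
  rw [j_inv, h, map_smul] at this
  rw [map_smul, ← this, smul_comm, jeta, jeta, e]

theorem j_col (L : Lab n) (v : E) {j k : Fin n} (h1 : L.sd j = L.sd k) (h2 : L.col j = L.col k)
    (h : j ≠ k) : ρ (ss j k) (Alt ρ (jcl L) v) = -Alt ρ (jcl L) v :=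
  apply_Sym_sgn (ρ := ρ.comp inr) (mem_univ j) (mem_univ k) (Prod.ext h1 h2) h v

theorem j_garnir (L : Lab n) {v : E}
    (hr : ∀ i j, L.sd i = L.sd j → L.row i = L.row j → ρ (ss i j) v = v) (k : Fin n) {c : ℕ}
    (hc : c < L.col k) :
    ∑ j with L.sd j = L.sd k ∧ L.col j = c, ρ (ss j k) (Alt ρ (jcl L) v) = Alt ρ (jcl L) v := by
  set C : Finset (Fin n) := {j | L.sd j = L.sd k ∧ L.col j = c} with hC
  have mC : ∀ j, j ∈ C ↔ L.sd j = L.sd k ∧ L.col j = c := fun j => by simp [hC]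
  have hk : k ∉ C := fun h => hc.ne' ((mC k).1 h).2
  have h0 : Sym (ρ.comp inr) sgn' (insert k C) (fun _ => ()) (Alt ρ (jcl L) v) = 0 := by
    rw [j_alt, map_sum]
    refine sum_eq_zero fun g hg => ?_
    have hg' := (mem_Yg.1 hg).2
    have e := hg' (g⁻¹ k)
    rw [j_inv] at e
    have e1 : L.sd k = L.sd (g⁻¹ k) := congrArg Prod.fst e
    have e2 : L.col k = L.col (g⁻¹ k) := congrArg Prod.snd e
    obtain ⟨j, a1, a2, a3⟩ := L.low (g⁻¹ k) (L.row (g⁻¹ k)) c le_rfl (e2 ▸ hc.le)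
    have b1 : L.sd (g j) = L.sd j := congrArg Prod.fst (hg' j)
    have b2 : L.col (g j) = L.col j := congrArg Prod.snd (hg' j)
    have hj : g j ∈ C := (mC _).2 ⟨b1.trans (a1.trans e1.symm), b2.trans a3⟩
    rw [map_smul, Sym_sgn_eq_zero (mem_insert_of_mem hj) (mem_insert_self k C) rfl
      (fun h => hk (h ▸ hj)), smul_zero]
    have := j_ss (ρ := ρ) g j (g⁻¹ k) v
    rw [j_inv, hr _ _ a1 a2] at this
    exact this.symm
  have h1 : Sym (ρ.comp inr) sgn' C (fun _ => ()) (Alt ρ (jcl L) v) =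
      ((Yg C fun _ => ()).card : ℂ) • Alt ρ (jcl L) v :=
    Sym_apply_of_swaps (mulOn_sgn _ _) fun x hx y hy _ hxy => by
      have := j_col (ρ := ρ) L v (((mC x).1 hx).1.trans ((mC y).1 hy).1.symm)
        (((mC x).1 hx).2.trans ((mC y).1 hy).2.symm) hxy
      rw [sgn'_swap hxy]
      change (-1 : ℂ) • ρ (ss x y) _ = _
      rw [this, neg_smul, one_smul, neg_neg]
  rw [Sym_insert hk (mulOn_sgn _ _), Module.End.mul_apply, h1, map_smul,
    smul_eq_zero_iff_right (card_Yg_ne_zero _ _), filter_true_of_mem fun _ _ => rfl, sum_insert hk,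
    LinearMap.add_apply, LinearMap.sum_apply, swap_self] at h0
  have h2 : ∑ x ∈ C, (sgn' (swap k x) • (ρ.comp inr) (swap k x)) (Alt ρ (jcl L) v) =
      -∑ x ∈ C, ρ (ss x k) (Alt ρ (jcl L) v) := by
    rw [← sum_neg_distrib]
    refine sum_congr rfl fun x hx => ?_
    rw [sgn'_swap (show k ≠ x from fun h => hk (h ▸ hx)), swap_comm, LinearMap.smul_apply, neg_smul, one_smul]
    rfl
  rw [h2, ← Perm.one_def, sgn'_one, map_one, one_smul, Module.End.one_apply, ← sub_eq_add_neg,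
    sub_eq_zero] at h0
  exact h0.symm

/-- the order in which the cells are read -/
def jkey (L : Lab n) (i : Fin n) : ℕ ×ₗ ℕ ×ₗ Bool := toLex (L.col i, toLex (L.row i, L.sd i))

theorem jkey_inj (L : Lab n) : Function.Injective (jkey L) := fun i j h => by
  simp only [jkey, toLex_inj, Prod.mk.injEq] at h
  exact L.inj i j h.2.2 h.2.1 h.1

theorem jkey_lt (L : Lab n) {j k : Fin n} (h : L.sd j = L.sd k) :
    jkey L j < jkey L k ↔ L.col j < L.col k ∨ L.col j = L.col k ∧ L.row j < L.row k := by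
  simp [jkey, Prod.Lex.toLex_lt_toLex, h]

theorem j_count (L : Lab n) (k : Fin n) :
    #{j | L.sd j = L.sd k ∧ L.col j = L.col k ∧ L.row j < L.row k} = L.row k := by
  conv_rhs => rw [← card_range (L.row k)]
  refine card_bij (fun j _ => L.row j) (fun j hj => ?_) (fun i hi j hj h => ?_) fun r hr => ?_
  · exact mem_range.2 (mem_filter.1 hj).2.2.2
  · have a := (mem_filter.1 hi).2
    have b := (mem_filter.1 hj).2
    exact L.inj i j (a.1.trans b.1.symm) h (a.2.1.trans b.2.1.symm)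
  · obtain ⟨j, a1, a2, a3⟩ := L.low k r (L.col k) (mem_range.1 hr).le le_rfl
    exact ⟨j, mem_filter.2 ⟨mem_univ _, a1, a3, a2 ▸ mem_range.1 hr⟩, a2⟩

theorem j_content (L : Lab n) {v : E}
    (hr : ∀ i j, L.sd i = L.sd j → L.row i = L.row j → ρ (ss i j) v = v) (k : Fin n) :
    ∑ j with jkey L j < jkey L k ∧ L.sd j = L.sd k, ρ (ss j k) (Alt ρ (jcl L) v) =
      ((L.col k : ℂ) - L.row k) • Alt ρ (jcl L) v := by
  have e : ({j | jkey L j < jkey L k ∧ L.sd j = L.sd k} : Finset (Fin n)) =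
      ({j | L.sd j = L.sd k ∧ L.col j < L.col k} : Finset (Fin n)) ∪
        ({j | L.sd j = L.sd k ∧ L.col j = L.col k ∧ L.row j < L.row k} : Finset (Fin n)) := by
    ext j
    simp only [mem_filter, mem_univ, true_and, mem_union]
    by_cases h : L.sd j = L.sd k
    · simp [jkey_lt L h, h]
    · simp [h]
  rw [e, sum_union (disjoint_filter.2 fun j _ a b => a.2.ne b.2.1), sub_smul, sub_eq_add_neg]
  congr 1
  · rw [← sum_fiberwise_of_maps_to (t := range (L.col k)) (g := L.col)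
      (fun j hj => mem_range.2 (mem_filter.1 hj).2.2),
      sum_congr rfl (g := fun _ => Alt ρ (jcl L) v) fun c hc => ?_]
    · rw [sum_const, card_range, Nat.cast_smul_eq_nsmul]
    · rw [← j_garnir L hr k (mem_range.1 hc), j_garnir L hr k (mem_range.1 hc)]
      conv_rhs => rw [← j_garnir L hr k (mem_range.1 hc)]
      refine sum_congr ?_ fun _ _ => rfl
      ext j
      simp only [mem_filter, mem_univ, true_and]
      exact ⟨fun h => ⟨h.1.1, h.2⟩, fun h => ⟨⟨h.1, h.2 ▸ mem_range.1 hc⟩, h.2⟩⟩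
  · rw [sum_congr rfl (g := fun _ => -Alt ρ (jcl L) v) fun j hj => ?_]
    · rw [sum_const, j_count, smul_neg, Nat.cast_smul_eq_nsmul]
    · have a := (mem_filter.1 hj).2
      exact j_col L v a.1 a.2.1 fun h => a.2.2.ne (congrArg L.row h)

theorem j_ev (L : Lab n) {v : E} {α β : ℂ}
    (hs : (α = 0 ∧ β = 0 ∧ ∀ i j, L.sd i = L.sd j) ∨
      (α = 1 ∧ ∀ i, ρ (tt i) v = (if L.sd i then -1 else 1 : ℂ) • v))
    (hr : ∀ i j, L.sd i = L.sd j → L.row i = L.row j → ρ (ss i j) v = v) (k : Fin n) :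
    ∑ j with jkey L j < jkey L k, (ρ (ss j k) (Alt ρ (jcl L) v) +
      α • ρ (tt j) (ρ (tt k) (ρ (ss j k) (Alt ρ (jcl L) v)))) + β • ρ (tt k) (Alt ρ (jcl L) v) =
      L.ev α β k • Alt ρ (jcl L) v := by
  have key := j_content L hr k
  rcases hs with ⟨rfl, rfl, h⟩ | ⟨rfl, h⟩
  · simp only [h _ k, and_true] at key
    simp only [zero_smul, add_zero, key, Lab.ev, one_mul, zero_mul]
  · have h' := j_sign L h
    rw [Lab.ev, add_smul, mul_smul, mul_smul, ← key, h', ← filter_filter, sum_filter (s := filter _ _),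
      smul_sum]
    congr 1
    refine sum_congr rfl fun j _ => ?_
    have a1 := j_tt (ρ := ρ) (swap j k) j (Alt ρ (jcl L) v)
    have a2 := j_tt (ρ := ρ) (swap j k) k (Alt ρ (jcl L) v)
    rw [swap_apply_left, h', map_smul] at a1
    rw [swap_apply_right, h', map_smul] at a2
    change ρ (inr (swap j k)) _ + (1 : ℂ) • ρ (tt j) (ρ (tt k) (ρ (inr (swap j k)) _)) =
      (1 + 1 : ℂ) • if _ then ρ (inr (swap j k)) _ else 0
    rw [← a1, map_smul, ← a2, one_smul, smul_smul]
    unfold jeta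
    rcases hj : L.sd j <;> rcases hk : L.sd k <;> simp [add_smul]

theorem j_cen {α β : ℂ} (hc : Cen n α β) (k : ℕ) (g : Perm (Fin n)) (x : E) :
    ρ (inr g) (ρ.asAlgebraHom (psum n α β k) x) = ρ.asAlgebraHom (psum n α β k) (ρ (inr g) x) := by
  have := congrArg ρ.asAlgebraHom (hc k g)
  rw [map_mul, map_mul, Representation.asAlgebraHom_of] at this
  exact congr($this x)

theorem j_col_scalar (L : Lab n) {v : E} {α β : ℂ}
    (hs : (α = 0 ∧ β = 0 ∧ ∀ i j, L.sd i = L.sd j) ∨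
      (α = 1 ∧ ∀ i, ρ (tt i) v = (if L.sd i then -1 else 1 : ℂ) • v))
    (hr : ∀ i j, L.sd i = L.sd j → L.row i = L.row j → ρ (ss i j) v = v) (hc : Cen n α β) (k : ℕ) :
    ρ.asAlgebraHom (psum n α β k) (Alt ρ (jcl L) v) = (∑ i, L.ev α β i ^ k) • Alt ρ (jcl L) v := by
  set π : Perm (Fin n) := Tuple.sort (jkey L) with hπ
  have mono : StrictMono (jkey L ∘ π) :=
    (Tuple.monotone_sort _).strictMono_of_injective ((jkey_inj L).comp π.injective)
  have inj : Function.Injective (ρ (inr π)) := fun x y h => by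
    have := congrArg (ρ (inr π⁻¹)) h
    simpa only [← Module.End.mul_apply, ← map_mul, inv_mul_cancel, map_one,
      Module.End.one_apply] using this
  set w := ρ (inr π⁻¹) (Alt ρ (jcl L) v) with hw
  have hw' : ρ (inr π) w = Alt ρ (jcl L) v := by
    rw [hw, ← Module.End.mul_apply, ← map_mul, ← map_mul, mul_inv_cancel, map_one, map_one,
      Module.End.one_apply]
  have h1 : ∀ i, ρ.asAlgebraHom (ju α β i) w = L.ev α β (π i) • w := fun i => by
    refine inj ?_
    rw [map_smul, hw', ← j_ev L hs hr (π i)]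
    simp only [ju, map_add, map_sum, map_smul, map_mul, Representation.asAlgebraHom_of,
      LinearMap.add_apply, LinearMap.sum_apply, LinearMap.smul_apply, Module.End.mul_apply, j_tt,
      j_ss, hw']
    congr 1
    refine sum_bij (fun j _ => π j) (fun j hj => ?_) (fun a _ b _ h => π.injective h)
      (fun j hj => ⟨π⁻¹ j, ?_, by simp⟩) fun _ _ => rfl
    · exact mem_filter.2 ⟨mem_univ _, mono (mem_filter.1 hj).2⟩
    · refine mem_filter.2 ⟨mem_univ _, mono.lt_iff_lt.1 ?_⟩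
      simpa using (mem_filter.1 hj).2
  have h2 : ∀ i m, (ρ.asAlgebraHom (ju α β i) ^ m) w = L.ev α β (π i) ^ m • w := fun i m => by
    induction m with
    | zero => simp
    | succ m ih => rw [pow_succ', Module.End.mul_apply, ih, map_smul, h1, smul_smul, pow_succ]
  rw [← hw', ← j_cen hc, ← map_smul]
  congr 1
  rw [psum, map_sum, LinearMap.sum_apply,
    ← Equiv.sum_comp π fun i => L.ev α β i ^ k, sum_smul]
  exact sum_congr rfl fun i _ => by rw [map_pow, h2]

end

theorem jm_scalar {E κ : Type} [AddCommGroup E] [Module ℂ E] [DecidableEq κ]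
    (ρ : Representation ℂ (HypOct n) E) (L : Lab n) {v : E} {α β : ℂ}
    (hs : (α = 0 ∧ β = 0 ∧ ∀ i j, L.sd i = L.sd j) ∨
      (α = 1 ∧ ∀ i, ρ (tt i) v = (if L.sd i then -1 else 1 : ℂ) • v))
    (hr : ∀ i j, L.sd i = L.sd j → L.row i = L.row j → ρ (ss i j) v = v) (hc : Cen n α β)
    {l : Fin n → κ} (hl : ∀ i j, L.sd i = L.sd j → L.col i = L.col j → l i = l j) (k : ℕ) :
    ρ.asAlgebraHom (psum n α β k) (Alt ρ l v) = (∑ i, L.ev α β i ^ k) • Alt ρ l v := by
  have h1 : Alt ρ l (Alt ρ (jcl L) v) = ((Yg univ (jcl L)).card : ℂ) • Alt ρ l v := by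
    rw [j_alt (jcl L), map_sum, sum_congr rfl (g := fun _ => Alt ρ l v) fun g hg => ?_]
    · rw [sum_const, Nat.cast_smul_eq_nsmul]
    · have hg' : g ∈ Yg univ l := mem_Yg.2 ⟨(mem_Yg.1 hg).1, fun x =>
        hl _ _ (congrArg Prod.fst ((mem_Yg.1 hg).2 x)) (congrArg Prod.snd ((mem_Yg.1 hg).2 x))⟩
      rw [map_smul]
      exact congr($(Sym_mul (ρ := ρ.comp inr) (mulOn_sgn univ l) hg') v)
  have h2 : ∀ x, ρ.asAlgebraHom (psum n α β k) (Alt ρ l x) =
      Alt ρ l (ρ.asAlgebraHom (psum n α β k) x) := fun x => by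
    rw [j_alt, j_alt, map_sum]
    exact sum_congr rfl fun g _ => by rw [map_smul, j_cen hc]
  refine smul_right_injective E (card_Yg_ne_zero univ (jcl L)) ?_
  beta_reduce
  rw [← map_smul, ← h1, h2, j_col_scalar L hs hr hc, map_smul, h1, smul_comm]

end

end Pool.Agent.P.MP_5e2a31_al.L
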