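import Pool.Agent.P.MP_5e2a31_al.L.Base

/-! Package N1: nilpotent matrices with the same ranks of all powers are conjugate. -/

namespace Pool.Agent.P.MP_5e2a31_al.L

section
open Module

theorem n1_factor {K A B C : Type} [Field K] [AddCommGroup A] [Module K A] [AddCommGroup B]
    [Module K B] [AddCommGroup C] [Module K C] (f : A →ₗ[K] B) (t : A →ₗ[K] C)
    (h : LinearMap.ker f ≤ LinearMap.ker t) : ∃ g : B →ₗ[K] C, ∀ a, g (f a) = t a := by
  obtain ⟨g, hg⟩ := LinearMap.exists_extend
    (((LinearMap.ker f).liftQ t h).comp f.quotKerEquivRange.symm.toLinearMap)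
  refine ⟨g, fun a => ?_⟩
  have := LinearMap.congr_fun hg ⟨f a, a, rfl⟩
  simp only [LinearMap.comp_apply, Submodule.subtype_apply, LinearEquiv.coe_coe] at this
  rw [this, LinearMap.quotKerEquivRange_symm_apply_image]
  rfl

theorem n1_inj {K A B : Type} [Field K] [AddCommGroup A] [Module K A] [AddCommGroup B]
    [Module K B] [FiniteDimensional K A] [FiniteDimensional K B] (h : finrank K A = finrank K B)
    (S : Submodule K A) (f : A →ₗ[K] B) (hf : ∀ s ∈ S, f s = 0 → s = 0) :
    ∃ g : A ≃ₗ[K] B, ∀ s ∈ S, g s = f s := by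
  let e := LinearEquiv.ofFinrankEq A B h
  let f' : S →ₗ[K] A := e.symm.toLinearMap ∘ₗ f ∘ₗ S.subtype
  have hi : Function.Injective f' := by
    rw [← LinearMap.ker_eq_bot, LinearMap.ker_eq_bot']
    intro s hs
    exact Subtype.ext (hf s s.2 (by simpa [f'] using hs))
  obtain ⟨g, hg⟩ := Submodule.exists_linearEquiv_restrict_eq (LinearEquiv.ofInjective f' hi)
  refine ⟨g.trans e, fun s hs => ?_⟩
  have := hg ⟨s, hs⟩
  simp only [LinearEquiv.ofInjective_apply] at this
  simp only [LinearEquiv.trans_apply, ← this, f']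
  simp

theorem n1_range {K V : Type} [Field K] [AddCommGroup V] [Module K V] (x : End K V)
    (hx : ∀ v ∈ LinearMap.range x, x v ∈ LinearMap.range x) (i : ℕ) :
    finrank K (LinearMap.range ((x.restrict hx : End K _) ^ i)) =
      finrank K (LinearMap.range (x ^ (i + 1))) := by
  rw [← Submodule.finrank_map_subtype_eq]
  refine congrArg (fun S : Submodule K V => finrank K S) ?_
  rw [Module.End.pow_restrict]
  ext v
  simp only [Submodule.mem_map, LinearMap.mem_range, pow_succ, Module.End.mul_apply]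
  constructor
  · rintro ⟨_, ⟨⟨_, u, rfl⟩, rfl⟩, rfl⟩
    exact ⟨u, rfl⟩
  · rintro ⟨u, rfl⟩
    exact ⟨_, ⟨⟨x u, u, rfl⟩, rfl⟩, rfl⟩

theorem n1_end {K : Type} [Field K] (n : ℕ) : ∀ (V V' : Type) [AddCommGroup V] [Module K V]
    [AddCommGroup V'] [Module K V'] [FiniteDimensional K V] [FiniteDimensional K V']
    (x : End K V) (y : End K V'), finrank K V = n → IsNilpotent x →
    (∀ i, finrank K (LinearMap.range (x ^ i)) = finrank K (LinearMap.range (y ^ i))) →
    ∃ φ : V ≃ₗ[K] V', ∀ v, φ (x v) = y (φ v) := by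
  induction n using Nat.strong_induction_on with
  | _ n ih =>
  intro V V' _ _ _ _ _ _ x y hn hx h
  have h0 : finrank K V = finrank K V' := by
    have := h 0
    rwa [pow_zero, pow_zero, Module.End.one_eq_id, Module.End.one_eq_id, LinearMap.range_id,
      LinearMap.range_id, finrank_top, finrank_top] at this
  have h1 : finrank K (LinearMap.range x) = finrank K (LinearMap.range y) := by
    have := h 1
    rwa [pow_one, pow_one] at this
  rcases subsingleton_or_nontrivial V with hV | hV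
  · let e := LinearEquiv.ofFinrankEq V V' h0
    have := e.symm.subsingleton
    exact ⟨e, fun v => Subsingleton.elim _ _⟩
  have hlt : finrank K (LinearMap.range x) < n := by
    rw [← hn]
    refine Submodule.finrank_lt fun ht => ?_
    have hu : IsUnit x := (LinearMap.isUnit_iff_range_eq_top x).2 ht
    exact hx.not_isUnit hu
  have mx : ∀ v ∈ LinearMap.range x, x v ∈ LinearMap.range x := fun v _ => ⟨v, rfl⟩
  have my : ∀ v ∈ LinearMap.range y, y v ∈ LinearMap.range y := fun v _ => ⟨v, rfl⟩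
  obtain ⟨ψ, hψ⟩ := ih _ hlt (LinearMap.range x) (LinearMap.range y) (x.restrict mx)
    (y.restrict my) rfl (Module.End.isNilpotent.restrict mx hx) fun i => by
      rw [n1_range, n1_range, h]
  obtain ⟨φ₀, e₀⟩ := Module.projective_lifting_property y.rangeRestrict
    (ψ.toLinearMap ∘ₗ x.rangeRestrict) y.surjective_rangeRestrict
  have e₀' : ∀ v, y (φ₀ v) = (ψ ⟨x v, v, rfl⟩ : V') := fun v =>
    congrArg Subtype.val (LinearMap.congr_fun e₀ v)
  obtain ⟨D, hD⟩ := LinearMap.exists_extend (LinearMap.codRestrict (LinearMap.ker y)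
    ((LinearMap.range y).subtype ∘ₗ ψ.toLinearMap - φ₀ ∘ₗ (LinearMap.range x).subtype)
    fun w => by
      have := congrArg Subtype.val (hψ w)
      simp only [LinearMap.mem_ker, LinearMap.sub_apply, LinearMap.comp_apply, map_sub, e₀']
      exact sub_eq_zero.2 this.symm)
  let φ₁ : V →ₗ[K] V' := φ₀ + (LinearMap.ker y).subtype ∘ₗ D
  have a₁ : ∀ v, y (φ₁ v) = (ψ ⟨x v, v, rfl⟩ : V') := fun v => by
    have : y (D v) = 0 := (D v).2
    simp [φ₁, e₀', this]
  have b₁ : ∀ w : LinearMap.range x, φ₁ w = (ψ w : V') := fun w => by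
    have : (D w : V') = ψ w - φ₀ w := congrArg Subtype.val (LinearMap.congr_fun hD w)
    simp [φ₁, this]
  have hk : finrank K (LinearMap.ker x) = finrank K (LinearMap.ker y) := by
    have := x.finrank_range_add_finrank_ker
    have := y.finrank_range_add_finrank_ker
    omega
  have mk : ∀ v ∈ LinearMap.ker x, φ₁ v ∈ LinearMap.ker y := fun v hv => by
    have : (⟨x v, v, rfl⟩ : LinearMap.range x) = 0 := Subtype.ext hv
    rw [LinearMap.mem_ker, a₁, this, map_zero, Submodule.coe_zero]
  obtain ⟨ρ, hρ⟩ := n1_inj hk ((LinearMap.range x).comap (LinearMap.ker x).subtype)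
    (φ₁.restrict mk) fun s hs h => by
      have e1 : φ₁ s = 0 := congrArg Subtype.val h
      have e2 := b₁ ⟨s, hs⟩
      have e3 : ψ ⟨s, hs⟩ = 0 := Subtype.ext (e2.symm.trans e1)
      have e4 : (s : V) = 0 := congrArg Subtype.val (ψ.map_eq_zero_iff.1 e3)
      exact Subtype.ext e4
  obtain ⟨θ, hθ⟩ := n1_factor ((LinearMap.range x).mkQ ∘ₗ (LinearMap.ker x).subtype)
    (ρ.toLinearMap - φ₁.restrict mk) fun s hs => by
      have : (s : V) ∈ LinearMap.range x := by simpa using hs
      exact sub_eq_zero.2 (hρ s this)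
  let φ : V →ₗ[K] V' := φ₁ + (LinearMap.ker y).subtype ∘ₗ θ ∘ₗ (LinearMap.range x).mkQ
  have a₂ : ∀ v, y (φ v) = (ψ ⟨x v, v, rfl⟩ : V') := fun v => by
    have : y (θ ((LinearMap.range x).mkQ v)) = 0 := (θ _).2
    simp only [φ, LinearMap.add_apply, map_add, a₁, LinearMap.comp_apply, Submodule.subtype_apply,
      this, add_zero]
  have b₂ : ∀ v, φ (x v) = (ψ ⟨x v, v, rfl⟩ : V') := fun v => by
    have : (LinearMap.range x).mkQ (x v) = 0 := by simp
    simp only [φ, LinearMap.add_apply, LinearMap.comp_apply, this, map_zero, add_zero]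
    exact b₁ ⟨x v, v, rfl⟩
  have hi : Function.Injective φ := by
    rw [← LinearMap.ker_eq_bot, LinearMap.ker_eq_bot']
    intro v hv
    have e1 : ψ ⟨x v, v, rfl⟩ = 0 := Subtype.ext (by rw [← a₂, hv, map_zero]; rfl)
    have e2 : v ∈ LinearMap.ker x := congrArg Subtype.val (ψ.map_eq_zero_iff.1 e1)
    have e3 : (θ ((LinearMap.range x).mkQ v) : V') = ρ ⟨v, e2⟩ - φ₁ v :=
      congrArg Subtype.val (hθ ⟨v, e2⟩)
    have e4 : ρ ⟨v, e2⟩ = 0 := Subtype.ext (by
      simp only [φ, LinearMap.add_apply, LinearMap.comp_apply, Submodule.subtype_apply, e3] at hv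
      simpa using hv)
    exact congrArg Subtype.val (ρ.map_eq_zero_iff.1 e4)
  exact ⟨LinearEquiv.ofInjectiveOfFinrankEq φ hi h0, fun v => (b₂ v).trans (a₂ v).symm⟩

end

open Matrix Finset
open scoped Classical

noncomputable section

variable {ι : Type} [Fintype ι] [DecidableEq ι] {n : ℕ}

theorem conj_of_rank {x y : Matrix ι ι ℂ} (hx : IsNilpotent x)
    (h : ∀ i, (x ^ i).rank = (y ^ i).rank) :
    ∃ g : Matrix ι ι ℂ, IsUnit g.det ∧ g * x = y * g := by
  obtain ⟨φ, hφ⟩ := n1_end _ (ι → ℂ) (ι → ℂ) (Matrix.toLin' x) (Matrix.toLin' y) rfl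
    (hx.map Matrix.toLinAlgEquiv') fun i => by
      rw [← Matrix.toLin'_pow, ← Matrix.toLin'_pow]
      exact h i
  refine ⟨LinearMap.toMatrix' φ.toLinearMap, ?_, ?_⟩
  · rw [LinearMap.det_toMatrix']
    exact LinearEquiv.isUnit_det' φ
  · apply Matrix.toLin'.injective
    rw [Matrix.toLin'_mul, Matrix.toLin'_mul, Matrix.toLin'_toMatrix']
    exact LinearMap.ext hφ

end

end Pool.Agent.P.MP_5e2a31_al.L
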