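import Pool.Agent.P.MP_5e2a31_al.L.Base

/-! Package N3: block numbers, solvable centralisers in type A. -/

namespace Pool.Agent.P.MP_5e2a31_al.L

open Matrix Finset
open scoped Classical

noncomputable section

variable {ι : Type} [Fintype ι] [DecidableEq ι] {n : ℕ}

/-- the range of `e ^ i` -/
def n3R (e : Matrix ι ι ℂ) (i : ℕ) : Submodule ℂ (ι → ℂ) := LinearMap.range (e ^ i).mulVecLin

/-- the intersection of the kernel of `e` with the range of `e ^ i` -/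
def n3S (e : Matrix ι ι ℂ) (i : ℕ) : Submodule ℂ (ι → ℂ) := n3R e i ⊓ LinearMap.ker e.mulVecLin

theorem n3_mem_R {e : Matrix ι ι ℂ} {i : ℕ} {s : ι → ℂ} : s ∈ n3R e i ↔ ∃ u, (e ^ i) *ᵥ u = s :=
  Iff.rfl

theorem n3_mem_S {e : Matrix ι ι ℂ} {i : ℕ} {s : ι → ℂ} :
    s ∈ n3S e i ↔ (∃ u, (e ^ i) *ᵥ u = s) ∧ e *ᵥ s = 0 := Iff.rfl

theorem n3_R_succ (e : Matrix ι ι ℂ) (i : ℕ) : n3R e (i + 1) = (n3R e i).map e.mulVecLin := by
  rw [n3R, n3R, pow_succ', mulVecLin_mul, LinearMap.range_comp]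

theorem n3_R_anti (e : Matrix ι ι ℂ) (i : ℕ) : n3R e (i + 1) ≤ n3R e i := by
  rw [n3R, n3R, pow_succ, mulVecLin_mul]
  exact LinearMap.range_comp_le_range _ _

theorem n3_S_anti (e : Matrix ι ι ℂ) (i : ℕ) : n3S e (i + 1) ≤ n3S e i :=
  inf_le_inf_right _ (n3_R_anti e i)

theorem n3_rank (e : Matrix ι ι ℂ) (i : ℕ) :
    (e ^ i).rank = (e ^ (i + 1)).rank + Module.finrank ℂ (n3S e i) := by
  have h := LinearMap.finrank_range_add_finrank_ker (e.mulVecLin.domRestrict (n3R e i))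
  rw [LinearMap.range_domRestrict, LinearMap.ker_domRestrict, ← n3_R_succ,
    ← Submodule.finrank_map_subtype_eq, Submodule.map_comap_subtype] at h
  exact h.symm

theorem n3_finrank_S (e : Matrix ι ι ℂ) (i : ℕ) : Module.finrank ℂ (n3S e i) = dd e i := by
  have := n3_rank e i
  unfold dd
  omega

theorem rank_dd (e : Matrix ι ι ℂ) (i : ℕ) : (e ^ i).rank = (e ^ (i + 1)).rank + dd e i := by
  rw [← n3_finrank_S]
  exact n3_rank e i

theorem dd_anti (e : Matrix ι ι ℂ) (i : ℕ) : dd e (i + 1) ≤ dd e i := by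
  rw [← n3_finrank_S, ← n3_finrank_S]
  exact Submodule.finrank_mono (n3_S_anti e i)

theorem dd_sum (e : Matrix ι ι ℂ) (i : ℕ) :
    (e ^ i).rank + ∑ j ∈ range i, dd e j = Fintype.card ι := by
  induction i with
  | zero => simp
  | succ i ih =>
    have := rank_dd e i
    rw [Finset.sum_range_succ]
    omega

theorem pow_card_eq_zero {e : Matrix ι ι ℂ} (he : IsNilpotent e) {i : ℕ}
    (hi : Fintype.card ι ≤ i) : e ^ i = 0 := by
  have h1 := sub_eq_zero.1 (Matrix.isNilpotent_charpoly_sub_pow_of_isNilpotent he).eq_zero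
  have h2 := e.aeval_self_charpoly
  rw [h1, map_pow, Polynomial.aeval_X] at h2
  exact pow_eq_zero_of_le hi h2

theorem dd_zero {e : Matrix ι ι ℂ} (he : IsNilpotent e) {i : ℕ} (hi : Fintype.card ι ≤ i) :
    dd e i = 0 := by
  simp [dd, pow_card_eq_zero he hi]

omit [DecidableEq ι] in
/-- If the elements `X a` of `A` preserve `S` and each of them is, on `S`, a multiple of a
commutator of two of them, then solvability of `A` forces all of them to vanish on `S`. -/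
theorem not_solv {α : Type} {A : Set (Matrix ι ι ℂ)} {S : Submodule ℂ (ι → ℂ)}
    (X : α → Matrix ι ι ℂ) (hA : ∀ a, X a ∈ A) (hS : ∀ a, ∀ s ∈ S, X a *ᵥ s ∈ S)
    (hc : ∀ a, ∃ b b' : α, ∃ c : ℂ, ∀ s ∈ S,
      X a *ᵥ s = c • (X b *ᵥ (X b' *ᵥ s) - X b' *ᵥ (X b *ᵥ s)))
    (h : ∃ k, der A k = ⊥) (a : α) : ∀ s ∈ S, X a *ᵥ s = 0 := by
  have key : ∀ k a, ∃ y ∈ der A k, ∀ s ∈ S, y *ᵥ s = X a *ᵥ s := by
    intro k
    induction k with
    | zero => exact fun a => ⟨X a, Submodule.subset_span (hA a), fun _ _ => rfl⟩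
    | succ k ih =>
      intro a
      obtain ⟨b, b', c, hb⟩ := hc a
      obtain ⟨y, hy, hy'⟩ := ih b
      obtain ⟨z, hz, hz'⟩ := ih b'
      refine ⟨c • (y * z - z * y), Submodule.smul_mem _ _
        (Submodule.subset_span ⟨y, hy, z, hz, rfl⟩), fun s hs => ?_⟩
      rw [hb s hs, smul_mulVec, sub_mulVec, ← mulVec_mulVec, ← mulVec_mulVec, hz' s hs, hy' s hs,
        hy' _ (hS b' s hs), hz' _ (hS b s hs)]
  obtain ⟨k, hk⟩ := h
  obtain ⟨y, hy, hy'⟩ := key k a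
  rw [hk, Submodule.mem_bot] at hy
  intro s hs
  rw [← hy' s hs, hy, zero_mulVec]

/-- the element of the centraliser of `e` attached to a vector and a functional -/
def n3phi (e : Matrix ι ι ℂ) (i : ℕ) (v xi : ι → ℂ) : Matrix ι ι ℂ :=
  ∑ a ∈ range (i + 1), e ^ (i - a) * vecMulVec v xi * e ^ a

theorem n3phi_comm {e : Matrix ι ι ℂ} {i : ℕ} {v xi : ι → ℂ} (hv : (e ^ (i + 1)) *ᵥ v = 0)
    (hx : xi ᵥ* (e ^ (i + 1)) = 0) : n3phi e i v xi * e = e * n3phi e i v xi := by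
  set g : ℕ → Matrix ι ι ℂ := fun a => e ^ (i + 1 - a) * vecMulVec v xi * e ^ a with hg
  have h1 : n3phi e i v xi * e = ∑ a ∈ range (i + 1), g (a + 1) := by
    rw [n3phi, Finset.sum_mul]
    refine Finset.sum_congr rfl fun a _ => ?_
    simp only [hg]
    rw [Nat.add_sub_add_right, pow_succ e a, mul_assoc (_ * _)]
  have h2 : e * n3phi e i v xi = ∑ a ∈ range (i + 1), g a := by
    rw [n3phi, Finset.mul_sum]
    refine Finset.sum_congr rfl fun a ha => ?_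
    simp only [hg]
    rw [show i + 1 - a = i - a + 1 by have := Finset.mem_range.1 ha; omega, pow_succ',
      ← mul_assoc, ← mul_assoc]
  have g0 : g 0 = 0 := by
    simp only [hg]
    rw [Nat.sub_zero, mul_vecMulVec, hv, zero_vecMulVec, zero_mul]
  have g1 : g (i + 1) = 0 := by
    simp only [hg]
    rw [mul_assoc, vecMulVec_mul, hx, vecMulVec_zero, mul_zero]
  have h3 := Finset.sum_range_succ g (i + 1)
  have h4 := Finset.sum_range_succ' g (i + 1)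
  rw [g1, add_zero] at h3
  rw [g0, add_zero] at h4
  rw [h1, h2, ← h3, ← h4]

theorem n3phi_mulVec {e : Matrix ι ι ℂ} (i : ℕ) (v xi : ι → ℂ) {s : ι → ℂ} (hs : e *ᵥ s = 0) :
    n3phi e i v xi *ᵥ s = (xi ⬝ᵥ s) • (e ^ i) *ᵥ v := by
  rw [n3phi, sum_mulVec, Finset.sum_range_succ', Finset.sum_eq_zero, zero_add]
  · rw [pow_zero, mul_one, Nat.sub_zero, mul_vecMulVec, vecMulVec_mulVec, op_smul_eq_smul]
  · intro a _
    rw [pow_succ e a, ← mulVec_mulVec, ← mulVec_mulVec s, hs, mulVec_zero, mulVec_zero]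

theorem n3phi_trace (e : Matrix ι ι ℂ) (i : ℕ) (v xi : ι → ℂ) :
    (n3phi e i v xi).trace = (i + 1 : ℂ) * (xi ⬝ᵥ (e ^ i) *ᵥ v) := by
  rw [n3phi, trace_sum, Finset.sum_congr rfl (g := fun _ => xi ⬝ᵥ (e ^ i) *ᵥ v)]
  · simp
  · intro a ha
    rw [trace_mul_comm, ← mul_assoc, ← pow_add,
      show a + (i - a) = i by have := Finset.mem_range.1 ha; omega, mul_vecMulVec,
      trace_vecMulVec, dotProduct_comm]

/-- a functional that kills `P` and takes the value one at a vector outside `P` -/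
theorem n3_dual {P : Submodule ℂ (ι → ℂ)} {s : ι → ℂ} (hs : s ∉ P) :
    ∃ xi : ι → ℂ, xi ⬝ᵥ s = 1 ∧ ∀ t ∈ P, xi ⬝ᵥ t = 0 := by
  obtain ⟨f, hf, hP⟩ := Submodule.exists_le_ker_of_notMem hs
  obtain ⟨x, rfl⟩ := (dotProductEquiv ℂ ι).surjective f
  have hf' : x ⬝ᵥ s ≠ 0 := hf
  refine ⟨(x ⬝ᵥ s)⁻¹ • x, by rw [smul_dotProduct, smul_eq_mul, inv_mul_cancel₀ hf'],
    fun t ht => ?_⟩
  have : x ⬝ᵥ t = 0 := hP ht
  rw [smul_dotProduct, this, smul_zero]

theorem n3_vecMul {e : Matrix ι ι ℂ} {i : ℕ} {xi : ι → ℂ} (h : ∀ t ∈ n3R e i, xi ⬝ᵥ t = 0) :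
    xi ᵥ* (e ^ i) = 0 := by
  ext j
  have := h _ ⟨Pi.single j 1, rfl⟩
  rw [mulVecLin_apply, dotProduct_mulVec, dotProduct_single, mul_one] at this
  exact this

theorem n3_two {e : Matrix ι ι ℂ}
    (h : ∃ k, der {x | x ∈ lie (0 : Matrix ι ι ℂ) ∧ x * e = e * x} k = ⊥) (i : ℕ)
    {s1 s2 : ι → ℂ} (h1 : s1 ∈ n3S e i) (h2 : s2 ∈ n3S e i) (n1 : s1 ∉ n3R e (i + 1)) :
    s2 ∈ n3R e (i + 1) ⊔ Submodule.span ℂ {s1} := by
  by_contra n2
  have n1' : s1 ∉ n3R e (i + 1) ⊔ Submodule.span ℂ {s2} := by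
    intro hm
    obtain ⟨r, hr, t, ht, hrt⟩ := Submodule.mem_sup.1 hm
    obtain ⟨c, rfl⟩ := Submodule.mem_span_singleton.1 ht
    by_cases hc : c = 0
    · rw [hc, zero_smul, add_zero] at hrt
      exact n1 (hrt ▸ hr)
    · refine n2 (Submodule.mem_sup.2 ⟨-(c⁻¹ • r), Submodule.neg_mem _ (Submodule.smul_mem _ _ hr),
        c⁻¹ • s1, Submodule.smul_mem _ _ (Submodule.mem_span_singleton_self _), ?_⟩)
      rw [← hrt, smul_add, smul_smul, inv_mul_cancel₀ hc, one_smul, neg_add_cancel_left]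
  obtain ⟨x1, x11, hx1⟩ := n3_dual n1'
  obtain ⟨x2, x22, hx2⟩ := n3_dual n2
  have x12 : x1 ⬝ᵥ s2 = 0 :=
    hx1 _ (Submodule.mem_sup_right (Submodule.mem_span_singleton_self _))
  have x21 : x2 ⬝ᵥ s1 = 0 :=
    hx2 _ (Submodule.mem_sup_right (Submodule.mem_span_singleton_self _))
  have y1 := n3_vecMul fun t ht => hx1 t (Submodule.mem_sup_left ht)
  have y2 := n3_vecMul fun t ht => hx2 t (Submodule.mem_sup_left ht)
  obtain ⟨⟨v1, hv1⟩, k1⟩ := n3_mem_S.1 h1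
  obtain ⟨⟨v2, hv2⟩, k2⟩ := n3_mem_S.1 h2
  have z1 : (e ^ (i + 1)) *ᵥ v1 = 0 := by rw [pow_succ', ← mulVec_mulVec, hv1, k1]
  have z2 : (e ^ (i + 1)) *ᵥ v2 = 0 := by rw [pow_succ', ← mulVec_mulVec, hv2, k2]
  set S : Submodule ℂ (ι → ℂ) := LinearMap.ker e.mulVecLin with hS
  have mS : ∀ {s}, s ∈ S ↔ e *ᵥ s = 0 := Iff.rfl
  let X : Fin 3 → Matrix ι ι ℂ :=
    ![n3phi e i v1 x2, n3phi e i v2 x1, n3phi e i v1 x1 - n3phi e i v2 x2]
  have aE : ∀ s ∈ S, X 0 *ᵥ s = (x2 ⬝ᵥ s) • s1 := fun s hs => by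
    rw [← hv1]; exact n3phi_mulVec i v1 x2 (mS.1 hs)
  have aF : ∀ s ∈ S, X 1 *ᵥ s = (x1 ⬝ᵥ s) • s2 := fun s hs => by
    rw [← hv2]; exact n3phi_mulVec i v2 x1 (mS.1 hs)
  have aH : ∀ s ∈ S, X 2 *ᵥ s = (x1 ⬝ᵥ s) • s1 - (x2 ⬝ᵥ s) • s2 := fun s hs => by
    have : X 2 = n3phi e i v1 x1 - n3phi e i v2 x2 := rfl
    rw [this, sub_mulVec, n3phi_mulVec i v1 x1 (mS.1 hs), n3phi_mulVec i v2 x2 (mS.1 hs), hv1, hv2]
  have m1 : s1 ∈ S := mS.2 k1
  have m2 : s2 ∈ S := mS.2 k2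
  have pE : ∀ s ∈ S, X 0 *ᵥ s ∈ S := fun s hs => by rw [aE s hs]; exact S.smul_mem _ m1
  have pF : ∀ s ∈ S, X 1 *ᵥ s ∈ S := fun s hs => by rw [aF s hs]; exact S.smul_mem _ m2
  have pH : ∀ s ∈ S, X 2 *ᵥ s ∈ S := fun s hs => by
    rw [aH s hs]; exact S.sub_mem (S.smul_mem _ m1) (S.smul_mem _ m2)
  have lz : ∀ x : Matrix ι ι ℂ, x.trace = 0 → x ∈ lie (0 : Matrix ι ι ℂ) := fun x hx =>
    ⟨hx, by simp⟩
  have main := not_solv (S := S) X ?_ ?_ ?_ h 0 s2 m2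
  · rw [aE s2 m2, x22, one_smul] at main
    exact n1 (main ▸ Submodule.zero_mem _)
  · intro a
    fin_cases a
    · exact ⟨lz _ (by
        show (n3phi e i v1 x2).trace = 0
        rw [n3phi_trace, hv1, x21, mul_zero]), n3phi_comm z1 y2⟩
    · exact ⟨lz _ (by
        show (n3phi e i v2 x1).trace = 0
        rw [n3phi_trace, hv2, x12, mul_zero]), n3phi_comm z2 y1⟩
    · refine ⟨lz _ (by
        show (n3phi e i v1 x1 - n3phi e i v2 x2).trace = 0
        rw [trace_sub, n3phi_trace, n3phi_trace, hv1, hv2, x11, x22, sub_self]), ?_⟩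
      show (n3phi e i v1 x1 - n3phi e i v2 x2) * e = e * (n3phi e i v1 x1 - n3phi e i v2 x2)
      rw [sub_mul, mul_sub, n3phi_comm z1 y1, n3phi_comm z2 y2]
  · intro a
    fin_cases a
    exacts [pE, pF, pH]
  · intro a
    fin_cases a
    · refine ⟨2, 0, 1 / 2, fun s hs => ?_⟩
      show X 0 *ᵥ s = _
      rw [aH _ (pE s hs), aE _ (pH s hs), aE s hs, aH s hs]
      simp only [dotProduct_smul, dotProduct_sub, x11, x12, x21, x22, smul_eq_mul]
      module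
    · refine ⟨1, 2, 1 / 2, fun s hs => ?_⟩
      show X 1 *ᵥ s = _
      rw [aH _ (pF s hs), aF _ (pH s hs), aF s hs, aH s hs]
      simp only [dotProduct_smul, dotProduct_sub, x11, x12, x21, x22, smul_eq_mul]
      module
    · refine ⟨0, 1, 1, fun s hs => ?_⟩
      show X 2 *ᵥ s = _
      rw [aE _ (pF s hs), aF _ (pE s hs), aF s hs, aE s hs, aH s hs]
      simp only [dotProduct_smul, x11, x22, smul_eq_mul]
      module

theorem solvA {e : Matrix ι ι ℂ}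
    (h : ∃ k, der {x | x ∈ lie (0 : Matrix ι ι ℂ) ∧ x * e = e * x} k = ⊥) (i : ℕ) :
    dd e i ≤ dd e (i + 1) + 1 := by
  rw [← n3_finrank_S, ← n3_finrank_S]
  by_cases hc : ∀ s ∈ n3S e i, s ∈ n3R e (i + 1)
  · have : n3S e i ≤ n3S e (i + 1) := fun s hs => ⟨hc s hs, hs.2⟩
    exact (Submodule.finrank_mono this).trans (Nat.le_succ _)
  · push Not at hc
    obtain ⟨s1, h1, n1⟩ := hc
    have : n3S e i ≤ n3S e (i + 1) ⊔ Submodule.span ℂ {s1} := by
      intro s hs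
      obtain ⟨r, hr, t, ht, rfl⟩ := Submodule.mem_sup.1 (n3_two h i h1 hs n1)
      have ht' : t ∈ n3S e i := (Submodule.span_singleton_le_iff_mem _ _).2 h1 ht
      have hr' : r ∈ n3S e i := by
        have := Submodule.sub_mem _ hs ht'
        rwa [add_sub_cancel_right] at this
      exact Submodule.add_mem_sup ⟨hr, hr'.2⟩ ht
    refine (Submodule.finrank_mono this).trans
      ((Submodule.finrank_add_le_finrank_add_finrank _ _).trans (Nat.add_le_add_left ?_ _))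
    exact (finrank_span_le_card ({s1} : Set (ι → ℂ))).trans (by simp)

end

end Pool.Agent.P.MP_5e2a31_al.L
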