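import Pool.Agent.P.MP_5e2a31_al.L.N3

/-! Package N4: solvable centralisers in the types B, C, D. -/

namespace Pool.Agent.P.MP_5e2a31_al.L

open Matrix Finset
open scoped Classical

noncomputable section

variable {ι : Type} [Fintype ι] [DecidableEq ι] {n : ℕ}

omit [DecidableEq ι] in
theorem n4_not_solv {α : Type} {C : Set (Matrix ι ι ℂ)} (P : (ι → ℂ) → Prop)
    (X : α → Matrix ι ι ℂ) (hX : ∀ a, X a ∈ C) (hP : ∀ a s, P s → P (X a *ᵥ s))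
    (hc : ∀ a, ∃ (b c : α) (t : ℂ), ∀ s, P s →
      X a *ᵥ s = t • (X b *ᵥ (X c *ᵥ s) - X c *ᵥ (X b *ᵥ s)))
    (h : ∃ k, der C k = ⊥) (a : α) (s : ι → ℂ) (hs : P s) : X a *ᵥ s = 0 := by
  have key : ∀ k a, ∃ y ∈ der C k, ∀ s, P s → y *ᵥ s = X a *ᵥ s := by
    intro k
    induction k with
    | zero => exact fun a => ⟨X a, Submodule.subset_span (hX a), fun _ _ => rfl⟩
    | succ k ih =>
      intro a
      obtain ⟨b, c, t, ht⟩ := hc a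
      obtain ⟨y, hy, hy'⟩ := ih b
      obtain ⟨z, hz, hz'⟩ := ih c
      refine ⟨t • (y * z - z * y), Submodule.smul_mem _ _
        (Submodule.subset_span ⟨y, hy, z, hz, rfl⟩), fun s hs => ?_⟩
      rw [ht s hs, smul_mulVec, sub_mulVec, ← mulVec_mulVec, ← mulVec_mulVec, hz' s hs, hy' s hs,
        hy' _ (hP c s hs), hz' _ (hP b s hs)]
  obtain ⟨k, hk⟩ := h
  obtain ⟨y, hy, hy'⟩ := key k a
  rw [hk, Submodule.mem_bot] at hy
  rw [← hy' s hs, hy, zero_mulVec]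

theorem n4_pow {J e : Matrix ι ι ℂ} (he : eᵀ * J = -(J * e)) (a : ℕ) :
    (e ^ a)ᵀ * J = (-1 : ℂ) ^ a • (J * e ^ a) := by
  induction a with
  | zero => simp
  | succ a ih =>
    rw [pow_succ e, transpose_mul, mul_assoc, ih, mul_smul_comm, ← mul_assoc, he, neg_mul,
      mul_assoc, ← pow_succ', pow_succ' e, pow_succ (-1 : ℂ), ← pow_succ e, ← pow_succ' e]
    simp

theorem n4_adj {J e : Matrix ι ι ℂ} (he : eᵀ * J = -(J * e)) (a : ℕ) (u w : ι → ℂ) :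
    (e ^ a *ᵥ u) ⬝ᵥ J *ᵥ w = (-1 : ℂ) ^ a * (u ⬝ᵥ J *ᵥ (e ^ a *ᵥ w)) := by
  rw [← vecMul_transpose, ← dotProduct_mulVec, mulVec_mulVec, n4_pow he, smul_mulVec,
    dotProduct_smul, mulVec_mulVec, smul_eq_mul]

omit [DecidableEq ι] in
theorem n4_swap {J : Matrix ι ι ℂ} {ε : ℂ} (hs : Jᵀ = ε • J) (u w : ι → ℂ) :
    u ⬝ᵥ J *ᵥ w = ε * (w ⬝ᵥ J *ᵥ u) := by
  rw [dotProduct_mulVec, ← mulVec_transpose, hs, smul_mulVec, smul_dotProduct, dotProduct_comm,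
    smul_eq_mul]

theorem n4_b {J e : Matrix ι ι ℂ} {ε : ℂ} (hs : Jᵀ = ε • J) (he : eᵀ * J = -(J * e)) (i : ℕ)
    (v w : ι → ℂ) :
    (e ^ i *ᵥ w) ⬝ᵥ J *ᵥ v = ((-1 : ℂ) ^ i * ε) * ((e ^ i *ᵥ v) ⬝ᵥ J *ᵥ w) := by
  rw [n4_adj he, n4_swap hs, mul_assoc]

/-- the operator attached to a pair of vectors -/
def n4phi (J e : Matrix ι ι ℂ) (i : ℕ) (v w : ι → ℂ) : Matrix ι ι ℂ :=
  ∑ p ∈ antidiagonal i, e ^ p.1 * vecMulVec v (J *ᵥ w) * e ^ p.2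

theorem n4phi_comm {J e : Matrix ι ι ℂ} (he : eᵀ * J = -(J * e)) {i : ℕ} {v w : ι → ℂ}
    (hv : e ^ (i + 1) *ᵥ v = 0) (hw : e ^ (i + 1) *ᵥ w = 0) :
    n4phi J e i v w * e = e * n4phi J e i v w := by
  have h1 := Finset.Nat.sum_antidiagonal_succ (n := i)
    (f := fun p : ℕ × ℕ => e ^ p.1 * vecMulVec v (J *ᵥ w) * e ^ p.2)
  have h2 := Finset.Nat.sum_antidiagonal_succ' (n := i)
    (f := fun p : ℕ × ℕ => e ^ p.1 * vecMulVec v (J *ᵥ w) * e ^ p.2)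
  have z1 : e ^ (i + 1) * vecMulVec v (J *ᵥ w) = 0 := by
    rw [mul_vecMulVec, hv, zero_vecMulVec]
  have z2 : vecMulVec v (J *ᵥ w) * e ^ (i + 1) = 0 := by
    rw [vecMulVec_mul, ← mulVec_transpose, mulVec_mulVec, n4_pow he, smul_mulVec, ← mulVec_mulVec,
      hw, mulVec_zero, smul_zero, vecMulVec_zero]
  simp only [pow_zero, one_mul, mul_one, z1, z2, zero_add] at h1 h2
  unfold n4phi
  rw [sum_mul, mul_sum]
  calc ∑ p ∈ antidiagonal i, e ^ p.1 * vecMulVec v (J *ᵥ w) * e ^ p.2 * e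
      = ∑ p ∈ antidiagonal i, e ^ p.1 * vecMulVec v (J *ᵥ w) * e ^ (p.2 + 1) :=
        sum_congr rfl fun p _ => by rw [pow_succ, mul_assoc]
    _ = ∑ p ∈ antidiagonal i, e ^ (p.1 + 1) * vecMulVec v (J *ᵥ w) * e ^ p.2 := h2.symm.trans h1
    _ = _ := sum_congr rfl fun p _ => by rw [pow_succ']; simp only [mul_assoc]

theorem n4phi_adj {J e : Matrix ι ι ℂ} {ε : ℂ} (hs : Jᵀ = ε • J) (he : eᵀ * J = -(J * e)) (i : ℕ)
    (v w : ι → ℂ) :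
    (n4phi J e i v w)ᵀ * J = ((-1 : ℂ) ^ i * ε) • (J * n4phi J e i w v) := by
  have hN : (vecMulVec v (J *ᵥ w))ᵀ * J = ε • (J * vecMulVec w (J *ᵥ v)) := by
    rw [transpose_vecMulVec, vecMulVec_mul, mul_vecMulVec, ← mulVec_transpose, hs, smul_mulVec,
      vecMulVec_smul]
  unfold n4phi
  rw [← Finset.Nat.sum_antidiagonal_swap (f := fun p : ℕ × ℕ =>
    e ^ p.1 * vecMulVec w (J *ᵥ v) * e ^ p.2), transpose_sum, sum_mul, mul_sum, smul_sum]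
  refine sum_congr rfl fun p hp => ?_
  rw [Finset.HasAntidiagonal.mem_antidiagonal] at hp
  simp only [Prod.fst_swap, Prod.snd_swap]
  rw [transpose_mul, transpose_mul, mul_assoc, mul_assoc, n4_pow he, mul_smul_comm, ← mul_assoc _ J,
    hN, smul_mul_assoc, mul_smul_comm, mul_smul_comm, mul_assoc J, ← mul_assoc _ J, n4_pow he,
    smul_mul_assoc, smul_smul, smul_smul, ← hp, pow_add]
  simp only [mul_assoc]
  congr 1
  ring

theorem n4phi_apply (J : Matrix ι ι ℂ) {e : Matrix ι ι ℂ} (i : ℕ) (v w : ι → ℂ) {s : ι → ℂ}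
    (hs : e *ᵥ s = 0) : n4phi J e i v w *ᵥ s = (s ⬝ᵥ J *ᵥ w) • (e ^ i *ᵥ v) := by
  unfold n4phi
  rw [sum_mulVec, sum_eq_single (i, 0)]
  · simp only [pow_zero, mul_one]
    rw [← mulVec_mulVec, vecMulVec_mulVec, dotProduct_comm]
    simp [mulVec_smul]
  · rintro ⟨a, b⟩ hp hne
    rw [Finset.HasAntidiagonal.mem_antidiagonal] at hp
    obtain ⟨c, rfl⟩ : ∃ c, b = c + 1 := ⟨b - 1, by
      rcases Nat.eq_zero_or_pos b with h | h
      · subst h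
        exact absurd (by simpa using hp) hne
      · omega⟩
    rw [← mulVec_mulVec, pow_succ, ← mulVec_mulVec s, hs, mulVec_zero, mulVec_zero]
  · simp

theorem n4_psi {J e : Matrix ι ι ℂ} (hJ : IsUnit J.det) {ε η : ℂ} (hs : Jᵀ = ε • J)
    (he : eᵀ * J = -(J * e)) {i : ℕ} (hi : (-1) ^ i * ε = η) (hη : η * η = 1) {v w : ι → ℂ}
    (hv : e ^ (i + 1) *ᵥ v = 0) (hw : e ^ (i + 1) *ᵥ w = 0) :
    ∃ x ∈ {x | x ∈ lie J ∧ x * e = e * x}, ∀ s, e *ᵥ s = 0 →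
      x *ᵥ s = (s ⬝ᵥ J *ᵥ w) • (e ^ i *ᵥ v) - (η * (s ⬝ᵥ J *ᵥ v)) • (e ^ i *ᵥ w) := by
  have hsk : (n4phi J e i v w - η • n4phi J e i w v)ᵀ * J =
      -(J * (n4phi J e i v w - η • n4phi J e i w v)) := by
    rw [transpose_sub, transpose_smul, sub_mul, smul_mul_assoc, n4phi_adj hs he, n4phi_adj hs he,
      hi, smul_smul, hη, one_smul, mul_sub, mul_smul_comm, neg_sub]
  refine ⟨n4phi J e i v w - η • n4phi J e i w v, ⟨⟨trace_of_skew hJ hsk, hsk⟩, ?_⟩,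
    fun s hs => ?_⟩
  · rw [sub_mul, mul_sub, smul_mul_assoc, mul_smul_comm, n4phi_comm he hv hw, n4phi_comm he hw hv]
  · rw [sub_mulVec, smul_mulVec, n4phi_apply J i v w hs, n4phi_apply J i w v hs, smul_smul]

theorem n4_rad {J e : Matrix ι ι ℂ} (hJ : IsUnit J.det) (he : eᵀ * J = -(J * e)) (a : ℕ)
    {u : ι → ℂ} (h : ∀ w, e ^ a *ᵥ w = 0 → u ⬝ᵥ J *ᵥ w = 0) :
    u ∈ LinearMap.range (e ^ a).mulVecLin := by
  by_contra hu
  obtain ⟨f, hf, hf'⟩ := Submodule.exists_dual_map_eq_bot_of_notMem hu inferInstance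
  set ξ : ι → ℂ := fun p => f (Pi.single p 1) with hξ
  have hfz : ∀ z : ι → ℂ, f z = z ⬝ᵥ ξ := by
    intro z
    rw [LinearMap.pi_apply_eq_sum_univ f z]
    refine sum_congr rfl fun p _ => ?_
    rw [smul_eq_mul, hξ]
    congr 2
    funext q
    rw [Pi.single_apply]
    simp only [eq_comm]
  have hw : J *ᵥ (J⁻¹ *ᵥ ξ) = ξ := by rw [mulVec_mulVec, mul_nonsing_inv _ hJ, one_mulVec]
  have h0 : ∀ z, z ⬝ᵥ J *ᵥ (e ^ a *ᵥ (J⁻¹ *ᵥ ξ)) = 0 := by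
    intro z
    have h1 : f (e ^ a *ᵥ z) = 0 := by
      have : f (e ^ a *ᵥ z) ∈ (LinearMap.range (e ^ a).mulVecLin).map f :=
        Submodule.mem_map_of_mem ⟨z, rfl⟩
      rwa [hf', Submodule.mem_bot] at this
    rw [hfz, ← hw, n4_adj he] at h1
    exact (mul_eq_zero.1 h1).resolve_left (pow_ne_zero _ (by norm_num))
  have h2 : J *ᵥ (e ^ a *ᵥ (J⁻¹ *ᵥ ξ)) = 0 := by
    funext p
    simpa using h0 (Pi.single p 1)
  have h3 : e ^ a *ᵥ (J⁻¹ *ᵥ ξ) = 0 := by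
    have := congrArg (fun z => J⁻¹ *ᵥ z) h2
    simp only [mulVec_zero] at this
    rwa [mulVec_mulVec, nonsing_inv_mul _ hJ, one_mulVec] at this
  have := h _ h3
  rw [hw, ← hfz] at this
  exact hf this

/-- the socle of the blocks of size greater than `i` -/
def n4S (e : Matrix ι ι ℂ) (i : ℕ) : Submodule ℂ (ι → ℂ) :=
  LinearMap.range (e ^ i).mulVecLin ⊓ LinearMap.ker e.mulVecLin

theorem n4S_rank (e : Matrix ι ι ℂ) (i : ℕ) : Module.finrank ℂ (n4S e i) = dd e i := by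
  have h := LinearMap.finrank_range_add_finrank_ker
    (e.mulVecLin.domRestrict (LinearMap.range (e ^ i).mulVecLin))
  rw [LinearMap.range_domRestrict, ← LinearMap.range_comp, ← mulVecLin_mul, ← pow_succ',
    LinearMap.ker_domRestrict, ← Submodule.finrank_map_subtype_eq, Submodule.map_comap_subtype]
    at h
  unfold dd Matrix.rank n4S
  omega

theorem n4S_mem {e : Matrix ι ι ℂ} {i : ℕ} {s : ι → ℂ} (h : s ∈ n4S e i) :
    ∃ v, e ^ (i + 1) *ᵥ v = 0 ∧ s = e ^ i *ᵥ v := by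
  obtain ⟨⟨v, rfl⟩, h2⟩ := h
  refine ⟨v, ?_, rfl⟩
  rw [pow_succ', ← mulVec_mulVec]
  exact h2

theorem n4_ker {e : Matrix ι ι ℂ} {i : ℕ} {v : ι → ℂ} (h : e ^ (i + 1) *ᵥ v = 0) :
    e *ᵥ (e ^ i *ᵥ v) = 0 := by rwa [mulVec_mulVec, ← pow_succ']

theorem n4S_le (e : Matrix ι ι ℂ) (i : ℕ) : n4S e (i + 1) ≤ n4S e i := by
  rintro s ⟨⟨v, rfl⟩, h2⟩
  refine ⟨⟨e *ᵥ v, ?_⟩, h2⟩
  simp only [mulVecLin_apply]
  rw [mulVec_mulVec, ← pow_succ]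

theorem solvJ_skew {J e : Matrix ι ι ℂ} (hJ : IsUnit J.det) {ε : ℂ} (hs : Jᵀ = ε • J)
    (he : e ∈ lie J) (h : ∃ k, der {x | x ∈ lie J ∧ x * e = e * x} k = ⊥) {i : ℕ}
    (hi : (-1) ^ i * ε = -1) : dd e i = dd e (i + 1) := by
  suffices hE : n4S e i = n4S e (i + 1) by rw [← n4S_rank, ← n4S_rank, hE]
  refine le_antisymm (fun s hs' => ?_) (n4S_le e i)
  obtain ⟨v, hv, rfl⟩ := n4S_mem hs'
  refine ⟨n4_rad hJ he.2 (i + 1) fun w₀ hw₀ => ?_, hs'.2⟩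
  by_contra hne
  obtain ⟨w, hw, h1⟩ : ∃ w, e ^ (i + 1) *ᵥ w = 0 ∧ (e ^ i *ᵥ v) ⬝ᵥ J *ᵥ w = 1 :=
    ⟨((e ^ i *ᵥ v) ⬝ᵥ J *ᵥ w₀)⁻¹ • w₀, by rw [mulVec_smul, hw₀, smul_zero], by
      rw [mulVec_smul, dotProduct_smul, smul_eq_mul, inv_mul_cancel₀ hne]⟩
  have hb := n4_b hs he.2 i
  rw [hi] at hb
  have h2 : (e ^ i *ᵥ w) ⬝ᵥ J *ᵥ v = -1 := by rw [hb, h1]; ring
  have h3 : (e ^ i *ᵥ v) ⬝ᵥ J *ᵥ v = 0 := by linear_combination (hb v v) / 2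
  have h4 : (e ^ i *ᵥ w) ⬝ᵥ J *ᵥ w = 0 := by linear_combination (hb w w) / 2
  obtain ⟨A, hA, hA'⟩ := n4_psi hJ hs he.2 hi (by ring) hv hv
  obtain ⟨B, hB, hB'⟩ := n4_psi hJ hs he.2 hi (by ring) hw hw
  obtain ⟨H, hH, hH'⟩ := n4_psi hJ hs he.2 hi (by ring) hv hw
  have kv := n4_ker hv
  have kw := n4_ker hw
  generalize e ^ i *ᵥ v = p at *
  generalize e ^ i *ᵥ w = q at *
  have Ap := hA' p kv
  have Aq := hA' q kw
  have Bp := hB' p kv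
  have Bq := hB' q kw
  have Hp := hH' p kv
  have Hq := hH' q kw
  rw [h3] at Ap
  rw [h2] at Aq
  rw [h1] at Bp
  rw [h4] at Bq
  rw [h1, h3] at Hp
  rw [h2, h4] at Hq
  have key := n4_not_solv (fun s => e *ᵥ s = 0) ![A, B, H] (C := {x | x ∈ lie J ∧ x * e = e * x})
    (fun a => by fin_cases a <;> assumption)
    (fun a s hs => by
      have : ![A, B, H] a * e = e * ![A, B, H] a := by
        fin_cases a
        exacts [hA.2, hB.2, hH.2]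
      rw [mulVec_mulVec, ← this, ← mulVec_mulVec, hs, mulVec_zero])
    (fun a => by
      fin_cases a
      · refine ⟨2, 0, 1 / 2, fun s hs => ?_⟩
        show A *ᵥ s = _ • (H *ᵥ (A *ᵥ s) - A *ᵥ (H *ᵥ s))
        rw [hA' s hs, hH' s hs]
        simp only [mulVec_sub, mulVec_smul, Ap, Aq, Hp]
        module
      · refine ⟨2, 1, -1 / 2, fun s hs => ?_⟩
        show B *ᵥ s = _ • (H *ᵥ (B *ᵥ s) - B *ᵥ (H *ᵥ s))
        rw [hB' s hs, hH' s hs]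
        simp only [mulVec_sub, mulVec_smul, Bp, Bq, Hq]
        module
      · refine ⟨0, 1, -1 / 4, fun s hs => ?_⟩
        show H *ᵥ s = _ • (A *ᵥ (B *ᵥ s) - B *ᵥ (A *ᵥ s))
        rw [hA' s hs, hB' s hs, hH' s hs]
        simp only [mulVec_sub, mulVec_smul, Aq, Bp]
        module) h 2 p kv
  have hp : p = 0 := by
    have : H *ᵥ p = 0 := key
    rw [Hp] at this
    simpa using this
  rw [hp, zero_dotProduct] at h1
  exact zero_ne_one h1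

theorem n4_so3 {J e : Matrix ι ι ℂ} (hJ : IsUnit J.det) {ε : ℂ} (hs : Jᵀ = ε • J)
    (he : e ∈ lie J) (h : ∃ k, der {x | x ∈ lie J ∧ x * e = e * x} k = ⊥) {i : ℕ}
    (hi : (-1) ^ i * ε = 1) {u v w : ι → ℂ} (hu : e ^ (i + 1) *ᵥ u = 0)
    (hv : e ^ (i + 1) *ᵥ v = 0) (hw : e ^ (i + 1) *ᵥ w = 0)
    (uu : (e ^ i *ᵥ u) ⬝ᵥ J *ᵥ u ≠ 0) (vv : (e ^ i *ᵥ v) ⬝ᵥ J *ᵥ v ≠ 0)
    (ww : (e ^ i *ᵥ w) ⬝ᵥ J *ᵥ w ≠ 0) (uv : (e ^ i *ᵥ u) ⬝ᵥ J *ᵥ v = 0)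
    (vw : (e ^ i *ᵥ v) ⬝ᵥ J *ᵥ w = 0) (wu : (e ^ i *ᵥ w) ⬝ᵥ J *ᵥ u = 0) : False := by
  have hb := n4_b hs he.2 i
  rw [hi] at hb
  have vu : (e ^ i *ᵥ v) ⬝ᵥ J *ᵥ u = 0 := by rw [hb, uv, mul_zero]
  have wv : (e ^ i *ᵥ w) ⬝ᵥ J *ᵥ v = 0 := by rw [hb, vw, mul_zero]
  have uw : (e ^ i *ᵥ u) ⬝ᵥ J *ᵥ w = 0 := by rw [hb, wu, mul_zero]
  obtain ⟨X, hX, hX'⟩ := n4_psi hJ hs he.2 hi (by ring) hu hv
  obtain ⟨Y, hY, hY'⟩ := n4_psi hJ hs he.2 hi (by ring) hv hw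
  obtain ⟨Z, hZ, hZ'⟩ := n4_psi hJ hs he.2 hi (by ring) hw hu
  have ku := n4_ker hu
  have kv := n4_ker hv
  have kw := n4_ker hw
  have hp : e ^ i *ᵥ u ≠ 0 := fun h => uu (by rw [h, zero_dotProduct])
  generalize e ^ i *ᵥ u = p at *
  generalize e ^ i *ᵥ v = q at *
  generalize e ^ i *ᵥ w = r at *
  have Xp := hX' p ku
  have Xq := hX' q kv
  have Xr := hX' r kw
  have Yp := hY' p ku
  have Yq := hY' q kv
  have Yr := hY' r kw
  have Zp := hZ' p ku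
  have Zq := hZ' q kv
  have Zr := hZ' r kw
  rw [uv] at Xp
  rw [vu] at Xq
  rw [wu, wv] at Xr
  rw [uv, uw] at Yp
  rw [vw] at Yq
  rw [wv] at Yr
  rw [uw] at Zp
  rw [vu, vw] at Zq
  rw [wu] at Zr
  generalize p ⬝ᵥ J *ᵥ u = a at *
  generalize q ⬝ᵥ J *ᵥ v = b at *
  generalize r ⬝ᵥ J *ᵥ w = c at *
  have key := n4_not_solv (fun s => e *ᵥ s = 0) ![X, Y, Z] (C := {x | x ∈ lie J ∧ x * e = e * x})
    (fun a => by fin_cases a <;> assumption)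
    (fun a s hs => by
      have : ![X, Y, Z] a * e = e * ![X, Y, Z] a := by
        fin_cases a
        exacts [hX.2, hY.2, hZ.2]
      rw [mulVec_mulVec, ← this, ← mulVec_mulVec, hs, mulVec_zero])
    (fun t => by
      fin_cases t
      · refine ⟨1, 2, -c⁻¹, fun s hs => ?_⟩
        show X *ᵥ s = _ • (Y *ᵥ (Z *ᵥ s) - Z *ᵥ (Y *ᵥ s))
        rw [hX' s hs, hY' s hs, hZ' s hs]
        simp only [mulVec_sub, mulVec_smul, Yr, Yp, Zq, Zr]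
        match_scalars <;> field_simp <;> ring
      · refine ⟨2, 0, -a⁻¹, fun s hs => ?_⟩
        show Y *ᵥ s = _ • (Z *ᵥ (X *ᵥ s) - X *ᵥ (Z *ᵥ s))
        rw [hX' s hs, hY' s hs, hZ' s hs]
        simp only [mulVec_sub, mulVec_smul, Zp, Zq, Xr, Xp]
        match_scalars <;> field_simp <;> ring
      · refine ⟨0, 1, -b⁻¹, fun s hs => ?_⟩
        show Z *ᵥ s = _ • (X *ᵥ (Y *ᵥ s) - Y *ᵥ (X *ᵥ s))
        rw [hX' s hs, hY' s hs, hZ' s hs]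
        simp only [mulVec_sub, mulVec_smul, Xq, Xr, Yp, Yq]
        match_scalars <;> field_simp <;> ring) h
  have h2 : X *ᵥ q = 0 := key 0 q kv
  rw [Xq, mul_zero, zero_smul, sub_zero, smul_eq_zero] at h2
  exact h2.elim vv hp

theorem solvJ_symm {J e : Matrix ι ι ℂ} (hJ : IsUnit J.det) {ε : ℂ} (hs : Jᵀ = ε • J)
    (he : e ∈ lie J) (h : ∃ k, der {x | x ∈ lie J ∧ x * e = e * x} k = ⊥) {i : ℕ}
    (hi : (-1) ^ i * ε = 1) : dd e i ≤ dd e (i + 1) + 2 := by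
  set K := LinearMap.ker (e ^ (i + 1)).mulVecLin with hK
  have hKm : ∀ v : K, e ^ (i + 1) *ᵥ (v : ι → ℂ) = 0 := fun v => v.2
  let B : LinearMap.BilinForm ℂ K := LinearMap.mk₂ ℂ
    (fun v w : K => (e ^ i *ᵥ (v : ι → ℂ)) ⬝ᵥ J *ᵥ (w : ι → ℂ))
    (fun a b c => by simp [mulVec_add, add_dotProduct])
    (fun t a b => by simp [mulVec_smul, smul_dotProduct])
    (fun a b c => by simp [mulVec_add, dotProduct_add])
    (fun t a b => by simp [mulVec_smul, dotProduct_smul])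
  have hBa : ∀ v w : K, B v w = (e ^ i *ᵥ (v : ι → ℂ)) ⬝ᵥ J *ᵥ (w : ι → ℂ) := fun _ _ => rfl
  have hB : LinearMap.IsSymm B := ⟨fun x y => by
    rw [RingHom.id_apply, hBa, hBa, n4_b hs he.2 i (x : ι → ℂ) y, hi, one_mul]⟩
  obtain ⟨β, hβ⟩ := LinearMap.BilinForm.exists_orthogonal_basis hB
  rw [LinearMap.isOrthoᵢ_def] at hβ
  set T := univ.filter fun j => B (β j) (β j) ≠ 0 with hT
  by_cases h2 : 2 < T.card
  · obtain ⟨a, b, c, ha, hb, hc, hab, hac, hbc⟩ := Finset.two_lt_card_iff.1 h2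
    exact (n4_so3 hJ hs he h hi (hKm (β a)) (hKm (β b)) (hKm (β c)) (mem_filter.1 ha).2
      (mem_filter.1 hb).2 (mem_filter.1 hc).2 (hβ a b hab) (hβ b c hbc) (hβ c a hac.symm)).elim
  have hrad : ∀ j, j ∉ T → e ^ i *ᵥ (β j : ι → ℂ) ∈ n4S e (i + 1) := by
    intro j hj
    refine ⟨n4_rad hJ he.2 (i + 1) fun w hw => ?_, n4_ker (hKm _)⟩
    have h0 : B (β j) = 0 := β.ext fun k => by
      by_cases hjk : j = k
      · subst hjk
        by_contra hne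
        exact hj (mem_filter.2 ⟨mem_univ _, hne⟩)
      · exact hβ j k hjk
    have := hBa (β j) ⟨w, hw⟩
    rw [h0] at this
    exact this.symm
  set U := T.image fun j => e ^ i *ᵥ (β j : ι → ℂ) with hU
  have hle : n4S e i ≤ n4S e (i + 1) ⊔ Submodule.span ℂ (U : Set (ι → ℂ)) := by
    intro s hs'
    obtain ⟨v, hv, rfl⟩ := n4S_mem hs'
    have hsum : v = ∑ j, β.repr ⟨v, hv⟩ j • (β j : ι → ℂ) := by
      have := congrArg K.subtype (β.sum_repr ⟨v, hv⟩)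
      rw [map_sum] at this
      exact this.symm
    rw [hsum, mulVec_sum]
    refine Submodule.sum_mem _ fun j _ => ?_
    rw [mulVec_smul]
    refine Submodule.smul_mem _ _ ?_
    by_cases hj : j ∈ T
    · exact Submodule.mem_sup_right (Submodule.subset_span (mem_coe.2 (mem_image_of_mem _ hj)))
    · exact Submodule.mem_sup_left (hrad j hj)
  have h3 := Submodule.finrank_mono hle
  have h4 := Submodule.finrank_add_le_finrank_add_finrank (n4S e (i + 1))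
    (Submodule.span ℂ (U : Set (ι → ℂ)))
  have h5 := finrank_span_finset_le_card (R := ℂ) U
  have h6 : U.card ≤ T.card := card_image_le
  rw [n4S_rank] at h3 h4
  unfold Set.finrank at h5
  omega

end

end Pool.Agent.P.MP_5e2a31_al.L
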