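import Pool.Agent.P.MP_5e2a31_al.L.WBase

/-! Package S1: the sum of the contents vanishes only for staircases. -/

namespace Pool.Agent.P.MP_5e2a31_al.L

open Finset Equiv SemidirectProduct Pool.Agent.P.MP_1a0ecf_al
open scoped Classical

noncomputable section

variable {n : ℕ}

theorem s1_row (c : ℤ) (a : ℕ) :
    2 * ∑ r ∈ range a, (c - (r : ℤ)) = 2 * c * a - a * (a - 1) := by
  induction a with
  | zero => simp
  | succ a ih =>
    rw [sum_range_succ, mul_add, ih]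
    push_cast
    ring

theorem s1_sumA (N : ℕ) : ∀ (h : ℕ → ℕ) (c : ℤ), 0 ≤ c → (∀ s, N ≤ s → h s = 0) →
    (∀ s, h (s + 1) ≤ h s) → (∀ s, h s ≤ h (s + 1) + 1) →
    c * h 0 * (h 0 + 1) ≤ 2 * ∑ s ∈ range N, ∑ r ∈ range (h s), (c + (s : ℤ) - r) ∧
      (2 * ∑ s ∈ range N, ∑ r ∈ range (h s), (c + (s : ℤ) - r) = c * h 0 * (h 0 + 1) →
        ∀ s, h s = h 0 - s) := by
  induction N with
  | zero =>
    intro h c _ hz _ _
    have h0 : ∀ s, h s = 0 := fun s => hz s (Nat.zero_le s)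
    simp [h0]
  | succ N ih =>
    intro h c hc hz h1 h2
    obtain ⟨i1, i2⟩ := ih (fun s => h (s + 1)) (c + 1) (by omega)
      (fun s hs => hz (s + 1) (by omega)) (fun s => h1 (s + 1)) (fun s => h2 (s + 1))
    have e : 2 * ∑ s ∈ range (N + 1), ∑ r ∈ range (h s), (c + (s : ℤ) - r) =
        2 * ∑ s ∈ range N, ∑ r ∈ range (h (s + 1)), (c + 1 + (s : ℤ) - r) +
          (2 * c * h 0 - h 0 * (h 0 - 1)) := by
      rw [sum_range_succ', mul_add, ← s1_row c (h 0)]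
      congr 2
      · refine sum_congr rfl fun s _ => sum_congr rfl fun r _ => ?_
        push_cast
        ring
      · refine sum_congr rfl fun r _ => ?_
        simp
    rw [e]
    simp only [zero_add] at i1 i2
    have a1 := h1 0
    have a2 := h2 0
    simp only [zero_add] at a1 a2
    set T := 2 * ∑ s ∈ range N, ∑ r ∈ range (h (s + 1)), (c + 1 + (s : ℤ) - r) with hT
    have fin : h 1 = h 0 - 1 → T = (c + 1) * h 1 * (h 1 + 1) → ∀ s, h s = h 0 - s := by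
      intro b1 b2 s
      rcases s with _ | s
      · simp
      · rw [i2 b2 s]
        omega
    rcases (by omega : h 0 = h 1 ∨ h 0 = h 1 + 1) with b | b
    · have hb : (h 0 : ℤ) = h 1 := by exact_mod_cast b
      have hp : (0 : ℤ) ≤ h 1 := Int.natCast_nonneg _
      have hq : (0 : ℤ) ≤ c * h 1 := mul_nonneg hc hp
      rw [hb]
      refine ⟨by nlinarith, fun hE => ?_⟩
      have hz1 : (h 1 : ℤ) = 0 := by nlinarith
      have hz2 : h 1 = 0 := by exact_mod_cast hz1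
      refine fin (by omega) ?_
      rw [hz1] at hE ⊢
      linarith
    · have hb : (h 0 : ℤ) = h 1 + 1 := by exact_mod_cast b
      rw [hb]
      refine ⟨by nlinarith, fun hE => fin (by omega) ?_⟩
      linarith

theorem sumA {h : ℕ → ℕ} {N : ℕ} (hz : ∀ s, N ≤ s → h s = 0) (h1 : ∀ s, h (s + 1) ≤ h s)
    (h2 : ∀ s, h s ≤ h (s + 1) + 1)
    (hT : ∑ s ∈ range N, ∑ r ∈ range (h s), ((s : ℤ) - r) = 0) (s : ℕ) : h s = h 0 - s := by
  refine (s1_sumA N h 0 le_rfl hz h1 h2).2 ?_ s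
  simp only [zero_add, zero_mul]
  rw [hT]
  simp

theorem s1_bnd_even (κ δ : ℤ) (a : ℕ) : bnd κ δ (2 * a) = κ * a * (a + 1) := by
  have h1 : 2 * a % 2 = 0 := by omega
  have h2 : 2 * a / 2 = a := by omega
  simp only [bnd, h1, h2, if_true]

theorem s1_bnd_odd (κ δ : ℤ) (a : ℕ) :
    bnd κ δ (2 * a + 1) = κ * ((a : ℤ) + 1) ^ 2 + δ * (a + 1) := by
  have h1 : ¬ (2 * a + 1) % 2 = 0 := by omega
  have h2 : (2 * a + 1) / 2 = a := by omega
  simp only [bnd, h1, h2, if_false]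

theorem s1_evv_even (κ δ : ℤ) (a : ℕ) : evv κ δ (2 * a) = κ - 2 * a + δ := by
  have h2 : 2 * a / 2 = a := by omega
  simp only [evv, h2, pow_mul]
  simp

theorem s1_evv_odd (κ δ : ℤ) (a : ℕ) : evv κ δ (2 * a + 1) = κ - 2 * a - δ := by
  have h2 : (2 * a + 1) / 2 = a := by omega
  simp only [evv, h2, pow_succ, pow_mul]
  simp
  ring

theorem s1_S_even (κ δ : ℤ) (a : ℕ) :
    ∑ t ∈ range (2 * a), evv κ δ t = 2 * a * κ - 2 * a * (a - 1) := by
  induction a with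
  | zero => simp
  | succ a ih =>
    rw [show 2 * (a + 1) = 2 * a + 1 + 1 by ring, sum_range_succ, sum_range_succ, ih,
      s1_evv_even, s1_evv_odd]
    push_cast
    ring

theorem s1_S_odd (κ δ : ℤ) (a : ℕ) :
    ∑ t ∈ range (2 * a + 1), evv κ δ t = (2 * a + 1) * κ - 2 * a ^ 2 + δ := by
  rw [sum_range_succ, s1_S_even, s1_evv_even]
  ring

theorem s1_step (κ δ : ℤ) (m : ℕ) :
    ∑ t ∈ range m, evv κ δ t + bnd (κ + 2) δ (m - 2) = bnd κ δ m := by
  rcases Nat.even_or_odd' m with ⟨a, rfl | rfl⟩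
  · rcases a with _ | a
    · simp [bnd]
    · rw [s1_S_even, show 2 * (a + 1) - 2 = 2 * a by omega, s1_bnd_even, s1_bnd_even]
      push_cast
      ring
  · rcases a with _ | a
    · rw [s1_S_odd, s1_bnd_odd]
      simp [bnd]
    · rw [s1_S_odd, show 2 * (a + 1) + 1 - 2 = 2 * a + 1 by omega, s1_bnd_odd, s1_bnd_odd]
      push_cast
      ring

theorem s1_mono {κ δ : ℤ} (hκ : 2 ≤ κ) (hδ : δ = 0 ∨ δ = 1) : StrictMono (bnd κ δ) := by
  refine strictMono_nat_of_lt_succ fun m => ?_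
  have hd : 0 ≤ δ ∧ δ ≤ 1 := by rcases hδ with h | h <;> simp [h]
  rcases Nat.even_or_odd' m with ⟨a, rfl | rfl⟩
  · rw [s1_bnd_even, s1_bnd_odd]
    have ha : (0 : ℤ) ≤ a := Int.natCast_nonneg _
    have h1 : 0 ≤ δ * ((a : ℤ) + 1) := mul_nonneg hd.1 (by omega)
    have h2 : 0 < κ * ((a : ℤ) + 1) := mul_pos (by omega) (by omega)
    nlinarith
  · rw [show 2 * a + 1 + 1 = 2 * (a + 1) by ring, s1_bnd_even, s1_bnd_odd]
    have ha : (0 : ℤ) ≤ a := Int.natCast_nonneg _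
    have h2 : 0 < (κ - δ) * ((a : ℤ) + 1) := mul_pos (by omega) (by omega)
    push_cast
    nlinarith

theorem s1_sumB {δ : ℤ} (hδ : δ = 0 ∨ δ = 1) (N : ℕ) : ∀ (m : ℕ → ℕ) (κ : ℤ), 0 ≤ κ →
    (∀ j, N ≤ j → m j = 0) → (∀ j, m j ≤ m (j + 1) + 2) →
    bnd κ δ (m 0) ≤ ∑ j ∈ range N, ∑ t ∈ range (m j), evv (κ + 2 * j) δ t ∧
      (∑ j ∈ range N, ∑ t ∈ range (m j), evv (κ + 2 * j) δ t = bnd κ δ (m 0) →
        ∀ j, m j = m 0 - 2 * j) := by
  induction N with
  | zero =>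
    intro m κ _ hz _
    have h0 : ∀ s, m s = 0 := fun s => hz s (Nat.zero_le s)
    simp [h0, bnd]
  | succ N ih =>
    intro m κ hκ hz h2
    obtain ⟨i1, i2⟩ := ih (fun s => m (s + 1)) (κ + 2) (by omega)
      (fun s hs => hz (s + 1) (by omega)) (fun s => h2 (s + 1))
    have e : ∑ j ∈ range (N + 1), ∑ t ∈ range (m j), evv (κ + 2 * j) δ t =
        ∑ j ∈ range N, ∑ t ∈ range (m (j + 1)), evv (κ + 2 + 2 * j) δ t +
          ∑ t ∈ range (m 0), evv κ δ t := by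
      rw [sum_range_succ']
      congr 1
      · refine sum_congr rfl fun s _ => sum_congr rfl fun r _ => ?_
        congr 1
        push_cast
        ring
      · refine sum_congr rfl fun r _ => ?_
        simp
    rw [e]
    simp only [zero_add] at i1 i2
    have a2 := h2 0
    simp only [zero_add] at a2
    have st := s1_step κ δ (m 0)
    have hm := s1_mono (κ := κ + 2) (by omega) hδ
    have hle : bnd (κ + 2) δ (m 0 - 2) ≤ bnd (κ + 2) δ (m 1) := hm.monotone (by omega)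
    refine ⟨by linarith, fun hE j => ?_⟩
    have b1 : m 0 - 2 = m 1 := hm.injective (by linarith)
    rcases j with _ | j
    · simp
    · rw [i2 (by linarith) j]
      omega

theorem sumB {m : ℕ → ℕ} {N : ℕ} (hz : ∀ j, N ≤ j → m j = 0) (h1 : ∀ j, m (j + 1) ≤ m j)
    (h2 : ∀ j, m j ≤ m (j + 1) + 2) {κ δ : ℤ} (hκ : 0 ≤ κ) (hδ : δ = 0 ∨ δ = 1) :
    bnd κ δ (m 0) ≤ ∑ j ∈ range N, ∑ t ∈ range (m j), evv (κ + 2 * j) δ t ∧
      (∑ j ∈ range N, ∑ t ∈ range (m j), evv (κ + 2 * j) δ t = bnd κ δ (m 0) →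
        ∀ j, m j = m 0 - 2 * j) := by
  have _ := h1
  exact s1_sumB hδ N m κ hκ hz h2

/-- type C -/
theorem sumC {m : ℕ → ℕ} {N : ℕ} (hz : ∀ j, N ≤ j → m j = 0) (h1 : ∀ j, m (j + 1) ≤ m j)
    (h2 : ∀ j, m j ≤ m (j + 1) + 2)
    (hT : ∑ j ∈ range N, ∑ t ∈ range (m j), evv (2 * j) 1 t = 0) :
    ∃ k, ∀ j, m j = 2 * k - 2 * j := by
  obtain ⟨i1, i2⟩ := sumB hz h1 h2 (κ := 0) (δ := 1) le_rfl (Or.inr rfl)
  simp only [zero_add] at i1 i2
  rw [hT] at i1 i2
  rcases Nat.even_or_odd' (m 0) with ⟨a, ha | ha⟩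
  · refine ⟨a, fun j => ?_⟩
    rw [← ha]
    refine i2 ?_ j
    rw [ha, s1_bnd_even]
    simp
  · rw [ha, s1_bnd_odd] at i1
    have ha : (0 : ℤ) ≤ a := Int.natCast_nonneg _
    linarith

theorem s1_lin (k : ℕ) (b : ℤ) :
    ∑ t ∈ range k, (-2 * (t : ℤ) - b) = -(k * (k - 1)) - b * k := by
  induction k with
  | zero => simp
  | succ k ih =>
    rw [sum_range_succ, ih]
    push_cast
    ring

/-- types B (`β = 1`) and D (`β = 0`) -/
theorem sumBD {m : ℕ → ℕ} {N k β : ℕ} (hβ : β ≤ 1) (hz : ∀ j, N ≤ j → m j = 0)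
    (h1 : ∀ j, m (j + 1) ≤ m j) (h2 : ∀ j, m j ≤ m (j + 1) + 2) (h3 : 2 * k + β ≤ m 0 + 2)
    (h4 : m 0 ≤ 2 * k + β)
    (hT : ∑ t ∈ range k, (-2 * (t : ℤ) - β) +
      ∑ j ∈ range N, ∑ t ∈ range (m j), evv (1 + 2 * j) (1 - β) t = 0) (j : ℕ) :
    m j = 2 * k + β - 2 * (j + 1) := by
  have hδ : (1 - (β : ℤ)) = 0 ∨ (1 - (β : ℤ)) = 1 := by omega
  obtain ⟨i1, i2⟩ := sumB hz h1 h2 (κ := 1) (δ := 1 - β) (by omega) hδ
  rw [s1_lin] at hT
  set T := ∑ j ∈ range N, ∑ t ∈ range (m j), evv (1 + 2 * j) (1 - β) t with hTd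
  have key : m 0 = 2 * k + β - 2 ∧ T = bnd 1 (1 - β) (m 0) := by
    rcases k with _ | k
    · rcases (by omega : m 0 = 0 ∨ (m 0 = 2 * 0 + 1 ∧ β = 1)) with b | ⟨b, hb⟩
      · refine ⟨by omega, ?_⟩
        rw [b]
        simp [bnd] at hT ⊢
        exact hT
      · exfalso
        rw [b, s1_bnd_odd] at i1
        simp [hb] at hT i1
        omega
    · have hk : (0 : ℤ) ≤ k := Int.natCast_nonneg _
      push_cast at hT
      rcases (by omega : β = 0 ∨ β = 1) with rfl | rfl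
      · simp only [Nat.cast_zero, sub_zero, zero_mul] at hT i1 ⊢
        rcases (by omega : m 0 = 2 * k ∨ m 0 = 2 * k + 1 ∨ m 0 = 2 * (k + 1)) with b | b | b
        · refine ⟨by omega, ?_⟩
          rw [b, s1_bnd_even]
          linarith
        · exfalso
          rw [b, s1_bnd_odd] at i1
          nlinarith
        · exfalso
          rw [b, s1_bnd_even] at i1
          push_cast at i1
          nlinarith
      · simp only [Nat.cast_one, sub_self, one_mul] at hT i1 ⊢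
        rcases (by omega : m 0 = 2 * k + 1 ∨ m 0 = 2 * (k + 1) ∨ m 0 = 2 * (k + 1) + 1) with
          b | b | b
        · refine ⟨by omega, ?_⟩
          rw [b, s1_bnd_odd]
          linarith
        · exfalso
          rw [b, s1_bnd_even] at i1
          push_cast at i1
          nlinarith
        · exfalso
          rw [b, s1_bnd_odd] at i1
          push_cast at i1
          nlinarith
  rw [i2 key.2 j, key.1]
  omega

end

end Pool.Agent.P.MP_5e2a31_al.L
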