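import Pool.Agent.P.MP_5e2a31_al.L.WBase

/-! Package S2: symbols and contents. -/

namespace Pool.Agent.P.MP_5e2a31_al.L

open Finset Equiv SemidirectProduct Pool.Agent.P.MP_1a0ecf_al
open scoped Classical

noncomputable section

variable {n : ℕ}

/-- the symbol has the entries `0, …, 2 k + d - 1` -/
def Sy (d k : ℕ) (α β : YoungDiagram) : Prop :=
  α.colLen 0 ≤ k + d ∧ β.colLen 0 ≤ k ∧ symbolEntries d k α β = Multiset.range (2 * k + d)

theorem s2_rows {M : Type} [AddCommMonoid M] (μ : YoungDiagram) {m : ℕ} (hm : μ.colLen 0 ≤ m)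
    (f : ℕ × ℕ → M) :
    ∑ c ∈ μ.cells, f c = ∑ i ∈ range m, ∑ j ∈ range (μ.rowLen i), f (i, j) := by
  refine Finset.sum_finset_product _ _ _ ?_
  rintro ⟨i, j⟩
  simp only [YoungDiagram.mem_cells, mem_range]
  refine ⟨fun h => ⟨?_, YoungDiagram.mem_iff_lt_rowLen.1 h⟩,
    fun h => YoungDiagram.mem_iff_lt_rowLen.2 h.2⟩
  have := YoungDiagram.mem_iff_lt_colLen.1 (μ.up_left_mem le_rfl (Nat.zero_le j) h)
  omega

theorem s2_shift (μ : YoungDiagram) {m : ℕ} (hm : μ.colLen 0 ≤ m) (g : ℤ → ℂ) :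
    ∑ c ∈ μ.cells, g ((c.2 : ℤ) - c.1) +
        ∑ i ∈ range m, ∑ y ∈ range (m - 1 - i), g ((y : ℤ) - m + 1) =
      ∑ i ∈ range m, ∑ y ∈ range (μ.rowLen i + (m - 1 - i)), g ((y : ℤ) - m + 1) := by
  rw [s2_rows μ hm, ← sum_add_distrib]
  refine sum_congr rfl fun i hi => ?_
  rw [mem_range] at hi
  rw [add_comm (μ.rowLen i), sum_range_add, add_comm]
  congr 1
  refine sum_congr rfl fun j _ => ?_
  congr 1
  simp only
  omega

theorem s2_csum {d k : ℕ} {α β : YoungDiagram} (h : Sy d k α β) (g : ℤ → ℂ) :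
    csum d α β g + (∑ i ∈ range (k + d), ∑ y ∈ range (k + d - 1 - i), g (2 * ((y : ℤ) - k + 1) - d)
      + ∑ i ∈ range k, ∑ y ∈ range (k - 1 - i), g (2 * ((y : ℤ) - k + 1) - d)) =
      ((Multiset.range (2 * k + d)).map
        fun z => ∑ y ∈ range z, g (2 * ((y : ℤ) - k + 1) - d)).sum := by
  have h1 := s2_shift α h.1 fun t => g (2 * t + d)
  have h2 := s2_shift β h.2.1 fun t => g (2 * t - d)
  have e : ∀ y : ℕ, 2 * ((y : ℤ) - (k + d : ℕ) + 1) + d = 2 * ((y : ℤ) - k + 1) - d := by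
    intro y
    push_cast
    ring
  simp only [e] at h1
  rw [← h.2.2, symbolEntries, Multiset.map_add, Multiset.sum_add, Multiset.map_map,
    Multiset.map_map, csum, add_add_add_comm, h1, h2]
  rfl

theorem csum_eq {d k : ℕ} (hd : d = 0 ∨ d = 1) {α β α' β' : YoungDiagram} (h : Sy d k α β)
    (h' : Sy d k α' β') (g : ℤ → ℂ) : csum d α β g = csum d α' β' g := by
  have _ := hd
  exact add_right_cancel ((s2_csum h g).trans (s2_csum h' g).symm)

theorem s2_colLen {μ : YoungDiagram} {m : ℕ} (h : ∀ i, (i, 0) ∈ μ → i < m) : μ.colLen 0 ≤ m := by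
  by_contra h1
  exact lt_irrefl _ (h m (YoungDiagram.mem_iff_lt_colLen.2 (not_le.1 h1)))

theorem sy_stair {d k : ℕ} (hd : d = 0 ∨ d = 1) :
    Sy d k (staircase k) (staircase (k + d - 1)) := by
  have hc : Compl (k + d) k (staircase k) (staircase (k + d - 1)) := by
    refine ⟨fun i j h => ?_, fun i j h => ?_, fun i hi j hj => ?_⟩
    · rw [mem_staircase] at h
      simp only at h
      omega
    · rw [mem_staircase] at h
      simp only at h
      omega
    · rw [mem_staircase, mem_staircase]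
      simp only
      omega
  refine ⟨s2_colLen fun i h => (hc.1 i 0 h).1, s2_colLen fun i h => (hc.2.1 i 0 h).1, ?_⟩
  rw [symbolEntries, hc.symbol]
  congr 1
  omega

theorem bitab_sum {α β : YoungDiagram} {τ : Fin n → (ℕ × ℕ) ⊕ (ℕ × ℕ)} (h : IsBitableau α β τ)
    (f : (ℕ × ℕ) ⊕ (ℕ × ℕ) → ℂ) :
    ∑ i, f (τ i) = ∑ c ∈ α.cells, f (Sum.inl c) + ∑ c ∈ β.cells, f (Sum.inr c) := by
  have : univ.image τ = α.cells.disjSum β.cells := by
    ext c
    simp only [mem_image, mem_univ, true_and, h.2 c]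
    rcases c with c | c <;> simp
  rw [← sum_disjSum α.cells β.cells f, ← this, sum_image fun _ _ _ _ e => h.1 e]

theorem s2_gauss (k : ℕ) : 2 * ∑ i ∈ range k, (k - i) = k * (k + 1) := by
  induction k with
  | zero => simp
  | succ k ih =>
    rw [sum_range_succ']
    simp only [Nat.add_sub_add_right, Nat.sub_zero]
    rw [mul_add, ih]
    ring

theorem card_staircase (k : ℕ) : 2 * (staircase k).card = k * (k + 1) := by
  have hk : (staircase k).colLen 0 ≤ k := s2_colLen fun i h => by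
    rw [mem_staircase] at h
    simpa using h
  rw [YoungDiagram.card, card_eq_sum_ones, s2_rows _ hk, ← s2_gauss]
  congr 1
  refine sum_congr rfl fun i _ => ?_
  rw [← card_eq_sum_ones, card_range]
  refine eq_of_forall_lt_iff fun j => ?_
  rw [← YoungDiagram.mem_iff_lt_rowLen, mem_staircase]
  simp only
  omega

theorem s2_sub {μ : YoungDiagram} {N : ℕ} (h : μ.card ≤ N) :
    μ.cells ∈ (range N ×ˢ range N).powerset := by
  rw [mem_powerset]
  rintro ⟨i, j⟩ hc
  rw [YoungDiagram.mem_cells] at hc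
  have h1 := YoungDiagram.mem_iff_lt_rowLen.1 hc
  have h2 := YoungDiagram.mem_iff_lt_colLen.1 hc
  rw [YoungDiagram.rowLen_eq_card] at h1
  rw [YoungDiagram.colLen_eq_card] at h2
  have h3 : (μ.row i).card ≤ μ.card := card_le_card (filter_subset _ _)
  have h4 : (μ.col j).card ≤ μ.card := card_le_card (filter_subset _ _)
  simp only [mem_product, mem_range]
  omega

theorem finite_family (d k : ℕ) : Finite (Family d k) := by
  refine Finite.of_injective
    (β := (range (k * (k + d)) ×ˢ range (k * (k + d))).powerset ×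
      (range (k * (k + d)) ×ˢ range (k * (k + d))).powerset)
    (fun p => (⟨p.1.1.cells, s2_sub (by have := p.2.1; omega)⟩,
      ⟨p.1.2.cells, s2_sub (by have := p.2.1; omega)⟩)) ?_
  intro p q h
  simp only [Prod.mk.injEq, Subtype.mk.injEq] at h
  exact Subtype.ext (Prod.ext (YoungDiagram.ext h.1) (YoungDiagram.ext h.2))

theorem exists_rect {k : ℕ} (hk : 1 ≤ k) : ∃ (p : Family 0 k)
    (τ : Fin (k * (k + 0)) → (ℕ × ℕ) ⊕ (ℕ × ℕ)), p.1.2 = ⊥ ∧ IsBitableau p.1.1 p.1.2 τ := by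
  have hm : ∀ i j, (i, j) ∈ ydOf k (fun _ => k) antitone_const ↔ i < k ∧ j < k :=
    fun i j => mem_ydOf
  have hb : ∀ c : ℕ × ℕ, c ∉ (⊥ : YoungDiagram) := YoungDiagram.notMem_bot
  have hc : Compl (k + 0) k (ydOf k (fun _ => k) antitone_const) ⊥ :=
    ⟨fun i j h => (hm i j).1 h, fun i j h => (hb _ h).elim,
      fun i hi j hj => ⟨fun _ => hb _, fun _ => (hm i j).2 ⟨hi, hj⟩⟩⟩
  have hτ : IsBitableau (n := k * (k + 0)) (ydOf k (fun _ => k) antitone_const) ⊥
      fun i : Fin (k * k) => Sum.inl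
        (((finProdFinEquiv.symm i).1 : ℕ), ((finProdFinEquiv.symm i).2 : ℕ)) := by
    constructor
    · intro i j h
      simp only [Sum.inl.injEq, Prod.mk.injEq] at h
      exact finProdFinEquiv.symm.injective (Prod.ext (Fin.ext h.1) (Fin.ext h.2))
    · rintro (⟨i, j⟩ | c)
      · rw [Sum.elim_inl, hm]
        constructor
        · rintro ⟨t, ht⟩
          simp only [Sum.inl.injEq, Prod.mk.injEq] at ht
          exact ⟨ht.1 ▸ Fin.isLt _, ht.2 ▸ Fin.isLt _⟩
        · rintro ⟨hi, hj⟩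
          refine ⟨finProdFinEquiv (⟨i, hi⟩, ⟨j, hj⟩), ?_⟩
          simp only [Equiv.symm_apply_apply]
      · rw [Sum.elim_inr]
        exact ⟨fun ⟨t, ht⟩ => by simp at ht, fun h => (hb _ h).elim⟩
  refine ⟨⟨(ydOf k (fun _ => k) antitone_const, ⊥), hτ.card,
    s2_colLen fun i h => (hc.1 i 0 h).1, s2_colLen fun i h => (hb _ h).elim, ?_, fun _ => ?_⟩,
    _, rfl, hτ⟩
  · rw [symbolEntries, hc.symbol]
    congr 1
    omega
  · have h1 : (⊥ : YoungDiagram).rowLen 0 = 0 := by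
      by_contra h
      exact hb (0, 0) (YoungDiagram.mem_iff_lt_rowLen.2 (Nat.pos_of_ne_zero h))
    simp only [h1]
    exact YoungDiagram.mem_iff_lt_rowLen.1 ((hm 0 0).2 ⟨hk, hk⟩)

end

end Pool.Agent.P.MP_5e2a31_al.L
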