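import Pool.Agent.P.MP_5e2a31_al.L.WBase

/-! Package T1: the Coxeter matrix of the explicit generators. -/

namespace Pool.Agent.P.MP_5e2a31_al.L

open Finset Equiv SemidirectProduct Pool.Agent.P.MP_1a0ecf_al
open scoped Classical

noncomputable section

variable {n : ℕ}

theorem t1_U_pos {m k : ℕ} (hm : 2 ≤ m) (h0 : 0 < k) (hk : k < m) :
    0 < F.Cox0.g1_U (2 * Real.cos (Real.pi / m)) k := by
  have h := F.Cox0.g1_U_sin (Real.pi / m) k
  have h2 : (0 : ℝ) < m := by
    have : 0 < m := by omega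
    exact_mod_cast this
  have h3 : (k : ℝ) < m := by exact_mod_cast hk
  have h5 : (0 : ℝ) < k := by exact_mod_cast h0
  have h4 : 0 < Real.sin (k * (Real.pi / m)) := by
    refine Real.sin_pos_of_pos_of_lt_pi (mul_pos h5 (div_pos Real.pi_pos h2)) ?_
    rw [← mul_div_assoc, div_lt_iff₀ h2]
    nlinarith [Real.pi_pos]
  rw [← h] at h4
  exact (mul_pos_iff_of_pos_right (F.Cox0.g1_sin_pos hm)).1 h4

theorem M_eq_orderOf (X : F.Cox) (i j : Fin X.n) : X.M i j = orderOf (X.s i * X.s j) := by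
  by_cases hij : i = j
  · subst hij
    rw [X.M.diagonal, X.cs.simple_mul_simple_self, orderOf_one]
  have h2 := X.two_le_M hij
  refine ((orderOf_eq_iff (by omega)).2 ⟨X.cs.simple_mul_simple_pow i j, ?_⟩).symm
  intro k hk h0 e
  obtain ⟨k, rfl⟩ : ∃ k', k = k' + 1 := ⟨k - 1, by omega⟩
  have e1 : (X.sr i * X.sr j) ^ (k + 1) = 1 := by
    rw [← X.σ_simple, ← X.σ_simple, ← map_mul, ← map_pow, e, map_one]
  have key := X.g1_pow i j (X.al i) (k + 1) (0, 0)
  rw [e1, Matrix.one_mulVec, X.g1_al, X.g1_al, X.K_diag, X.g1_negK i j, X.g1_negK' i j] at key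
  have hK : X.K j i = -(2 * Real.cos (Real.pi / X.M i j)) := by
    rw [← X.g1_negK' i j, neg_neg]
  rw [hK, F.Cox0.g1_iter] at key
  have hU := t1_U_pos h2 h0 hk
  have hs := F.Cox0.g1_sin_pos h2
  have hc := Real.sin_sq_add_cos_sq (Real.pi / X.M i j)
  have ki := congrFun key i
  have kj := congrFun key j
  have hji : j ≠ i := fun h => hij h.symm
  simp only [F.Cox0.al, Pi.add_apply, Pi.smul_apply, Pi.single_eq_same,
    Pi.single_eq_of_ne hij, Pi.single_eq_of_ne hji, smul_eq_mul, mul_zero, mul_one, add_zero,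
    zero_add, F.Cox0.g1_U] at ki kj
  generalize Real.cos (Real.pi / X.M i j) = c at *
  generalize Real.sin (Real.pi / X.M i j) = s at *
  generalize F.Cox0.g1_U (2 * c) (k + 1) = u at *
  generalize F.Cox0.g1_U (2 * c) k = v at *
  have a1 : v * 2 + u * -(2 * c) = 0 := by
    refine (mul_eq_zero.1 (show u * (v * 2 + u * -(2 * c)) = 0 by linarith)).resolve_left hU.ne'
  have a2 : u * 2 + (2 * c * u - v) * -(2 * c) = 0 := by
    refine (mul_eq_zero.1
      (show u * (u * 2 + (2 * c * u - v) * -(2 * c)) = 0 by linarith)).resolve_left hU.ne'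
  have a3 : u * s ^ 2 = 0 := by linear_combination (1 / 2) * a2 - (c / 2) * a1 + u * hc
  exact (mul_pos hU (pow_pos hs 2)).ne' a3

theorem t1_conj (g : Perm (Fin n)) (i : Fin n) :
    (inr g : HypOct n) * tt i = tt (g i) * inr g := by
  refine SemidirectProduct.ext (funext fun k => ?_) (by simp [tt])
  have e1 : ((inr g : HypOct n) * tt i).left k =
    (inr g : HypOct n).left k * (tt i).left ((inr g : HypOct n).right⁻¹ k) := rfl
  have e2 : (tt (g i) * (inr g : HypOct n)).left k =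
    (tt (g i)).left k * (inr g : HypOct n).left ((tt (g i)).right⁻¹ k) := rfl
  rw [e1, e2]
  simp only [tt, left_inr, right_inr, left_inl, right_inl, Pi.one_apply, one_mul, mul_one]
  by_cases h : k = g i
  · subst h
    simp
  · have h' : g⁻¹ k ≠ i := fun e => h (by rw [← e]; simp)
    rw [Pi.mulSingle_eq_of_ne h, Pi.mulSingle_eq_of_ne h']

theorem t1_tt_sq (i : Fin n) : tt i * tt i = 1 := by
  rw [tt, ← map_mul, ← Pi.mulSingle_mul]
  simp

theorem t1_tt_comm (i j : Fin n) : tt i * tt j = tt j * tt i := by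
  rw [tt, tt, ← map_mul, ← map_mul, mul_comm]

theorem t1_tt_ne {i j : Fin n} (h : i ≠ j) : tt i * tt j ≠ 1 := by
  intro e
  rw [tt, tt, ← map_mul] at e
  have e1 := congrFun (congrArg SemidirectProduct.left e) i
  simp only [left_inl, Pi.mul_apply, Pi.mulSingle_eq_same, Pi.mulSingle_eq_of_ne h, mul_one,
    one_left, Pi.one_apply] at e1
  have e2 : (-1 : ℤˣ) ≠ 1 := by decide
  exact e2 e1

theorem t1_ss_sq (i j : Fin n) : ss i j * ss i j = 1 := by
  rw [ss, ← map_mul, swap_mul_self, map_one]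

theorem t1_ss_tt {a c d : Fin n} (hc : a ≠ c) (hd : a ≠ d) : ss c d * tt a = tt a * ss c d := by
  rw [ss, t1_conj, swap_apply_of_ne_of_ne hc hd]

theorem t1_ss_tt' (a b : Fin n) : ss a b * tt a = tt b * ss a b := by
  rw [ss, t1_conj, swap_apply_left]

theorem t1_ord_disj {a b c d : Fin n} (hab : a ≠ b) (hac : a ≠ c) (had : a ≠ d) (hbc : b ≠ c)
    (hbd : b ≠ d) : orderOf (ss a b * ss c d) = 2 := by
  rw [ss, ss, ← map_mul, orderOf_injective _ inr_injective]
  have hcomm : swap a b * swap c d = swap c d * swap a b := by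
    rw [swap_mul_eq_mul_swap, swap_inv, swap_apply_of_ne_of_ne hac had,
      swap_apply_of_ne_of_ne hbc hbd]
  refine orderOf_eq_prime ?_ fun e => ?_
  · rw [(show Commute (swap a b) (swap c d) from hcomm).mul_pow, pow_two, pow_two, swap_mul_self,
      swap_mul_self, mul_one]
  · have e1 := congrArg (fun g : Perm (Fin n) => g a) e
    simp only [Perm.mul_apply, swap_apply_of_ne_of_ne hac had, swap_apply_left, Perm.one_apply]
      at e1
    exact hab e1.symm

theorem t1_ord_three {a b c : Fin n} (hab : a ≠ b) (hac : a ≠ c) (hbc : b ≠ c) :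
    orderOf (ss a b * ss b c) = 3 := by
  rw [ss, ss, ← map_mul, orderOf_injective _ inr_injective, swap_comm a b]
  exact (Perm.isThreeCycle_swap_mul_swap_same hab.symm hbc hac).orderOf

theorem t1_ord_t2 {a c d : Fin n} (hc : a ≠ c) (hd : a ≠ d) (hcd : c ≠ d) :
    orderOf (tt a * ss c d) = 2 := by
  refine orderOf_eq_prime ?_ fun e => ?_
  · rw [pow_two, mul_assoc, ← mul_assoc (ss c d), t1_ss_tt hc hd, mul_assoc, t1_ss_sq, mul_one,
      t1_tt_sq]
  · have e1 := congrArg SemidirectProduct.right e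
    simp only [tt, ss, mul_right, right_inl, right_inr, one_mul, one_right] at e1
    exact hcd (swap_eq_one_iff.1 e1)

theorem t1_ord_tt {a b : Fin n} (hab : a ≠ b) : orderOf (tt a * tt b) = 2 := by
  refine orderOf_eq_prime ?_ (t1_tt_ne hab)
  rw [pow_two, mul_assoc, ← mul_assoc (tt b), t1_tt_comm b a, mul_assoc, t1_tt_sq, mul_one,
    t1_tt_sq]

theorem t1_ord_four {a b : Fin n} (hab : a ≠ b) : orderOf (tt a * ss a b) = 4 := by
  have e : (tt a * ss a b) ^ 2 = tt a * tt b := by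
    rw [pow_two, mul_assoc, ← mul_assoc (ss a b), t1_ss_tt', mul_assoc, t1_ss_sq, mul_one]
  refine orderOf_eq_prime_pow (p := 2) (n := 1) ?_ ?_
  · rw [pow_one, e]
    exact t1_tt_ne hab
  · rw [pow_succ, pow_one, pow_mul, e, ← t1_ord_tt hab, pow_orderOf_eq_one]

theorem t1_ord_conj {a b c d : Fin n} (hc : a ≠ c) (hd : a ≠ d) :
    orderOf (tt a * tt b * ss a b * ss c d) = orderOf (ss a b * ss c d) := by
  refine (SemiconjBy.orderOf_eq (tt a) ?_).symm
  unfold SemiconjBy
  rw [mul_assoc _ (ss c d), t1_ss_tt hc hd, mul_assoc (tt a) (tt b), ← t1_ss_tt' a b]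
  simp only [mul_assoc]
  rw [← mul_assoc (tt a) (tt a), t1_tt_sq, one_mul]

theorem t1_tr {i : ℕ} (h : i + 1 < n) : tr n i = ss ⟨i, by omega⟩ ⟨i + 1, h⟩ := by
  rw [tr, dif_pos h, ss]

theorem t1_neg1 (h : 0 < n) : neg n 1 = tt ⟨0, h⟩ := by
  rw [neg, tt]
  refine congrArg _ (funext fun k => ?_)
  by_cases hk : k = ⟨0, h⟩
  · subst hk
    simp
  · have : ¬ k.1 < 1 := fun e => hk (Fin.ext (by simp only; omega))
    rw [if_neg this, Pi.mulSingle_eq_of_ne hk]

theorem t1_neg2 (h : 0 + 1 < n) : neg n 2 = tt ⟨0, by omega⟩ * tt ⟨0 + 1, h⟩ := by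
  rw [neg, tt, tt, ← map_mul]
  refine congrArg _ (funext fun k => ?_)
  have h01 : (⟨0, by omega⟩ : Fin n) ≠ ⟨0 + 1, h⟩ := fun e => by simpa using congrArg Fin.val e
  rw [Pi.mul_apply]
  by_cases hk : k = ⟨0, by omega⟩
  · subst hk
    rw [Pi.mulSingle_eq_same, Pi.mulSingle_eq_of_ne h01]
    simp
  by_cases hk' : k = ⟨0 + 1, h⟩
  · subst hk'
    rw [Pi.mulSingle_eq_same, Pi.mulSingle_eq_of_ne hk]
    simp
  · have : ¬ k.1 < 2 := fun e => by
      have a1 : k.1 ≠ 0 := fun e => hk (Fin.ext e)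
      have a2 : k.1 ≠ 0 + 1 := fun e => hk' (Fin.ext e)
      omega
    rw [if_neg this, Pi.mulSingle_eq_of_ne hk, Pi.mulSingle_eq_of_ne hk', mul_one]

theorem t1_ne {i j : ℕ} {hi : i < n} {hj : j < n} (h : i ≠ j) :
    (⟨i, hi⟩ : Fin n) ≠ ⟨j, hj⟩ := fun e => h (congrArg Fin.val e)

theorem t1_trtr {i j : ℕ} (hij : i < j) (hj : j + 1 < n) :
    orderOf (tr n i * tr n j) = if i + 1 = j then 3 else 2 := by
  rw [t1_tr (show i + 1 < n by omega), t1_tr hj]
  split_ifs with h
  · subst h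
    exact t1_ord_three (t1_ne (by omega)) (t1_ne (by omega)) (t1_ne (by omega))
  · exact t1_ord_disj (t1_ne (by omega)) (t1_ne (by omega)) (t1_ne (by omega)) (t1_ne (by omega))
      (t1_ne (by omega))

variable {X : F.Cox} {φ : X.W →* HypOct n}

theorem t1_is {f : ℕ → ℕ → ℕ} (hf1 : ∀ i, f i i = 1) (hfs : ∀ i j, f i j = f j i)
    (hφ : Function.Injective φ) {s : ℕ → HypOct n} (hs : ∀ i : Fin X.n, φ (X.s i) = s i)
    (h : ∀ i j, i < j → j < X.n → orderOf (s i * s j) = f i j) : X.Is f := by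
  have H : ∀ i j : Fin X.n, i < j → X.M i j = f i j := fun i j hij => by
    rw [M_eq_orderOf, ← orderOf_injective φ hφ, map_mul, hs, hs, h i j hij j.2]
  intro i j
  rcases lt_trichotomy i j with hij | rfl | hij
  · exact H i j hij
  · rw [X.M.diagonal, hf1]
  · rw [X.M.symmetric, H j i hij, hfs]

theorem t1_path_symm (k m i j : ℕ) : F.pathM k m i j = F.pathM k m j i := by
  simp only [F.pathM, min_comm i j, eq_comm (a := i) (b := j), or_comm (a := i + 1 = j)]

theorem t1_dM_symm (i j : ℕ) : F.dM i j = F.dM j i := by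
  simp only [F.dM, min_comm i j, max_comm i j, eq_comm (a := i) (b := j),
    or_comm (a := i + 1 = j)]

theorem isA (hn : X.n + 1 = n) (hφ : Function.Injective φ)
    (hs : ∀ i : Fin X.n, φ (X.s i) = tr n i) : X.Is (F.pathM 0 3) := by
  refine t1_is (fun i => by simp [F.pathM]) (t1_path_symm 0 3) hφ hs fun i j hij hj => ?_
  rw [t1_trtr hij (by omega), F.pathM]
  split_ifs <;> omega

theorem isB (hn : X.n = n) (hφ : Function.Injective φ)
    (hs : ∀ i : Fin X.n, φ (X.s i) = sB n i) : X.Is (F.pathM 0 4) := by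
  refine t1_is (fun i => by simp [F.pathM]) (t1_path_symm 0 4) hφ hs fun i j hij hj => ?_
  obtain ⟨j, rfl⟩ : ∃ j', j = j' + 1 := ⟨j - 1, by omega⟩
  have hj' : j + 1 < n := by omega
  rcases i with _ | i
  · simp only [sB, if_pos, Nat.add_eq_zero_iff, one_ne_zero, and_false, if_false,
      Nat.add_sub_cancel]
    rw [t1_neg1 (by omega), t1_tr hj']
    by_cases h : j = 0
    · subst h
      rw [t1_ord_four (t1_ne (by omega))]
      simp [F.pathM]
    · rw [t1_ord_t2 (t1_ne (by omega)) (t1_ne (by omega)) (t1_ne (by omega)), F.pathM,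
        if_neg (by omega), if_neg (by omega)]
  · simp only [sB, Nat.add_eq_zero_iff, one_ne_zero, and_false, if_false, Nat.add_sub_cancel]
    rw [t1_trtr (by omega) hj', F.pathM]
    split_ifs <;> omega

theorem isD (hn : X.n = n) (hφ : Function.Injective φ)
    (hs : ∀ i : Fin X.n, φ (X.s i) = sD n i) : X.Is F.dM := by
  refine t1_is (fun i => by simp [F.dM]) t1_dM_symm hφ hs fun i j hij hj => ?_
  obtain ⟨j, rfl⟩ : ∃ j', j = j' + 1 := ⟨j - 1, by omega⟩
  have hj' : j + 1 < n := by omega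
  rcases i with _ | i
  · simp only [sD, if_pos, Nat.add_eq_zero_iff, one_ne_zero, and_false, if_false,
      Nat.add_sub_cancel]
    have h1 : 0 + 1 < n := by omega
    rw [t1_neg2 h1]
    by_cases h : j = 0
    · subst h
      rw [mul_assoc, t1_tr h1, t1_ss_sq, mul_one, t1_ord_tt (t1_ne (by omega))]
      simp [F.dM]
    · have e := t1_trtr (Nat.pos_of_ne_zero h) hj'
      rw [t1_tr h1, t1_tr hj'] at e ⊢
      rw [t1_ord_conj (t1_ne (by omega)) (t1_ne (by omega)), e, F.dM,
        if_neg (show ¬0 = j + 1 by omega)]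
      clear e
      split_ifs <;> omega
  · simp only [sD, Nat.add_eq_zero_iff, one_ne_zero, and_false, if_false, Nat.add_sub_cancel]
    rw [t1_trtr (by omega) hj', F.dM]
    split_ifs <;> omega

end

end Pool.Agent.P.MP_5e2a31_al.L
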