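import Pool.Agent.P.MP_5e2a31_al.L.WBase

/-! Package T2: the Jucys-Murphy elements as sums of signed transpositions. -/

namespace Pool.Agent.P.MP_5e2a31_al.L

open Finset Equiv SemidirectProduct Pool.Agent.P.MP_1a0ecf_al
open scoped Classical

noncomputable section

variable {n : ℕ}

theorem t2_sq (a b : Fin n) : ss a b * ss a b = 1 := by
  rw [ss, ← map_mul, swap_mul_self, map_one]

theorem t2_ctt (a b i : Fin n) : ss a b * tt i * ss a b = tt (swap a b i) := by
  have := inl_aut (φ := mulAutArrow) (swap a b) (Pi.mulSingle i (-1) : Fin n → ℤˣ)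
  rw [swap_inv] at this
  rw [ss, tt, ← this, tt]
  congr 1
  funext j
  change (Pi.mulSingle i (-1) : Fin n → ℤˣ) ((swap a b)⁻¹ j) = _
  simp only [Pi.mulSingle_apply, swap_inv, swap_apply_eq_iff]

theorem t2_css (a b i j : Fin n) : ss a b * ss i j * ss a b = ss (swap a b i) (swap a b j) := by
  simp only [ss, swap_apply_apply, swap_inv, map_mul]

theorem t2_cm (a b i j : Fin n) : ss a b * (tt i * tt j * ss i j) * ss a b =
    tt (swap a b i) * tt (swap a b j) * ss (swap a b i) (swap a b j) := by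
  rw [← t2_ctt, ← t2_ctt, ← t2_css]
  simp only [mul_assoc, ← mul_assoc (ss a b) (ss a b), t2_sq, one_mul]

theorem t2_step (α β : ℂ) {k k' : Fin n} (h : k'.1 = k.1 + 1) :
    gH (ss k k') * ju α β k * gH (ss k k') +
      (gH (ss k k') + α • gH (tt k * tt k' * ss k k')) = ju α β k' := by
  have e : (univ.filter fun j => j < k') = insert k (univ.filter fun j => j < k) := by
    ext j
    simp only [mem_filter, mem_univ, true_and, mem_insert, Fin.lt_def, Fin.ext_iff]
    omega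
  rw [ju, ju, e, sum_insert (by simp), mul_add, add_mul, mul_sum, sum_mul, mul_smul_comm,
    smul_mul_assoc, ← map_mul, ← map_mul, t2_ctt, swap_apply_left,
    sum_congr rfl (g := fun j => gH (ss j k') + α • gH (tt j * tt k' * ss j k')) fun j hj => ?_]
  · abel
  · have h1 := (mem_filter.1 hj).2
    have h2 : swap k k' j = j :=
      swap_apply_of_ne_of_ne h1.ne (Fin.ne_of_val_ne (by have := Fin.lt_def.1 h1; omega))
    rw [mul_add, add_mul, mul_smul_comm, smul_mul_assoc, ← map_mul, ← map_mul, ← map_mul,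
      ← map_mul, t2_css, t2_cm, h2, swap_apply_left]

theorem t2_zero (α β : ℂ) (h : 0 < n) : ju α β ⟨0, h⟩ = β • gH (tt ⟨0, h⟩) := by
  have e : (univ.filter fun j : Fin n => j < ⟨0, h⟩) = ∅ := by
    ext j
    simp [Fin.lt_def]
  rw [ju, e, sum_empty, zero_add]

theorem t2_tr {i : ℕ} (h : i + 1 < n) : tr n i = ss ⟨i, by omega⟩ ⟨i + 1, h⟩ := dif_pos h

theorem t2_neg1 (h : 0 < n) : neg n 1 = tt ⟨0, h⟩ := by
  rw [neg, tt]
  congr 1
  funext j
  simp [Pi.mulSingle_apply, Fin.ext_iff]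

theorem t2_neg2 (h : 0 + 1 < n) : neg n 2 = tt ⟨0, by omega⟩ * tt ⟨0 + 1, h⟩ := by
  rw [neg, tt, tt, ← map_mul]
  congr 1
  funext j
  simp only [Pi.mul_apply, Pi.mulSingle_apply, Fin.ext_iff]
  split_ifs <;> first | omega | simp

variable {X : F.Cox} {φ : X.W →* HypOct n}

theorem t2_of (w : X.W) : MonoidAlgebra.mapDomainAlgHom ℂ ℂ φ (X.gA w) = gH (φ w) := by
  simp

theorem t2_sN {s : ℕ → HypOct n} (hs : ∀ i : Fin X.n, φ (X.s i) = s i) {k : ℕ} (hk : k < X.n) :
    φ (X.sN k) = s k := by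
  rw [F.Cox.sN, dif_pos hk, hs]

theorem image_uA (hn : X.n + 1 = n) (hs : ∀ i : Fin X.n, φ (X.s i) = tr n i) (k : Fin n) :
    MonoidAlgebra.mapDomainAlgHom ℂ ℂ φ (X.uA 1 k) = ju 0 0 k := by
  obtain ⟨k, hk⟩ := k
  induction k with
  | zero => simp [F.Cox.uA, t2_zero]
  | succ k ih =>
    have := ih (by omega)
    simp only at this
    rw [← t2_step 0 0 (k := ⟨k, by omega⟩) rfl]
    simp only [F.Cox.uA, map_add, map_mul, one_smul, t2_of, this, t2_sN hs (show k < X.n by omega),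
      t2_tr hk, zero_smul, add_zero]

theorem t2_succ {s : ℕ → HypOct n} (hn : X.n = n) (hs : ∀ i : Fin X.n, φ (X.s i) = s i)
    (h : ∀ k, s (k + 1) = tr n k) {k : ℕ} (hk : k + 1 < n) :
    φ (X.sN (k + 1)) = ss ⟨k, by omega⟩ ⟨k + 1, hk⟩ := by
  rw [t2_sN hs (by omega), h, t2_tr hk]

theorem t2_tB (hn : X.n = n) (hs : ∀ i : Fin X.n, φ (X.s i) = sB n i) {k : ℕ} (hk : k < n) :
    φ (X.tB k) = tt ⟨k, hk⟩ := by
  induction k with
  | zero => rw [F.Cox.tB, t2_sN hs (by omega)]; exact t2_neg1 hk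
  | succ k ih =>
    rw [F.Cox.tB, map_mul, map_mul, ih (by omega), t2_succ hn hs (fun _ => rfl) hk, t2_ctt,
      swap_apply_left]

theorem image_uB (hn : X.n = n) (hs : ∀ i : Fin X.n, φ (X.s i) = sB n i) (k : Fin n) :
    MonoidAlgebra.mapDomainAlgHom ℂ ℂ φ (X.uB 1 1 k) = ju 1 1 k := by
  obtain ⟨k, hk⟩ := k
  induction k with
  | zero =>
    have := t2_tB hn hs hk
    rw [F.Cox.tB] at this
    simp only [F.Cox.uB, t2_zero, one_smul, t2_of, this]
  | succ k ih =>
    have := ih (by omega)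
    simp only at this
    have e : φ (X.tB k * X.sN (k + 1) * X.tB k) =
        tt ⟨k, by omega⟩ * tt ⟨k + 1, hk⟩ * ss ⟨k, by omega⟩ ⟨k + 1, hk⟩ := by
      have c := t2_ctt (⟨k, by omega⟩ : Fin n) ⟨k + 1, hk⟩ ⟨k, by omega⟩
      rw [swap_apply_left] at c
      rw [map_mul, map_mul, t2_tB hn hs (by omega), t2_succ hn hs (fun _ => rfl) hk, ← c]
      simp only [mul_assoc, t2_sq, mul_one]
    rw [← t2_step 1 1 (k := ⟨k, by omega⟩) rfl, ← e, F.Cox.uB, map_add, map_mul, map_mul, one_smul,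
      map_add, t2_of, t2_of, this, t2_succ hn hs (fun _ => rfl) hk, one_smul]

theorem t2_mD (hn : X.n = n) (hs : ∀ i : Fin X.n, φ (X.s i) = sD n i) {k : ℕ} (hk : k + 1 < n) :
    φ (X.mD k) = tt ⟨k, by omega⟩ * tt ⟨k + 1, hk⟩ * ss ⟨k, by omega⟩ ⟨k + 1, hk⟩ := by
  induction k with
  | zero =>
    rw [F.Cox.mD, t2_sN hs (by omega), ← t2_neg2 hk, ← t2_tr hk]
    rfl
  | succ k ih =>
    have e : X.mD (k + 1) =
        X.sN (k + 1) * (X.sN (k + 1 + 1) * X.mD k * X.sN (k + 1 + 1)) * X.sN (k + 1) := by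
      simp only [F.Cox.mD, mul_assoc]
    rw [e, map_mul, map_mul, map_mul, map_mul, ih (by omega), t2_succ hn hs (fun _ => rfl) hk,
      t2_succ hn hs (fun _ => rfl) (show k + 1 < n by omega), t2_cm, swap_apply_left,
      swap_apply_of_ne_of_ne (Fin.ne_of_val_ne (by simp)) (Fin.ne_of_val_ne (by simp; omega)),
      t2_cm, swap_apply_left,
      swap_apply_of_ne_of_ne (Fin.ne_of_val_ne (by simp; omega)) (Fin.ne_of_val_ne (by simp))]

theorem image_uD (hn : X.n = n) (hs : ∀ i : Fin X.n, φ (X.s i) = sD n i) (k : Fin n) :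
    MonoidAlgebra.mapDomainAlgHom ℂ ℂ φ (X.uD 1 k) = ju 1 0 k := by
  obtain ⟨k, hk⟩ := k
  induction k with
  | zero => simp [F.Cox.uD, t2_zero]
  | succ k ih =>
    have := ih (by omega)
    simp only at this
    rw [← t2_step 1 0 (k := ⟨k, by omega⟩) rfl, ← t2_mD hn hs hk, F.Cox.uD, map_add, map_mul,
      map_mul, one_smul, map_add, t2_of, t2_of, this, t2_succ hn hs (fun _ => rfl) hk, one_smul]

/-- the span of the odd elements -/
def t2_Od (X : F.Cox) : Submodule ℂ X.GA := Submodule.span ℂ (X.gA '' {w | X.sgn w = -1})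

theorem t2_mem {w : X.W} (h : X.sgn w = -1) : X.gA w ∈ t2_Od X :=
  Submodule.subset_span ⟨w, h, rfl⟩

theorem t2_sgn (x w : X.W) : X.sgn (x * w * x) = X.sgn w := by
  have : X.sgn x * X.sgn x = 1 := by rw [F.Cox0.sgn, ← mul_pow]; simp
  rw [X.sgn_mul, X.sgn_mul, mul_right_comm, this, one_mul]

theorem t2_conj (x : X.W) {a : X.GA} (h : a ∈ t2_Od X) : X.gA x * a * X.gA x ∈ t2_Od X := by
  induction h using Submodule.span_induction with
  | mem _ h =>
    obtain ⟨w, h, rfl⟩ := h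
    rw [← map_mul, ← map_mul]
    exact t2_mem ((t2_sgn x w).trans h)
  | zero => simp
  | add a b _ _ ha hb => rw [mul_add, add_mul]; exact add_mem ha hb
  | smul c a _ ha => rw [mul_smul_comm, smul_mul_assoc]; exact Submodule.smul_mem _ c ha

theorem t2_chx_of (f : X.W → ℂ) (w : X.W) : chx f (X.gA w) = f w := by
  change ∑ v, (X.gA w).coeff v * f v = f w
  rw [sum_eq_single w (fun v _ hv => by simp [Finsupp.single_eq_of_ne hv]) (by simp)]
  simp

theorem t2_odd (χ : X.W → ℂ) {a : X.GA} (h : a ∈ t2_Od X) :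
    chx (fun w => X.sgn w * χ w) a = -chx χ a := by
  induction h using Submodule.span_induction with
  | mem _ h =>
    obtain ⟨w, h, rfl⟩ := h
    rw [t2_chx_of, t2_chx_of, show X.sgn w = -1 from h, neg_one_mul]
  | zero => simp
  | add a b _ _ ha hb => rw [map_add, map_add, ha, hb, neg_add]
  | smul c a _ ha => rw [map_smul, map_smul, ha, smul_neg]

theorem t2_sgn_sN {k : ℕ} (hk : k < X.n) : X.sgn (X.sN k) = -1 := by
  rw [F.Cox.sN, dif_pos hk]
  exact X.sgn_refl (X.cs.isReflection_simple _)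

theorem odd_uA (χ : X.W → ℂ) {k : ℕ} (hk : k ≤ X.n) :
    chx (fun w => X.sgn w * χ w) (X.uA 1 k) = -chx χ (X.uA 1 k) := by
  refine t2_odd χ ?_
  induction k with
  | zero => exact zero_mem _
  | succ k ih =>
    exact add_mem (t2_conj _ (ih (by omega))) (Submodule.smul_mem _ _ (t2_mem (t2_sgn_sN hk)))

theorem odd_uB (χ : X.W → ℂ) {k : ℕ} (hk : k < X.n) :
    chx (fun w => X.sgn w * χ w) (X.uB 1 1 k) = -chx χ (X.uB 1 1 k) := by
  refine t2_odd χ ?_
  induction k with
  | zero => exact Submodule.smul_mem _ _ (t2_mem (t2_sgn_sN hk))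
  | succ k ih =>
    exact add_mem (t2_conj _ (ih (by omega))) (Submodule.smul_mem _ _
      (add_mem (t2_mem (t2_sgn_sN hk)) (t2_mem ((t2_sgn _ _).trans (t2_sgn_sN hk)))))

theorem t2_sgn_mD {k : ℕ} (hk : 0 < X.n) : X.sgn (X.mD k) = -1 := by
  induction k with
  | zero => exact t2_sgn_sN hk
  | succ k ih =>
    have e : X.mD (k + 1) =
        X.sN (k + 1) * (X.sN (k + 2) * X.mD k * X.sN (k + 2)) * X.sN (k + 1) := by
      simp only [F.Cox.mD, mul_assoc]
    rw [e, t2_sgn, t2_sgn, ih]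

theorem odd_uD (χ : X.W → ℂ) {k : ℕ} (hk : k < X.n) :
    chx (fun w => X.sgn w * χ w) (X.uD 1 k) = -chx χ (X.uD 1 k) := by
  refine t2_odd χ ?_
  induction k with
  | zero => exact zero_mem _
  | succ k ih =>
    exact add_mem (t2_conj _ (ih (by omega))) (Submodule.smul_mem _ _
      (add_mem (t2_mem (t2_sgn_sN hk)) (t2_mem (t2_sgn_mD (by omega)))))

theorem right_sw (hn : X.n = n) (h2 : 2 ≤ n) (hs : ∀ i : Fin X.n, φ (X.s i) = sD n i)
    {σ : X.W ≃* X.W} (hσ : F.Cox.IsSw σ) (w : X.W) : (φ (σ w)).right = (φ w).right := by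
  have e : (φ (X.sN 0)).right = (φ (X.sN 1)).right := by
    rw [t2_sN hs (by omega), t2_sN hs (by omega)]
    simp [sD, neg]
  have := X.cs.ext_simple (φ₁ := (rightHom.comp φ).comp σ.toMonoidHom) (φ₂ := rightHom.comp φ)
    fun i => by
      have h : X.cs.simple i = X.sN i := by rw [F.Cox.sN, dif_pos i.2]
      change (φ (σ _)).right = (φ _).right
      rw [h]
      obtain ⟨i, hi⟩ := i
      rcases i with _ | _ | i
      · rw [hσ.1, e]
      · rw [hσ.2.1, e]
      · rw [hσ.2.2 _ (by simp)]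
  exact DFunLike.congr_fun this w

end

end Pool.Agent.P.MP_5e2a31_al.L
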