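import Pool.Agent.P.MP_5e2a31_al.L.T1
import Pool.Agent.P.MP_5e2a31_al.L.T2
import Pool.Agent.P.MP_1a0ecf_al.K.AB
import Pool.Agent.P.MP_1a0ecf_al.K.D7
import Pool.Agent.P.MP_1a0ecf_al.F.Fr2
import Pool.Agent.P.MP_1a0ecf_al.F.Fr5
import Pool.Agent.P.MP_1a0ecf_al.F.S1
import Pool.Agent.P.MP_1a0ecf_al.F.L3

/-! Package T3: families in the classical types. -/

namespace Pool.Agent.P.MP_5e2a31_al.L

open Finset Equiv SemidirectProduct Pool.Agent.P.MP_1a0ecf_al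
open scoped Classical

noncomputable section

variable {n : ℕ}

theorem t3_wt (X : F.Cox) : ∃ κ : F.Wt X, ∀ i, κ (X.s i) = 1 / 2 :=
  X.exists_wt (fun _ => 1 / 2) fun _ _ _ => rfl

theorem t3_central {X : F.Cox} (G : F.Fr X) (κ : F.Wt X) {u : ℕ → X.GA} {N : ℕ} (hN : G.N = N)
    (h : ∀ i < G.N, u i = (2 : ℂ) • G.uN κ i) (k : ℕ) :
    ∑ i ∈ range N, u i ^ k ∈ Subalgebra.center ℂ X.GA := by
  obtain ⟨A⟩ := F.exists_CA' X κ
  have e : ∑ i ∈ range N, u i ^ k = (2 : ℂ) ^ k • A.P (∑ i, G.z A i ^ k) := by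
    rw [G.P_psum A, Finset.smul_sum, hN]
    refine Finset.sum_congr rfl fun i hi => ?_
    rw [h i (hN ▸ Finset.mem_range.1 hi), smul_pow]
  rw [e]
  exact Subalgebra.smul_mem _ (A.P_center (G.psum_center A k)) _

theorem t3_image {X : F.Cox} {φ : X.W →* HypOct n} {u : ℕ → X.GA} {α β : ℂ} {N : ℕ} (hN : N = n)
    (h : ∀ k : Fin n, MonoidAlgebra.mapDomainAlgHom ℂ ℂ φ (u k) = ju α β k) (k : ℕ) :
    MonoidAlgebra.mapDomainAlgHom ℂ ℂ φ (∑ i ∈ range N, u i ^ k) = psum n α β k := by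
  rw [hN, Finset.sum_range, map_sum, psum]
  exact Finset.sum_congr rfl fun i _ => by rw [map_pow, h]

theorem t3_odd {X : F.Cox} {u : ℕ → X.GA} {N : ℕ} {χ χ' : X.W → ℂ}
    (h : ∀ k < N, chx χ' (u k) = -chx χ (u k)) :
    chx χ' (∑ i ∈ range N, u i ^ 1) = -chx χ (∑ i ∈ range N, u i ^ 1) := by
  rw [map_sum, map_sum, ← Finset.sum_neg_distrib]
  exact Finset.sum_congr rfl fun i hi => by rw [pow_one, h i (Finset.mem_range.1 hi)]

theorem t3_real {X : F.Cox} (D : F.KL X ℤ fun _ => 1) {L : Fin X.n → ℝ} (hL : ∀ i, L i = 1) :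
    ∃ D' : F.KL X ℝ L, ∀ χ χ', D.Rel χ χ' ↔ D'.Rel χ χ' := by
  obtain ⟨D'⟩ := F.exists_KL (X := X) (L := L) fun i j _ => by rw [hL, hL]
  exact ⟨D', D.rel_map D' (Int.castAddHom ℝ) (fun a b h => by simpa using h)
    fun i => by simp [hL]⟩

theorem t3_perm {X : F.Cox} {φ : X.W →* HypOct n} {d : ℕ} (h : φ.range = weyl d n)
    (g : Perm (Fin n)) : ∃ w, φ w = inr g := by
  have : (inr g : HypOct n) ∈ φ.range := by
    rw [h]
    intro _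
    simp
  exact this

theorem hasA (r : ℕ) : HasJMD (weylA (r + 1)) r (tr (r + 1)) 0 0 := by
  intro X φ hn hφ hW hs D
  have hn' : X.n + 1 = r + 1 := by rw [hn]
  have hX := isA hn' hφ hs
  obtain ⟨κ, hκ⟩ := t3_wt X
  obtain ⟨G, -, hN, hu⟩ := X.frameA hX
  obtain ⟨D', hD⟩ := t3_real D (L := fun _ => 1) fun _ => rfl
  have key : ∀ χ χ', IsIrr χ → IsIrr χ' →
      (D.Rel χ χ' ↔ F.Cox.SameP (X.uA 1) (X.n + 1) χ χ') := fun χ χ' h h' => by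
    rw [hD, K.klA X hX 1 one_pos D' χ χ' h h', Complex.ofReal_one]
  refine ⟨⟨fun k => ∑ i ∈ range (X.n + 1), X.uA 1 i ^ k,
    t3_central G κ hN (hu κ 1 hκ), t3_image hn' (image_uA hn' hs), fun g => ?_,
    fun χ => t3_odd fun k hk => odd_uA χ (Nat.lt_succ_iff.1 hk),
    fun χ χ' h h' e => (key χ χ' h h').1 e, fun χ χ' h h' e _ => (key χ χ' h h').2 e⟩⟩
  have : (inr g : HypOct (r + 1)) ∈ φ.range := by
    rw [hW]
    exact ⟨g, rfl⟩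
  exact this

theorem hasB (hn : 2 ≤ n) : HasJMD (weyl 1 n) n (sB n) 1 1 := by
  intro X φ hr hφ hW hs D
  have hX := isB hr hφ hs
  obtain ⟨κ, hκ⟩ := t3_wt X
  obtain ⟨G, -, hN, -, hu⟩ := X.frameB hX (hr ▸ hn)
  obtain ⟨D', hD⟩ := t3_real D (L := K.LB X (1 : ℝ) 1) fun _ => ite_self _
  have key : ∀ χ χ', IsIrr χ → IsIrr χ' →
      (D.Rel χ χ' ↔ F.Cox.SameP (X.uB 1 1) X.n χ χ') := fun χ χ' h h' => by
    rw [hD, K.klB_pos hX one_pos 1 D' h h', Complex.ofReal_one]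
  exact ⟨⟨fun k => ∑ i ∈ range X.n, X.uB 1 1 i ^ k,
    t3_central G κ hN (hu κ 1 1 fun i => by rw [hκ, ite_self]), t3_image hr (image_uB hr hs),
    t3_perm hW, fun χ => t3_odd fun k hk => odd_uB χ hk,
    fun χ χ' h h' e => (key χ χ' h h').1 e, fun χ χ' h h' e _ => (key χ χ' h h').2 e⟩⟩

theorem hasD (hn : 4 ≤ n) : HasJMD (weyl 0 n) n (sD n) 1 0 := by
  intro X φ hr hφ hW hs D
  have hX := isD hr hφ hs
  have h4 : 4 ≤ X.n := hr ▸ hn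
  obtain ⟨κ, hκ⟩ := t3_wt X
  obtain ⟨σ, hσ⟩ := X.exists_sw hX h4
  obtain ⟨G, -, hN, hu⟩ := X.frameD hX h4 hσ
  obtain ⟨D', hD⟩ := t3_real D (L := fun _ => 1) fun _ => rfl
  have key : ∀ χ χ', IsIrr χ → IsIrr χ' → (D.Rel χ χ' ↔
      F.Cox.SameP (X.uD 1) X.n χ χ' ∧ (χ = χ' ∨ F.Cox.Stab σ 1 χ)) := fun χ χ' h h' => by
    rw [hD, (K.klD X hX h4 σ hσ 1 one_pos D' χ χ' h h').1, Complex.ofReal_one]
  refine ⟨⟨fun k => ∑ i ∈ range X.n, X.uD 1 i ^ k,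
    t3_central G κ hN (hu κ 1 hκ).1, t3_image hr (image_uD hr hs),
    t3_perm hW, fun χ => t3_odd fun k hk => odd_uD χ hk,
    fun χ χ' h h' e => ((key χ χ' h h').1 e).1, fun χ χ' h h' e h0 => ?_⟩⟩
  obtain ⟨χ₀, h1, h2, h3⟩ := h0 rfl rfl
  exact (key χ χ' h h').2 ⟨e, Or.inr ⟨χ₀, h1,
    funext fun w => h2 _ _ (right_sw hr (by omega) hs hσ w), h3⟩⟩

end

end Pool.Agent.P.MP_5e2a31_al.L
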