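import Pool.Agent.P.MP_5e2a31_al.L.J
import Pool.Agent.P.MP_5e2a31_al.L.S2

/-! Package T4: Specht modules. -/

namespace Pool.Agent.P.MP_5e2a31_al.L

open Finset Equiv SemidirectProduct Pool.Agent.P.MP_1a0ecf_al
open scoped Classical DirectSum

noncomputable section

variable {n : ℕ}

theorem specht_fd (α β : YoungDiagram) : FiniteDimensional ℂ (specht n α β).toSubmodule := by
  have : Finite (HypOct n) := Finite.of_equiv _ SemidirectProduct.equivProd.symm
  have h1 : {c : (ℕ × ℕ) ⊕ (ℕ × ℕ) | Sum.elim (fun x => x ∈ α) (fun x => x ∈ β) c}.Finite := by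
    refine ((α.cells.finite_toSet.image Sum.inl).union (β.cells.finite_toSet.image Sum.inr)).subset ?_
    rintro (c | c) hc
    · exact Or.inl ⟨c, hc, rfl⟩
    · exact Or.inr ⟨c, hc, rfl⟩
  have h2 : {τ : Fin n → (ℕ × ℕ) ⊕ (ℕ × ℕ) | IsBitableau α β τ}.Finite :=
    (Set.Finite.pi' fun _ => h1).subset fun τ hτ i => (hτ.2 _).1 ⟨i, rfl⟩
  refine FiniteDimensional.span_of_finite ℂ
    (((Set.finite_univ (α := HypOct n)).prod h2).image
      (fun p => tabRep n p.1 (polytabloid p.2)) |>.subset ?_)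
  rintro _ ⟨w, τ, h, rfl⟩
  exact ⟨(w, τ), ⟨trivial, h⟩, rfl⟩

theorem polytabloid_ne (τ : Fin n → (ℕ × ℕ) ⊕ (ℕ × ℕ)) (h : Function.Injective τ) :
    polytabloid τ ≠ 0 := by
  intro h0
  have h1 := congrFun h0 fun x => Sum.map Prod.fst Prod.fst (τ x)
  rw [polytabloid_apply, sum_eq_single_of_mem 1 (one_mem_Yg _ _)] at h1
  · simp at h1
  · intro c hc hc1
    rw [if_neg]
    intro h2
    apply hc1
    ext1 x
    apply h
    have a1 := congrFun h2 x
    have a2 := (mem_Yg.1 hc).2 x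
    simp only [Function.comp_apply, Perm.coe_one, id] at a1 a2 ⊢
    rcases h3 : τ (c x) with a | a <;> rcases h4 : τ x with b | b <;>
      simp_all [Prod.ext_iff]

/-- the filling given by a bitableau -/
def t4_lab {α β : YoungDiagram} {τ : Fin n → (ℕ × ℕ) ⊕ (ℕ × ℕ)} (h : IsBitableau α β τ) :
    Lab n where
  sd i := (τ i).isRight
  row i := (Sum.elim id id (τ i)).1
  col i := (Sum.elim id id (τ i)).2
  inj i j h1 h2 h3 := by
    apply h.1
    rcases h4 : τ i with a | a <;> rcases h5 : τ j with b | b <;> simp_all [Prod.ext_iff]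
  low i r c h1 h2 := by
    have h3 := (h.2 (τ i)).1 ⟨i, rfl⟩
    rcases h4 : τ i with a | a
    · rw [h4] at h1 h2 h3
      obtain ⟨j, hj⟩ := (h.2 (Sum.inl (r, c))).2 (α.up_left_mem h1 h2 h3)
      exact ⟨j, by simp [hj]⟩
    · rw [h4] at h1 h2 h3
      obtain ⟨j, hj⟩ := (h.2 (Sum.inr (r, c))).2 (β.up_left_mem h1 h2 h3)
      exact ⟨j, by simp [hj]⟩

theorem t4_alt (τ : Fin n → (ℕ × ℕ) ⊕ (ℕ × ℕ)) : polytabloid τ =
    Alt (tabRep n) (fun i => Sum.map Prod.snd Prod.snd (τ i))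
      (Pi.single (fun i => Sum.map Prod.fst Prod.fst (τ i)) 1) := by
  unfold polytabloid Alt Sym
  rw [LinearMap.sum_apply]
  exact sum_congr (by ext g; simp [mem_Yg]) fun c _ => rfl

theorem t4_tt (r : Fin n → ℕ ⊕ ℕ) (i : Fin n) : tabRep n (tt i) (Pi.single r 1) =
    (if (r i).isRight then -1 else 1 : ℂ) • (Pi.single r 1 : (Fin n → ℕ ⊕ ℕ) → ℂ) := by
  ext f
  have e : f ∘ (tt i).right = f := rfl
  rw [tabRep_apply, e, Pi.smul_apply, smul_eq_mul]
  by_cases h : f = r
  · subst h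
    congr 1
    unfold signAt
    rw [prod_eq_single i]
    · simp [tt]
    · intro j _ hj
      simp [tt, hj]
    · simp
  · simp [h]

theorem t4_ss (r : Fin n → ℕ ⊕ ℕ) {i j : Fin n} (h : r i = r j) :
    tabRep n (ss i j) (Pi.single r 1) = (Pi.single r 1 : (Fin n → ℕ ⊕ ℕ) → ℂ) := by
  ext f
  have e : f ∘ (ss i j).right = f ∘ swap i j := rfl
  have e2 : r ∘ swap i j = r := funext fun x => apply_swap_eq_self h x
  rw [tabRep_apply, e, ss, signAt_inr, one_mul, Pi.single_apply, Pi.single_apply]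
  congr 1
  refine propext ⟨fun h1 => ?_, fun h1 => h1 ▸ e2⟩
  rw [← e2, ← h1]
  ext x
  simp

theorem t4_sign {u : HypOct n} (hu : u.right = 1) (τ : Fin n → (ℕ × ℕ) ⊕ (ℕ × ℕ)) :
    tabRep n u (polytabloid τ) =
      signAt u (fun i => Sum.map Prod.fst Prod.fst (τ i)) • polytabloid τ := by
  ext f
  have e : f ∘ u.right = f := by rw [hu]; rfl
  rw [tabRep_apply, e, Pi.smul_apply, smul_eq_mul, polytabloid_apply, mul_sum, mul_sum]
  refine sum_congr rfl fun c hc => ?_
  split_ifs with h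
  · congr 1
    unfold signAt
    refine prod_congr rfl fun y _ => ?_
    obtain ⟨x, rfl⟩ := c.surjective y
    have a1 := congrArg Sum.isRight (congrFun h x)
    have a2 := congrArg Sum.isRight ((mem_Yg.1 hc).2 x)
    simp only [Function.comp_apply, Sum.isRight_map] at a1 a2 ⊢
    rw [a1, a2]
  · simp

theorem t4_span {α β : YoungDiagram} {a b c : ℂ} (hc : Cen n a b) (k : ℕ)
    (h : ∀ τ, IsBitableau α β τ →
      (tabRep n).asAlgebraHom (psum n a b k) (polytabloid τ) = c • polytabloid τ) :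
    ∀ v ∈ (specht n α β).toSubmodule, (tabRep n).asAlgebraHom (psum n a b k) v = c • v := by
  intro v hv
  induction hv using Submodule.span_induction with
  | mem x hx =>
    obtain ⟨w, τ, hτ, rfl⟩ := hx
    have e : w = inr w.right * (inr w.right⁻¹ * w) := by
      rw [map_inv, mul_inv_cancel_left]
    have e2 := congr((tabRep n).asAlgebraHom $(hc k w.right) (polytabloid τ))
    simp only [map_mul, Representation.asAlgebraHom_of, Module.End.mul_apply] at e2
    rw [e, map_mul, Module.End.mul_apply, t4_sign (by simp), map_smul, map_smul, ← e2, h τ hτ,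
      map_smul, smul_comm]
  | zero => simp
  | add x y _ _ hx hy => rw [map_add, hx, hy, smul_add]
  | smul t x _ hx => rw [map_smul, hx, smul_comm]

theorem t4_poly {α β : YoungDiagram} {τ : Fin n → (ℕ × ℕ) ⊕ (ℕ × ℕ)} (h : IsBitableau α β τ)
    {a b : ℂ} (hs : (a = 0 ∧ b = 0 ∧ β = ⊥) ∨ a = 1) (hc : Cen n a b) (k : ℕ) :
    (tabRep n).asAlgebraHom (psum n a b k) (polytabloid τ) =
      (∑ c ∈ α.cells, ((1 + a) * ((c.2 : ℂ) - c.1) + b) ^ k +
        ∑ c ∈ β.cells, ((1 + a) * ((c.2 : ℂ) - c.1) - b) ^ k) • polytabloid τ := by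
  rw [t4_alt, jm_scalar (tabRep n) (t4_lab h) ?_ ?_ hc ?_ k]
  · congr 1
    refine Eq.trans ?_ (bitab_sum h (Sum.elim (fun c => ((1 + a) * ((c.2 : ℂ) - c.1) + b) ^ k)
      fun c => ((1 + a) * ((c.2 : ℂ) - c.1) - b) ^ k))
    refine sum_congr rfl fun i _ => ?_
    rcases h1 : τ i with c | c <;> simp [Lab.ev, t4_lab, h1, sub_eq_add_neg]
  · rcases hs with ⟨h1, h2, rfl⟩ | h1
    · refine Or.inl ⟨h1, h2, fun i j => ?_⟩
      have h3 : ∀ i, (τ i).isRight = false := fun i => by
        have := (h.2 (τ i)).1 ⟨i, rfl⟩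
        rcases h4 : τ i with c | c
        · rfl
        · rw [h4] at this
          simp at this
      exact (h3 i).trans (h3 j).symm
    · refine Or.inr ⟨h1, fun i => ?_⟩
      rw [t4_tt, Sum.isRight_map]
      rfl
  · intro i j h1 h2
    apply t4_ss
    rcases h4 : τ i with c | c <;> rcases h5 : τ j with c' | c' <;> simp_all [t4_lab]
  · intro i j h1 h2
    rcases h4 : τ i with c | c <;> rcases h5 : τ j with c' | c' <;> simp_all [t4_lab]

theorem specht_scalarA {α : YoungDiagram} (hc : Cen n 0 0) (k : ℕ) :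
    ∀ v ∈ (specht n α ⊥).toSubmodule, (tabRep n).asAlgebraHom (psum n 0 0 k) v =
      (∑ c ∈ α.cells, ((c.2 : ℂ) - c.1) ^ k) • v := by
  refine t4_span hc k fun τ hτ => ?_
  rw [t4_poly hτ (Or.inl ⟨rfl, rfl, rfl⟩) hc k]
  simp

theorem specht_scalarJ {α β : YoungDiagram} {d : ℕ} (hc : Cen n 1 d) (k : ℕ) :
    ∀ v ∈ (specht n α β).toSubmodule, (tabRep n).asAlgebraHom (psum n 1 d k) v =
      csum d α β (fun x => (x : ℂ) ^ k) • v := by
  refine t4_span hc k fun τ hτ => ?_
  rw [t4_poly hτ (Or.inr rfl) hc k]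
  simp [csum, one_add_one_eq_two]

theorem t4_big {ι : Type} [Finite ι] (W : Subgroup (HypOct n)) {a b : ℂ} {c : ℕ → ℂ}
    (S : ι → Subrepresentation (tabRep n)) (hfd : ∀ p, FiniteDimensional ℂ (S p).toSubmodule)
    (hS : ∀ (V : Type) [AddCommGroup V] [Module ℂ V] [Nontrivial V] (U : Representation ℂ W V),
      ∃ f : U.IntertwiningMap ((resSum W S).tprod (resSum W S)), f ≠ 0)
    (hc : ∀ p k, ∀ v ∈ (S p).toSubmodule, (tabRep n).asAlgebraHom (psum n a b k) v = c k • v)
    (hv : a = 1 → b = 0 → ∃ p, ∃ v ∈ (S p).toSubmodule, v ≠ 0 ∧ ∀ η, tabRep n (inl η) v = v) :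
    Big W a b c := by
  let ρ : Representation ℂ (HypOct n) (⨁ p, (S p).toSubmodule) :=
    Representation.directSum fun p => (S p).toRepresentation
  have h1 : ∀ (x : GH n) v p, ((ρ.asAlgebraHom x v p : (S p).toSubmodule) : (Fin n → ℕ ⊕ ℕ) → ℂ) =
      (tabRep n).asAlgebraHom x (v p) := by
    intro x v p
    induction x using MonoidAlgebra.induction_on with
    | of g =>
      rw [Representation.asAlgebraHom_of, Representation.asAlgebraHom_of]
      rfl
    | add x y hx hy =>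
      rw [map_add, map_add, LinearMap.add_apply, LinearMap.add_apply, ← hx, ← hy]
      rfl
    | smul t x hx =>
      rw [map_smul, map_smul, LinearMap.smul_apply, LinearMap.smul_apply, ← hx]
      rfl
  refine ⟨⨁ p, (S p).toSubmodule, inferInstance, inferInstance, inferInstance, ρ,
    fun V _ _ U hU => ?_, fun k v => ?_, fun ha hb => ?_⟩
  · have : Nontrivial V := by
      by_contra h
      rw [not_nontrivial_iff_subsingleton] at h
      exact bot_ne_top (α := Subrepresentation U)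
        (Subrepresentation.toSubmodule_injective (Subsingleton.elim _ _))
    exact hS V U
  · ext1 p
    apply Subtype.ext
    rw [h1, hc p k _ (v p).2]
    rfl
  · obtain ⟨p, v, h2, h3, h4⟩ := hv ha hb
    refine ⟨DirectSum.lof ℂ _ _ p ⟨v, h2⟩, fun h => h3 ?_, fun η => ?_⟩
    · have := congrArg (fun x => ((x p : (S p).toSubmodule) : (Fin n → ℕ ⊕ ℕ) → ℂ)) h
      simpa using this
    · refine (DirectSum.lmap_lof _ p _).trans (congrArg _ (Subtype.ext (h4 η)))

theorem bigA (k : ℕ) (hc : Cen (k * (k + 1) / 2) 0 0) : Big (weylA (k * (k + 1) / 2)) 0 0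
    fun j => ∑ c ∈ (staircase k).cells, ((c.2 : ℂ) - c.1) ^ j :=
  t4_big _ (fun _ : Unit => specht (k * (k + 1) / 2) (staircase k) ⊥) (fun _ => specht_fd _ _)
    (fun V _ _ _ U => saxl k V U) (fun _ j => specht_scalarA hc j)
    fun h => absurd h zero_ne_one

theorem bigJ {d k : ℕ} (hd : d = 0 ∨ d = 1) (hk : 1 ≤ k) (hc : Cen (k * (k + d)) 1 d) :
    Big (weyl d (k * (k + d))) 1 d
      fun j => csum d (staircase k) (staircase (k + d - 1)) fun x => (x : ℂ) ^ j := by
  have := finite_family d k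
  refine t4_big _ (fun p : Family d k => specht (k * (k + d)) p.1.1 p.1.2)
    (fun _ => specht_fd _ _) (fun V _ _ _ U => main d k hd hk V U) (fun p j => ?_) fun _ h => ?_
  · rw [← csum_eq hd ⟨p.2.2.1, p.2.2.2.1, p.2.2.2.2.1⟩ (sy_stair hd)]
    exact specht_scalarJ hc j
  · obtain rfl : d = 0 := by exact_mod_cast h
    obtain ⟨p, τ, h1, h2⟩ := exists_rect hk
    refine ⟨p, polytabloid τ, Submodule.subset_span ⟨1, τ, h2, by simp⟩,
      polytabloid_ne τ h2.1, fun η => ?_⟩
    rw [t4_sign rfl, signAt, prod_eq_one, one_smul]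
    intro i _
    have h3 := (h2.2 (τ i)).1 ⟨i, rfl⟩
    rcases h4 : τ i with c | c
    · simp
    · rw [h4, h1] at h3
      simp at h3

end

end Pool.Agent.P.MP_5e2a31_al.L
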