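import Pool.Agent.P.MP_5e2a31_al.L.WBase

/-! Package T5: representation theory of finite groups. -/

namespace Pool.Agent.P.MP_5e2a31_al.L

open Finset Equiv SemidirectProduct Pool.Agent.P.MP_1a0ecf_al
open scoped Classical

noncomputable section

variable {n : ℕ}

variable {G : Type} [Group G] [Fintype G]

theorem chx_of_hom {d : ℕ} {π : Representation ℂ G (Fin d → ℂ)} (hπ : π.IsIrreducible)
    {E : Type} [AddCommGroup E] [Module ℂ E] (τ : Representation ℂ G E)
    {f : (Fin d → ℂ) →ₗ[ℂ] E} (hf : f ≠ 0) (he : ∀ w v, f (π w v) = τ w (f v))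
    {a : MonoidAlgebra ℂ G} (ha : a ∈ Subalgebra.center ℂ (MonoidAlgebra ℂ G)) {c : ℂ}
    (hc : ∀ v, τ.asAlgebraHom a (f v) = c • f v) : chx π.character a = c * π.character 1 := by
  have h1 : π.character 1 ≠ 0 := IsIrr.one_ne ⟨d, π, hπ, rfl⟩
  obtain ⟨v, hv⟩ : ∃ v, f v ≠ 0 := by
    by_contra h
    push Not at h
    exact hf (LinearMap.ext h)
  have h2 : f (π.asAlgebraHom a v) = τ.asAlgebraHom a (f v) := by
    simp only [asAlgebraHom_eq_sum, LinearMap.sum_apply, LinearMap.smul_apply, map_sum, map_smul,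
      he]
  rw [hc, schur π hπ ha, LinearMap.smul_apply, Module.End.one_apply, map_smul] at h2
  have h3 := smul_left_injective ℂ hv h2
  rw [← h3, div_mul_cancel₀ _ h1]

theorem exists_sub {E : Type} [AddCommGroup E] [Module ℂ E] [FiniteDimensional ℂ E]
    (ρ : Representation ℂ G E) (S : Submodule ℂ E) (hS : S ≠ ⊥) (hG : ∀ w, ∀ v ∈ S, ρ w v ∈ S) :
    ∃ (d : ℕ) (π : Representation ℂ G (Fin d → ℂ)) (f : (Fin d → ℂ) →ₗ[ℂ] E), π.IsIrreducible ∧
      Function.Injective f ∧ f ≠ 0 ∧ (∀ w v, f (π w v) = ρ w (f v)) ∧ ∀ v, f v ∈ S := by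
  let p : Subrepresentation ρ := ⟨S, fun w v hv => hG w v hv⟩
  have h1 : p.toRepresentation.character 1 ≠ 0 := by
    rw [Representation.char_one, Nat.cast_ne_zero]
    exact fun h => hS (Submodule.finrank_eq_zero.mp h)
  obtain ⟨χ, ⟨d, π, hπ, rfl⟩, hχ⟩ := (isCh_rep p.toRepresentation).exists_irr h1
  obtain ⟨g, hg, he⟩ := (exists_hom_iff π p.toRepresentation).mpr hχ
  have hi : Function.Injective g := by
    rcases Representation.IsIrreducible.injective_or_eq_zero
      (g.intertwiningMap_of_isIntertwiningMap π p.toRepresentation he) with h | h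
    · exact h
    · exact absurd (congrArg Representation.IntertwiningMap.toLinearMap h) hg
  refine ⟨d, π, S.subtype ∘ₗ g, hπ, S.injective_subtype.comp hi, fun h => hg ?_, fun w v => ?_,
    fun v => (g v).2⟩
  · exact LinearMap.ext fun v => Subtype.ext (LinearMap.congr_fun h v)
  · exact congrArg Subtype.val (he w v)

theorem t5_ip_list {α : Type} (l : List α) (F : α → G → ℂ) (g : G → ℂ)
    (h : ip (l.map F).sum g ≠ 0) : ∃ a ∈ l, ip (F a) g ≠ 0 := by
  induction l with
  | nil => exact absurd (T0.ip_zero g) h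
  | cons a l ih =>
    rw [List.map_cons, List.sum_cons, ip_add] at h
    by_cases h1 : ip (F a) g = 0
    · rw [h1, zero_add] at h
      obtain ⟨b, hb, h2⟩ := ih h
      exact ⟨b, List.mem_cons_of_mem _ hb, h2⟩
    · exact ⟨a, List.mem_cons_self, h1⟩

theorem t5_hom_iff {E F : Type} [AddCommGroup E] [Module ℂ E] [FiniteDimensional ℂ E]
    [AddCommGroup F] [Module ℂ F] [FiniteDimensional ℂ F] (π : Representation ℂ G E)
    (τ : Representation ℂ G F) :
    (∃ f : π.IntertwiningMap τ, f ≠ 0) ↔ ip τ.character π.character ≠ 0 := by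
  rw [← exists_hom_iff]
  constructor
  · rintro ⟨f, h1⟩
    exact ⟨f.toLinearMap, fun h => h1 (Representation.IntertwiningMap.ext h),
      fun w v => f.isIntertwining π τ w v⟩
  · rintro ⟨f, h1, h2⟩
    exact ⟨f.intertwiningMap_of_isIntertwiningMap π τ h2, fun h =>
      h1 (congrArg Representation.IntertwiningMap.toLinearMap h)⟩

theorem constituents {E : Type} [AddCommGroup E] [Module ℂ E] [FiniteDimensional ℂ E]
    (ρ : Representation ℂ G E) {c : ℕ} (U : Representation ℂ G (Fin c → ℂ))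
    (h : ∃ f : U.IntertwiningMap (ρ.tprod ρ), f ≠ 0) :
    ∃ (k k' : ℕ) (π : Representation ℂ G (Fin k → ℂ)) (π' : Representation ℂ G (Fin k' → ℂ)),
      π.IsIrreducible ∧ π'.IsIrreducible ∧
      (∃ f : (Fin k → ℂ) →ₗ[ℂ] E, f ≠ 0 ∧ ∀ w v, f (π w v) = ρ w (f v)) ∧
      (∃ f : (Fin k' → ℂ) →ₗ[ℂ] E, f ≠ 0 ∧ ∀ w v, f (π' w v) = ρ w (f v)) ∧
      ∃ f : U.IntertwiningMap (π.tprod π'), f ≠ 0 := by
  obtain ⟨l, hl, e⟩ := (isCh_rep ρ).exists_list
  rw [t5_hom_iff, Representation.char_tensor, e, ← List.map_id l, ← List.sum_map_mul_right,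
    List.map_id] at h
  obtain ⟨χ, hχ, h1⟩ := t5_ip_list l _ _ h
  rw [← List.map_id l, ← List.sum_map_mul_left] at h1
  obtain ⟨χ', hχ', h2⟩ := t5_ip_list l _ _ h1
  have k1 := (T0.ip_mem hl (hl χ hχ)).mpr hχ
  have k2 := (T0.ip_mem hl (hl χ' hχ')).mpr hχ'
  obtain ⟨k, π, hπ, rfl⟩ := hl χ hχ
  obtain ⟨k', π', hπ', rfl⟩ := hl χ' hχ'
  rw [← e] at k1 k2
  refine ⟨k, k', π, π', hπ, hπ', (exists_hom_iff π ρ).mpr k1, (exists_hom_iff π' ρ).mpr k2, ?_⟩
  rw [t5_hom_iff, Representation.char_tensor]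
  exact h2

omit [Fintype G] in
theorem twist_irr {d : ℕ} {σ σ' : Representation ℂ G (Fin d → ℂ)} (hσ : σ.IsIrreducible)
    {ε : G → ℂ} (hε : ∀ w, ε w ≠ 0) (h : ∀ w v, σ' w v = ε w • σ w v) :
    σ'.IsIrreducible ∧ σ'.character = fun w => ε w * σ.character w := by
  let e : Subrepresentation σ' ≃o Subrepresentation σ :=
    { toFun := fun p => ⟨p.toSubmodule, fun w v hv => by
        have h1 := p.apply_mem_toSubmodule w hv
        rw [h] at h1
        exact (p.toSubmodule.smul_mem_iff (hε w)).mp h1⟩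
      invFun := fun p => ⟨p.toSubmodule, fun w v hv => by
        rw [h]
        exact p.toSubmodule.smul_mem _ (p.apply_mem_toSubmodule w hv)⟩
      left_inv := fun _ => rfl
      right_inv := fun _ => rfl
      map_rel_iff' := Iff.rfl }
  refine ⟨e.isSimpleOrder_iff.mpr hσ, funext fun w => ?_⟩
  have h1 : σ' w = ε w • σ w := LinearMap.ext (h w)
  simp only [Representation.character, h1, map_smul, smul_eq_mul]

omit [Fintype G] in
theorem asAlg_comp {G' E : Type} [Group G'] [AddCommGroup E] [Module ℂ E]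
    (ρ : Representation ℂ G' E) (φ : G →* G') (a : MonoidAlgebra ℂ G) :
    Representation.asAlgebraHom (ρ.comp φ) a =
      ρ.asAlgebraHom (MonoidAlgebra.mapDomainAlgHom ℂ ℂ φ a) := by
  have h : Representation.asAlgebraHom (ρ.comp φ) =
      ρ.asAlgebraHom.comp (MonoidAlgebra.mapDomainAlgHom ℂ ℂ φ) := by
    refine MonoidAlgebra.algHom_ext (fun w => ?_) (Subsingleton.elim _ _)
    rw [AlgHom.comp_apply, MonoidAlgebra.mapDomainAlgHom_apply, MonoidAlgebra.mapDomain_single,
      Representation.asAlgebraHom_single, Representation.asAlgebraHom_single]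
    rfl
  rw [h]
  rfl

end

end Pool.Agent.P.MP_5e2a31_al.L
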