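import Pool.Agent.P.MP_5e2a31_al.L.T5
import Pool.Agent.P.MP_1a0ecf_al.F.L2
import Pool.Agent.P.MP_1a0ecf_al.F.G6

/-! Package T6: the statement on the Weyl group side. -/

namespace Pool.Agent.P.MP_5e2a31_al.L

open Finset Equiv SemidirectProduct Pool.Agent.P.MP_1a0ecf_al
open scoped Classical

noncomputable section

variable {n : ℕ}

section JM

variable {X : F.Cox} {φ : X.W →* HypOct n} {α β : ℂ} {D : F.KL X ℤ fun _ => 1}

theorem t6_cen (J : JMD X φ α β D) : Cen n α β := by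
  intro k g
  obtain ⟨w, hw⟩ := J.perm g
  have h := congrArg (MonoidAlgebra.mapDomainAlgHom ℂ ℂ φ)
    (Subalgebra.mem_center_iff.1 (J.central k) (MonoidAlgebra.of ℂ X.W w))
  have e : MonoidAlgebra.mapDomainAlgHom ℂ ℂ φ (MonoidAlgebra.of ℂ X.W w) = gH (inr g) := by
    rw [← hw]
    simp
  rwa [map_mul, map_mul, J.image, e] at h

theorem t6_act (J : JMD X φ α β D) {E : Type} [AddCommGroup E] [Module ℂ E]
    (ρ : Representation ℂ (HypOct n) E) (k : ℕ) :
    Representation.asAlgebraHom (ρ.comp φ) (J.Z k) = ρ.asAlgebraHom (psum n α β k) := by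
  rw [asAlg_comp, J.image]

theorem t6_span (J : JMD X φ α β D) {E : Type} [AddCommGroup E] [Module ℂ E]
    (ρ : Representation ℂ (HypOct n) E) {k : ℕ} {P : E} {c : ℂ}
    (hP : ρ.asAlgebraHom (psum n α β k) P = c • P) {x : E}
    (hx : x ∈ Submodule.span ℂ (Set.range fun w : X.W => ρ (φ w) P)) :
    Representation.asAlgebraHom (ρ.comp φ) (J.Z k) x = c • x := by
  induction hx using Submodule.span_induction with
  | mem x hx =>
    obtain ⟨w, rfl⟩ := hx
    have h := congrArg (fun a => Representation.asAlgebraHom (ρ.comp φ) a P)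
      (Subalgebra.mem_center_iff.1 (J.central k) (MonoidAlgebra.of ℂ X.W w))
    simp only [map_mul, Module.End.mul_apply, Representation.asAlgebraHom_of] at h
    rw [t6_act, hP, map_smul] at h
    rw [t6_act]
    exact h.symm
  | zero => simp
  | add x y _ _ hx hy => rw [map_add, hx, hy, smul_add]
  | smul a x _ hx => rw [map_smul, hx, smul_comm]

theorem t6_inl {u : HypOct n} (h : u.right = 1) : u = inl u.left := by
  conv_lhs => rw [← inl_left_mul_inr_right u, h, map_one, mul_one]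

/-- the vectors fixed by all sign changes -/
def t6Fix {E : Type} [AddCommGroup E] [Module ℂ E] (ρ : Representation ℂ (HypOct n) E) :
    Submodule ℂ E where
  carrier := {v | ∀ η, ρ (inl η) v = v}
  add_mem' ha hb η := by rw [map_add, ha η, hb η]
  zero_mem' η := map_zero _
  smul_mem' a _ hx η := by rw [map_smul, hx η]

theorem t6_fix {E : Type} [AddCommGroup E] [Module ℂ E] (ρ : Representation ℂ (HypOct n) E)
    {u : HypOct n} (h : u.right = 1) {v : E} (hv : v ∈ t6Fix ρ) : ρ u v = v := by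
  rw [t6_inl h]
  exact hv _

theorem t6_stable {E : Type} [AddCommGroup E] [Module ℂ E] (ρ : Representation ℂ (HypOct n) E)
    (w : HypOct n) {v : E} (hv : v ∈ t6Fix ρ) : ρ w v ∈ t6Fix ρ := by
  intro η
  have e : inl η * w = w * (w⁻¹ * inl η * w) := by group
  rw [← Module.End.mul_apply, ← map_mul, e, map_mul, Module.End.mul_apply,
    t6_fix ρ (by simp) hv]

theorem t6_rel (J : JMD X φ α β D) {E : Type} [AddCommGroup E] [Module ℂ E]
    [FiniteDimensional ℂ E] (ρ : Representation ℂ (HypOct n) E) {c : ℕ → ℂ}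
    (hc : ∀ k v, ρ.asAlgebraHom (psum n α β k) v = c k • v)
    (hv : α = 1 → β = 0 → ∃ v, v ≠ 0 ∧ ∀ η, ρ (inl η) v = v) {χ : X.W → ℂ} (hχ : IsIrr χ)
    (hZ : ∀ k, chx χ (J.Z k) = c k * χ 1) {d : ℕ} {π : Representation ℂ X.W (Fin d → ℂ)}
    (hπ : π.IsIrreducible) {f : (Fin d → ℂ) →ₗ[ℂ] E} (hf : f ≠ 0)
    (he : ∀ w v, f (π w v) = ρ (φ w) (f v)) : D.Rel χ π.character := by
  have key : ∀ {d : ℕ} {π : Representation ℂ X.W (Fin d → ℂ)}, π.IsIrreducible →
      ∀ {f : (Fin d → ℂ) →ₗ[ℂ] E}, f ≠ 0 → (∀ w v, f (π w v) = ρ (φ w) (f v)) →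
      ∀ k, chx χ (J.Z k) * π.character 1 = chx π.character (J.Z k) * χ 1 := by
    intro d π hπ f hf he k
    rw [chx_of_hom hπ (ρ.comp φ) hf he (J.central k) (c := c k)
      (fun v => by rw [t6_act, hc]), hZ]
    ring
  refine J.rel _ _ hχ ⟨d, π, hπ, rfl⟩ (key hπ hf he) fun ha hb => ?_
  obtain ⟨v, hv0, hv⟩ := hv ha hb
  obtain ⟨d₀, π₀, f₀, h1, h2, h3, h4, h5⟩ := exists_sub (ρ.comp φ) (t6Fix ρ)
    ((Submodule.ne_bot_iff _).2 ⟨v, hv, hv0⟩) fun w v hv => t6_stable ρ (φ w) hv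
  refine ⟨π₀.character, ⟨d₀, π₀, h1, rfl⟩, fun w w' h => ?_, key h1 h3 h4⟩
  have e : π₀ w = π₀ w' := LinearMap.ext fun x => h2 (by
    have e1 : φ w = φ w * (φ w')⁻¹ * φ w' := by group
    rw [h4, h4]
    show ρ (φ w) _ = ρ (φ w') _
    rw [e1, map_mul, Module.End.mul_apply]
    exact t6_fix ρ (by simp [h]) (t6_stable ρ _ (h5 x)))
  show LinearMap.trace ℂ _ (π₀ w) = LinearMap.trace ℂ _ (π₀ w')
  rw [e]

theorem t6_main (J : JMD X φ α β D) {c : ℕ → ℂ} {χ : X.W → ℂ} (hχ : IsIrr χ)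
    (hZ : ∀ k, chx χ (J.Z k) = c k * χ 1) (hχ' : IsIrr fun w => X.sgn w * χ w)
    (h : D.Rel χ fun w => X.sgn w * χ w) : c 1 = 0 := by
  have e := J.of_rel _ _ hχ hχ' h 1
  have e1 : X.sgn 1 = 1 := by simp [F.Cox0.sgn]
  rw [J.odd, hZ, e1, one_mul] at e
  have e2 : c 1 * (2 * (χ 1 * χ 1)) = 0 := by linear_combination e
  exact (mul_eq_zero.1 e2).resolve_right
    (mul_ne_zero two_ne_zero (mul_ne_zero hχ.one_ne hχ.one_ne))

theorem t6_fam {χ χ' : X.W → ℂ} (hχ : IsIrr χ) {z : X.W} (hz : D.Fam z χ) (h : D.Rel χ χ') :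
    D.Fam z χ' := by
  obtain ⟨y, h1, h2⟩ := h
  rwa [F.KL.Fam, ← D.cell_eq (D.fam_unique hχ h1 hz)]

end JM

theorem core {W : Subgroup (HypOct n)} {r : ℕ} {s : ℕ → HypOct n} {α β : ℂ} {Q : Prop}
    {P : MvPolynomial (Fin n) ℂ} {c : ℕ → ℂ} (hJ : HasJMD W r s α β)
    (hP : Cen n α β → ∀ k, (pRep n).asAlgebraHom (psum n α β k) P = c k • P)
    (hF : Cen n α β → Q ∨ c 1 = 0 → Big W α β c) : Square W r s Q P := by
  intro inst M cs hs H _ _ T C bar hT hb hC z d σ hσ hf ho hQ c' U hU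
  let X : F.Cox := { n := r, M := M, W := W, cs := cs, hM := F.bond_ne_zero cs, fin := inst }
  let D : F.KL X ℤ (fun _ => 1) :=
    { H := H
      T := T
      T_one := hT.1
      T_up := fun x i e => by
        have e1 := hT.2 x i
        rwa [if_pos e, add_zero] at e1
      T_down := fun x i e => by
        have e1 := hT.2 x i
        rwa [if_neg (not_lt.2 e.le)] at e1
      bar := bar
      bar_smul := fun r a => by
        induction r using AddMonoidAlgebra.induction_linear with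
        | zero => simp
        | add a b ha hb => simp only [map_add, add_smul, ha, hb]
        | single δ m =>
          have e : ∀ ε : ℤ, (AddMonoidAlgebra.single ε m : F.ZG ℤ) =
              m • AddMonoidAlgebra.single ε 1 := fun ε => by
            rw [AddMonoidAlgebra.smul_single, smul_eq_mul, mul_one]
          rw [F.barG, F.mapG_single, e δ, e (negAddMonoidHom δ), smul_assoc, smul_assoc,
            map_zsmul]
          exact congrArg (m • ·) (hb.1 δ a)
      bar_T := hb.2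
      C := C
      bar_C := fun x => (hC x).1
      C_neg := fun x y γ hγ => (hC x).2 y γ hγ }
  obtain ⟨J⟩ := hJ X W.subtype rfl W.subtype_injective W.range_subtype hs D
  have hc := t6_cen J
  obtain ⟨f, hf0, hfe, hfs⟩ := hf
  have hχ : IsIrr (W := X.W) σ.character := ⟨d, σ, hσ, rfl⟩
  have hZ : ∀ k, chx (W := X.W) σ.character (J.Z k) = c k * σ.character 1 := fun k =>
    chx_of_hom (G := X.W) hσ ((pRep n).comp W.subtype) hf0 hfe (J.central k)
      fun v => t6_span J (pRep n) (hP hc k) (hfs v)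
  have hz : D.Fam z σ.character := (D.occurs_iff z hσ).1 ho
  have h1 : Q ∨ c 1 = 0 := hQ.imp_right fun ⟨σ', hσ', ho'⟩ => by
    obtain ⟨hi, he⟩ := twist_irr (G := X.W) (σ' := σ') hσ (ε := X.sgn)
      (fun w => pow_ne_zero _ (neg_ne_zero.2 one_ne_zero)) hσ'
    have hz' : D.Fam z σ'.character := (D.occurs_iff z hi).1 ho'
    exact t6_main J hχ hZ ⟨d, σ', hi, he.symm⟩ ⟨z, hz, he ▸ hz'⟩
  obtain ⟨E, _, _, _, ρ, ha, hsc, hv⟩ := hF hc h1
  obtain ⟨k, k', π, π', hπ, hπ', ⟨g, hg, hge⟩, ⟨g', hg', hge'⟩, hU'⟩ :=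
    constituents (G := X.W) (ρ.comp W.subtype) U (ha _ U hU)
  exact ⟨k, k', π, π', hπ, hπ',
    (D.occurs_iff z hπ).2 (t6_fam hχ hz (t6_rel J ρ hsc hv hχ hZ hπ hg hge)),
    (D.occurs_iff z hπ').2 (t6_fam hχ hz (t6_rel J ρ hsc hv hχ hZ hπ' hg' hge')), hU'⟩

end

end Pool.Agent.P.MP_5e2a31_al.L
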