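import Pool.Agent.P.MP_5e2a31_al.L.WJ
import Pool.Agent.P.MP_5e2a31_al.L.N4

/-! Assembly. -/

namespace Pool.Agent.P.MP_5e2a31_al.L

open Matrix Finset LieAlgebra.Orthogonal
open scoped Classical

noncomputable section

variable {ι : Type} [Fintype ι] [DecidableEq ι] {n : ℕ}

theorem dom_le {e : Matrix ι ι ℂ} (he : IsNilpotent e) (h : Dom e) {i m : ℕ} (hi : 0 < i)
    (hm : i ≤ dd e m) : i * (m + 1) ≤ ∑ j ∈ range i, dd e j := by
  have anti : Antitone (dd e) := antitone_nat_of_succ_le (dd_anti e)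
  have hN : m < Fintype.card ι := by
    by_contra a
    have := dd_zero he (not_lt.1 a)
    omega
  have a1 := h i
  have a2 := dd_sum e i
  have a3 : ∑ j ∈ range (m + 1), i ≤ ∑ j ∈ range (Fintype.card ι), min i (dd e j) :=
    (Finset.sum_le_sum fun j hj => le_min le_rfl
      (hm.trans (anti (Nat.lt_succ_iff.1 (mem_range.1 hj))))).trans
      (Finset.sum_le_sum_of_subset (range_subset_range.2 hN))
  rw [Finset.sum_const, card_range, smul_eq_mul, mul_comm] at a3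
  change ∑ j ∈ range (Fintype.card ι), min i (dd e j) + _ ≤ _ at a1
  omega

theorem dom_zero {e : Matrix ι ι ℂ} (he : IsNilpotent e) (h : Dom e) : dd e (dd e 0) = 0 := by
  by_contra a
  have := dom_le he h one_pos (Nat.one_le_iff_ne_zero.2 a)
  simp at this

theorem dom_two {e : Matrix ι ι ℂ} (he : IsNilpotent e) (h : Dom e)
    (a : 2 ≤ dd e (dd e 0 - 1)) : 2 * dd e 0 ≤ dd e 0 + dd e 1 := by
  have := dom_le he h (i := 2) (by omega) a
  rw [Finset.sum_range_succ, Finset.sum_range_one] at this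
  omega

theorem dom_stair {h : ℕ → ℕ} (h1 : ∀ s, h (s + 1) ≤ h s) (h2 : ∀ s, h s ≤ h (s + 1) + 1)
    (h0 : h (h 0) = 0) (s : ℕ) : h s = h 0 - s := by
  have anti : Antitone h := antitone_nat_of_succ_le h1
  have step : ∀ t c, h c ≤ h (c + t) + t := fun t c => by
    induction t with
    | zero => simp
    | succ t ih =>
      have := h2 (c + t)
      rw [show c + (t + 1) = c + t + 1 from rfl]
      omega
  have a := step s 0
  rw [zero_add] at a
  rcases le_total s (h 0) with b | b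
  · have a' := step (h 0 - s) s
    rw [show s + (h 0 - s) = h 0 by omega] at a'
    omega
  · have := anti b
    omega

theorem conjA (n : ℕ) :
    Conj (0 : Matrix (Fin (n + 1)) (Fin (n + 1)) ℂ) id (weylA (n + 1)) n (tr (n + 1)) := by
  intro e _ he hs
  obtain ⟨lv, hl, κ, hκ, hJ⟩ := geoA he
  exact ⟨_, smul_ne_zero hκ (PA_ne lv), hJ, squareA hl (dd_anti e) (solvA hs)
    (fun h => dom_stair (dd_anti e) (solvA hs) (dom_zero he h)) κ⟩

theorem conjJ {J : Matrix ι ι ℂ} {a : (Fin n → ℤ) → ι → ℤ} (F : Cl J a) (hn : 0 < n) {d : ℕ}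
    (h : (d = 1 ∧ F.ε = 1 ∧ F.β = 1) ∨ (d = 1 ∧ F.ε = -1 ∧ F.β = 0) ∨ (d = 0 ∧ F.ε = 1 ∧ F.β = 0))
    {r : ℕ} {s : ℕ → HypOct n} (hJ : HasJMD (weyl d n) r s 1 d) : Conj J a (weyl d n) r s := by
  intro e he' he hs
  obtain ⟨o, ho, ho'⟩ : ∃ o : ℕ, ((o = 0 ∧ F.ε = 1) ∨ (o = 1 ∧ F.ε = -1)) ∧
      ((d = 1 ∧ o = 0 ∧ F.β = 1) ∨ (d = 1 ∧ o = 1 ∧ F.β = 0) ∨ (d = 0 ∧ o = 0 ∧ F.β = 0)) := by
    rcases h with h | h | h
    · exact ⟨0, Or.inl ⟨rfl, h.2.1⟩, Or.inl ⟨h.1, rfl, h.2.2⟩⟩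
    · exact ⟨1, Or.inr ⟨rfl, h.2.1⟩, Or.inr (Or.inl ⟨h.1, rfl, h.2.2⟩)⟩
    · exact ⟨0, Or.inl ⟨rfl, h.2.1⟩, Or.inr (Or.inr ⟨h.1, rfl, h.2.2⟩)⟩
  have hsg : ∀ i : ℕ, (-1) ^ i * F.ε = if i % 2 = o then 1 else -1 := fun i => by
    rcases Nat.even_or_odd i with hi | hi
    · have := Nat.even_iff.1 hi
      rcases ho with ⟨h1, h2⟩ | ⟨h1, h2⟩ <;> simp [hi.neg_one_pow, h1, h2, this]
    · have := Nat.odd_iff.1 hi
      rcases ho with ⟨h1, h2⟩ | ⟨h1, h2⟩ <;> simp [hi.neg_one_pow, h1, h2, this]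
  have hpar : ∀ i, i % 2 ≠ o → dd e i = dd e (i + 1) := fun i hi =>
    solvJ_skew F.isUnit F.symm he' hs (by rw [hsg, if_neg hi])
  have h2 : ∀ i, dd e i ≤ dd e (i + 1) + 2 := fun i => by
    by_cases hi : i % 2 = o
    · exact solvJ_symm F.isUnit F.symm he' hs (by rw [hsg, if_pos hi])
    · rw [hpar i hi]
      omega
  obtain ⟨lv, hl, κ, hκ, hP⟩ := geoJ F hn he he' ho hpar
  exact ⟨_, smul_ne_zero hκ (PJ_ne _ lv), hP, squareJ ho' hn (dd_anti e) h2 hpar hl hJ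
    (fun h => ⟨dom_zero he h, dom_two he h⟩) κ⟩

/-- type C -/
def clC (n : ℕ) : Cl (Matrix.J (Fin n) ℂ) fun ν => Sum.elim ν (-ν) where
  bar := Sum.swap
  bar_bar := Sum.swap_swap
  ε := -1
  hε := Or.inr rfl
  symm := by rw [Matrix.J_transpose, neg_smul, one_smul]
  ne := by
    rintro (p | p) (q | q) <;> simp [Matrix.J, Matrix.one_apply, eq_comm]
  ps := Sum.inl
  a_ps _ _ := rfl
  a_bar := by rintro ν (p | p) <;> simp
  cases := by rintro (p | p) <;> simp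
  β := 0
  hβ := zero_le_one
  fix := by
    rw [Finset.card_eq_zero, Finset.filter_eq_empty_iff]
    rintro (p | p) <;> simp
  det _ u hu := SymplecticGroup.det_eq_one (SymplecticGroup.mem_iff'.2 hu)

/-- type D -/
def clD (n : ℕ) : Cl (JD (Fin n) ℂ) fun ν => Sum.elim ν (-ν) where
  bar := Sum.swap
  bar_bar := Sum.swap_swap
  ε := 1
  hε := Or.inl rfl
  symm := by simp [JD, fromBlocks_transpose]
  ne := by
    rintro (p | p) (q | q) <;> simp [JD, Matrix.one_apply, eq_comm]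
  ps := Sum.inl
  a_ps _ _ := rfl
  a_bar := by rintro ν (p | p) <;> simp
  cases := by rintro (p | p) <;> simp
  β := 0
  hβ := zero_le_one
  fix := by
    rw [Finset.card_eq_zero, Finset.filter_eq_empty_iff]
    rintro (p | p) <;> simp
  det h := by norm_num at h

/-- type B -/
def clB (n : ℕ) : Cl (JB (Fin n) ℂ) fun ν => Sum.elim 0 (Sum.elim ν (-ν)) where
  bar := Sum.map id Sum.swap
  bar_bar := by rintro (p | p | p) <;> rfl
  ε := 1
  hε := Or.inl rfl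
  symm := by simp [JB, JD, fromBlocks_transpose]
  ne := by
    rintro (p | p | p) (q | q | q) <;> simp [JB, JD, Matrix.one_apply, eq_comm]
  ps := fun i => Sum.inr (Sum.inl i)
  a_ps _ _ := rfl
  a_bar := by rintro ν (p | p | p) <;> simp
  cases := by rintro (p | p | p) <;> simp
  β := 1
  hβ := le_rfl
  fix := by
    rw [Finset.card_eq_one]
    refine ⟨Sum.inl (), Finset.ext ?_⟩
    rintro (p | p | p) <;> simp
  det h := by norm_num at h

theorem conjB (hn : 2 ≤ n) : Conj (JB (Fin n) ℂ) (fun ν => Sum.elim 0 (Sum.elim ν (-ν)))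
    (weyl 1 n) n (sB n) :=
  conjJ (clB n) (by omega) (Or.inl ⟨rfl, rfl, rfl⟩) (by simpa using hasB hn)

theorem conjC (hn : 2 ≤ n) : Conj (Matrix.J (Fin n) ℂ) (fun ν => Sum.elim ν (-ν))
    (weyl 1 n) n (sB n) :=
  conjJ (clC n) (by omega) (Or.inr (Or.inl ⟨rfl, rfl, rfl⟩)) (by simpa using hasB hn)

theorem conjD (hn : 4 ≤ n) : Conj (JD (Fin n) ℂ) (fun ν => Sum.elim ν (-ν))
    (weyl 0 n) n (sD n) :=
  conjJ (clD n) (by omega) (Or.inr (Or.inr ⟨rfl, rfl, rfl⟩)) (by simpa using hasD hn)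

end

end Pool.Agent.P.MP_5e2a31_al.L
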