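import Pool.Agent.P.MP_5e2a31_al.L.V
import Pool.Agent.P.MP_5e2a31_al.L.S1
import Pool.Agent.P.MP_5e2a31_al.L.T3
import Pool.Agent.P.MP_5e2a31_al.L.T4
import Pool.Agent.P.MP_5e2a31_al.L.T6

/-! The Weyl group side in type A. -/

namespace Pool.Agent.P.MP_5e2a31_al.L

open Finset Equiv SemidirectProduct Pool.Agent.P.MP_1a0ecf_al
open scoped Classical

noncomputable section

variable {n : ℕ}

theorem exists_bound (lv : Fin n → ℕ) : ∃ S, ∀ i, lv i < S :=
  ⟨univ.sup lv + 1, fun i => Nat.lt_succ_of_le (Finset.le_sup (f := lv) (mem_univ i))⟩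

theorem card_zero_of_bound {lv : Fin n → ℕ} {S c : ℕ} (hS : ∀ i, lv i < S) (h : S ≤ c) :
    #{i | lv i = c} = 0 := by
  rw [Finset.card_eq_zero, Finset.filter_eq_empty_iff]
  intro i _ e
  have := hS i
  omega

theorem pos_lt (lv : Fin n → ℕ) (i : Fin n) : pos lv i < #{j | lv j = lv i} :=
  (pos_sur lv _ _).1 ⟨i, rfl, rfl⟩

theorem bigA' {k : ℕ} (h : n = k * (k + 1) / 2) (hc : Cen n 0 0) : Big (weylA n) 0 0
    fun j => ∑ c ∈ (staircase k).cells, ((c.2 : ℂ) - c.1) ^ j := by
  subst h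
  exact bigA k hc

theorem squareA {r : ℕ} {lv : Fin (r + 1) → ℕ} {h : ℕ → ℕ} (hl : ∀ c, #{i | lv i = c} = h c)
    (h1 : ∀ s, h (s + 1) ≤ h s) (h2 : ∀ s, h s ≤ h (s + 1) + 1) {Q : Prop}
    (hQ : Q → ∀ s, h s = h 0 - s) (κ : ℂ) :
    Square (weylA (r + 1)) r (tr (r + 1)) Q (κ • PA lv) := by
  have anti : Antitone h := antitone_nat_of_succ_le h1
  have hp : ∀ i, pos lv i < h (lv i) := fun i => hl _ ▸ pos_lt lv i
  let L : Lab (r + 1) := ⟨fun _ => false, pos lv, lv, fun i j _ e e' => pos_inj lv e' e,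
    fun i t c ht hc => by
      obtain ⟨j, e, e'⟩ := (pos_sur lv c t).2 (by
        rw [hl]
        exact (ht.trans_lt (hp i)).trans_le (anti hc))
      exact ⟨j, rfl, e', e⟩⟩
  have hev : ∀ i, L.ev 0 0 i = (lv i : ℂ) - pos lv i := fun i => by simp [Lab.ev, L]
  intro _
  refine core (c := fun k => ∑ i, L.ev 0 0 i ^ k) (hasA r) (fun hc k => ?_) fun hc h0 => ?_
  · rw [map_smul, PA_eq, jm_scalar (pRep _) L (Or.inl ⟨rfl, rfl, fun _ _ => rfl⟩)
      (fun i j _ e => pRep_ss _ e) hc (fun i j _ e => e), smul_comm]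
  · have e : ∀ s, h s = h 0 - s := h0.elim hQ fun h0 => by
      obtain ⟨S, hS⟩ := exists_bound lv
      simp only [pow_one, hev] at h0
      rw [sum_pos lv hS fun c t => (c : ℂ) - t] at h0
      simp only [hl] at h0
      exact sumA (N := S) (fun s hs => hl s ▸ card_zero_of_bound hS hs) h1 h2
        (by exact_mod_cast h0)
    have hτ : IsBitableau (staircase (h 0)) ⊥ fun i => Sum.inl (pos lv i, lv i) := by
      refine ⟨fun i j e => ?_, ?_⟩
      · simp only [Sum.inl.injEq, Prod.mk.injEq] at e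
        exact pos_inj lv e.2 e.1
      · rintro (⟨t, c⟩ | c)
        · simp only [Sum.inl.injEq, Prod.mk.injEq, Sum.elim_inl, mem_staircase]
          rw [exists_congr fun i => and_comm, pos_sur, hl, e c]
          omega
        · simp
    have hn := hτ.card
    have hk := card_staircase (h 0)
    have := bigA' (k := h 0) (by
      simp only [YoungDiagram.card, YoungDiagram.cells_bot, Finset.card_empty] at hn hk
      omega) hc
    convert this using 2 with j
    have := bitab_sum hτ (Sum.elim (fun c => ((c.2 : ℂ) - c.1) ^ j) 0)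
    simpa [hev] using this

end

end Pool.Agent.P.MP_5e2a31_al.L
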