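import Pool.Agent.P.MP_5e2a31_al.L.Base
import Pool.Agent.P.MP_5e2a31_al.Saxl
import Pool.Agent.P.MP_1a0ecf_al.F.Face

/-! Shared definitions of the Weyl group side. -/

namespace Pool.Agent.P.MP_5e2a31_al.L

open Finset Equiv SemidirectProduct Pool.Agent.P.MP_1a0ecf_al
open scoped Classical

noncomputable section

variable {n : ℕ}

/-- the group algebra of the hyperoctahedral group -/
abbrev GH (n : ℕ) : Type := MonoidAlgebra ℂ (HypOct n)

/-- group elements in the group algebra -/
abbrev gH (w : HypOct n) : GH n := MonoidAlgebra.of ℂ (HypOct n) w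

/-- the sign change at `i` -/
def tt (i : Fin n) : HypOct n := inl (Pi.mulSingle i (-1))

/-- the transposition of `i` and `j` -/
def ss (i j : Fin n) : HypOct n := inr (swap i j)

/-- Jucys-Murphy elements; `(α, β)` is `(0, 0)` in type A, `(1, 1)` in type B, `(1, 0)` in
type D -/
def ju (α β : ℂ) (k : Fin n) : GH n :=
  ∑ j with j < k, (gH (ss j k) + α • gH (tt j * tt k * ss j k)) + β • gH (tt k)

/-- their power sums -/
def psum (n : ℕ) (α β : ℂ) (k : ℕ) : GH n := ∑ i, ju α β i ^ k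

/-- the power sums commute with the permutations -/
def Cen (n : ℕ) (α β : ℂ) : Prop :=
  ∀ k g, gH (inr g) * psum n α β k = psum n α β k * gH (inr g)

/-- the polynomial representation -/
def pRep (n : ℕ) : Representation ℂ (HypOct n) (MvPolynomial (Fin n) ℂ) where
  toFun w := (MvPolynomial.aeval
    (fun i => (w.left (w.right i) : ℤ) • MvPolynomial.X (w.right i))).toLinearMap
  map_one' := by
    refine LinearMap.ext fun P => ?_
    simp
  map_mul' a b := by
    refine LinearMap.ext fun P => ?_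
    simp only [AlgHom.toLinearMap_apply, Module.End.mul_apply]
    rw [← AlgHom.comp_apply]
    congr 1
    ext1 i
    have : (a * b).left ((a * b).right i) = a.left (a.right (b.right i)) * b.left (b.right i) := by
      have e : (a * b).left ((a * b).right i) =
        a.left ((a * b).right i) * b.left (a.right⁻¹ ((a * b).right i)) := rfl
      rw [e]
      simp
    simp only [MvPolynomial.aeval_X, AlgHom.comp_apply, map_zsmul, this, smul_smul]
    simp [mul_comm]

theorem pRep_apply (w : HypOct n) (P : MvPolynomial (Fin n) ℂ) : pRep n w P = pact w P := rfl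

/-- a filling of a pair of Young diagrams -/
structure Lab (n : ℕ) where
  sd : Fin n → Bool
  row : Fin n → ℕ
  col : Fin n → ℕ
  inj : ∀ i j, sd i = sd j → row i = row j → col i = col j → i = j
  low : ∀ i r c, r ≤ row i → c ≤ col i → ∃ j, sd j = sd i ∧ row j = r ∧ col j = c

/-- the eigenvalues of the Jucys-Murphy elements -/
def Lab.ev (L : Lab n) (α β : ℂ) (i : Fin n) : ℂ :=
  (1 + α) * ((L.col i : ℂ) - L.row i) + β * if L.sd i then -1 else 1

/-- the signed sum over the permutations that keep the labels `l` -/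
abbrev Alt {E κ : Type} [AddCommGroup E] [Module ℂ E] [DecidableEq κ]
    (ρ : Representation ℂ (HypOct n) E) (l : Fin n → κ) : Module.End ℂ E :=
  Sym (ρ.comp inr) sgn' univ l

/-- the contents of a pair of diagrams -/
def csum (d : ℕ) (α β : YoungDiagram) (g : ℤ → ℂ) : ℂ :=
  ∑ c ∈ α.cells, g (2 * ((c.2 : ℤ) - c.1) + d) + ∑ c ∈ β.cells, g (2 * ((c.2 : ℤ) - c.1) - d)

/-- the eigenvalue at the position `t` of a block -/
def evv (κ δ : ℤ) (t : ℕ) : ℤ := κ - 2 * (t / 2 : ℕ) + δ * (-1) ^ t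

/-- the least value of the sum of the eigenvalues -/
def bnd (κ δ : ℤ) (m : ℕ) : ℤ :=
  if m % 2 = 0 then κ * (m / 2 : ℕ) * ((m / 2 : ℕ) + 1)
  else κ * ((m / 2 : ℕ) + 1) ^ 2 + δ * ((m / 2 : ℕ) + 1)

/-- the simple reflections of the types B and C -/
abbrev sB (n : ℕ) : ℕ → HypOct n := fun i => if i = 0 then neg n 1 else tr n (i - 1)

/-- the simple reflections of type D -/
abbrev sD (n : ℕ) : ℕ → HypOct n := fun i => if i = 0 then neg n 2 * tr n 0 else tr n (i - 1)

/-- families are described by the power sums of the Jucys-Murphy elements -/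
structure JMD (X : F.Cox) (φ : X.W →* HypOct n) (α β : ℂ) (D : F.KL X ℤ fun _ => 1) where
  Z : ℕ → X.GA
  central : ∀ k, Z k ∈ Subalgebra.center ℂ X.GA
  image : ∀ k, MonoidAlgebra.mapDomainAlgHom ℂ ℂ φ (Z k) = psum n α β k
  perm : ∀ g, ∃ w, φ w = inr g
  odd : ∀ χ : X.W → ℂ, chx (fun w => X.sgn w * χ w) (Z 1) = -chx χ (Z 1)
  of_rel : ∀ χ χ', IsIrr χ → IsIrr χ' → D.Rel χ χ' →
    ∀ k, chx χ (Z k) * χ' 1 = chx χ' (Z k) * χ 1
  rel : ∀ χ χ', IsIrr χ → IsIrr χ' → (∀ k, chx χ (Z k) * χ' 1 = chx χ' (Z k) * χ 1) →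
    (α = 1 → β = 0 → ∃ χ₀, IsIrr χ₀ ∧ (∀ w w', (φ w).right = (φ w').right → χ₀ w = χ₀ w') ∧
      ∀ k, chx χ (Z k) * χ₀ 1 = chx χ₀ (Z k) * χ 1) → D.Rel χ χ'

/-- such a description exists for `W` -/
def HasJMD (W : Subgroup (HypOct n)) (r : ℕ) (s : ℕ → HypOct n) (α β : ℂ) : Prop :=
  ∀ (X : F.Cox) (φ : X.W →* HypOct n), X.n = r → Function.Injective φ → φ.range = W →
    (∀ i : Fin X.n, φ (X.s i) = s i) → ∀ D : F.KL X ℤ fun _ => 1, Nonempty (JMD X φ α β D)

/-- a representation with the central character `c` whose tensor square contains everything -/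
def Big (W : Subgroup (HypOct n)) (α β : ℂ) (c : ℕ → ℂ) : Prop :=
  ∃ (E : Type) (_ : AddCommGroup E) (_ : Module ℂ E) (_ : FiniteDimensional ℂ E)
    (ρ : Representation ℂ (HypOct n) E),
    ContainsAll (Representation.tprod (ρ.comp W.subtype) (ρ.comp W.subtype)) ∧
    (∀ k v, ρ.asAlgebraHom (psum n α β k) v = c k • v) ∧
    (α = 1 → β = 0 → ∃ v, v ≠ 0 ∧ ∀ η, ρ (inl η) v = v)

end

end Pool.Agent.P.MP_5e2a31_al.L
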