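import Pool.Agent.P.MP_5e2a31_al.L.WA
import Pool.Agent.P.MP_5e2a31_al.L.GJ

/-! The Weyl group side in the types B, C, D. -/

namespace Pool.Agent.P.MP_5e2a31_al.L

open Finset Equiv SemidirectProduct Pool.Agent.P.MP_1a0ecf_al
open scoped Classical

noncomputable section

variable {n : ℕ}

theorem bigJ' {d k : ℕ} (hd : d = 0 ∨ d = 1) (hk : 1 ≤ k) (h : n = k * (k + d))
    (hc : Cen n 1 d) : Big (weyl d n) 1 d
      fun j => csum d (staircase k) (staircase (k + d - 1)) fun x => (x : ℂ) ^ j := by
  subst h
  exact bigJ hd hk hc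

theorem sum_two {M : Type} [AddCommMonoid M] (f : ℕ → M) (N : ℕ) :
    ∑ c ∈ range (2 * N), f c = ∑ j ∈ range N, (f (2 * j) + f (2 * j + 1)) := by
  induction N with
  | zero => simp
  | succ N ih =>
    rw [show 2 * (N + 1) = 2 * N + 1 + 1 by ring, sum_range_succ, sum_range_succ, sum_range_succ,
      ih, add_assoc]

/-- the exponent of a variable -/
def ex (β c t : ℕ) : ℕ := if c = 0 then 2 * t + β else t

/-- the column of a variable -/
def cl (β c t : ℕ) : ℕ := if ex β c t % 2 = β then c / 2 else (c - 1) / 2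

/-- the eigenvalue -/
def eg (d β c t : ℕ) : ℤ :=
  2 * ((cl β c t : ℤ) - (ex β c t / 2 : ℕ)) + if ex β c t % 2 = 1 then -(d : ℤ) else d

theorem eg_zero {d β : ℕ} (h : (d = 1 ∧ β = 1) ∨ (d = 0 ∧ β = 0)) (t : ℕ) :
    eg d β 0 t = -2 * (t : ℤ) - β := by
  unfold eg cl ex
  split_ifs <;> omega

theorem eg_pos {d o β c : ℕ}
    (h : (d = 1 ∧ o = 0 ∧ β = 1) ∨ (d = 1 ∧ o = 1 ∧ β = 0) ∨ (d = 0 ∧ o = 0 ∧ β = 0))
    (hc : c ≠ 0) (ho : c % 2 = o) (t : ℕ) : eg d β c t = evv (c - 1) (1 - β) t := by
  unfold eg cl ex evv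
  rcases Nat.even_or_odd t with ht | ht
  · rw [ht.neg_one_pow]
    have := Nat.even_iff.1 ht
    split_ifs <;> omega
  · rw [ht.neg_one_pow]
    have := Nat.odd_iff.1 ht
    split_ifs <;> omega

theorem dom_listed {d o β : ℕ}
    (h : (d = 1 ∧ o = 0 ∧ β = 1) ∨ (d = 1 ∧ o = 1 ∧ β = 0) ∨ (d = 0 ∧ o = 0 ∧ β = 0))
    {D : ℕ → ℕ} (h1 : ∀ i, D (i + 1) ≤ D i) (h2 : ∀ i, D i ≤ D (i + 1) + 2)
    (hpar : ∀ i, i % 2 ≠ o → D i = D (i + 1)) (h0 : o = 0 → D 0 % 2 = β) (q1 : D (D 0) = 0)
    (q2 : 2 ≤ D (D 0 - 1) → 2 * D 0 ≤ D 0 + D 1) :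
    ∃ k, ∀ c, c % 2 = o → D c = 2 * k + d - c := by
  have anti : Antitone D := antitone_nat_of_succ_le h1
  have step : ∀ t c, c % 2 = o → D c ≤ D (c + 2 * t) + 2 * t := fun t c hc => by
    induction t with
    | zero => simp
    | succ t ih =>
      have a := h2 (c + 2 * t)
      rw [hpar (c + 2 * t + 1) (by omega)] at a
      rw [show c + 2 * (t + 1) = c + 2 * t + 1 + 1 by ring]
      omega
  have key : ∀ k m v, m % 2 = o → D m ≤ v → m + v = 2 * k + d → (∀ c, m < c → c % 2 = o → D c = 0) →
      v ≤ 1 → D o + o = 2 * k + d → ∀ c, c % 2 = o → D c = 2 * k + d - c :=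
    fun k m v hm hv e hz hv1 e' c hc => by
      have a := step ((c - o) / 2) o (by omega)
      rw [show o + 2 * ((c - o) / 2) = c by omega] at a
      rcases le_or_gt c m with b | b
      · have a' := step ((m - c) / 2) c hc
        rw [show c + 2 * ((m - c) / 2) = m by omega] at a'
        omega
      · have := hz c b hc
        omega
  refine ⟨D 0 / 2, ?_⟩
  rcases h with ⟨rfl, rfl, rfl⟩ | ⟨rfl, rfl, rfl⟩ | ⟨rfl, rfl, rfl⟩
  · have := h0 rfl
    refine key _ (D 0 - 1) 1 (by omega) ?_ (by omega) (fun c a _ => ?_) le_rfl (by omega)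
    · by_contra a
      have b := q2 (by omega)
      have c := step (D 0 / 2) 2 rfl
      have c' : D (2 + 2 * (D 0 / 2)) ≤ D (D 0) := anti (by omega)
      have c'' : D 1 = D 2 := hpar 1 (by omega)
      omega
    · exact Nat.eq_zero_of_le_zero ((anti (by omega)).trans q1.le)
  · have a := hpar 0 (by omega)
    have b : D 0 % 2 = 0 := by
      by_contra b
      have c := step (D 0 / 2) 1 rfl
      rw [show 1 + 2 * (D 0 / 2) = D 0 by omega] at c
      simp only [zero_add] at a
      omega
    simp only [zero_add] at a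
    exact key _ (D 0 + 1) 0 (by omega) ((h1 _).trans q1.le) (by omega)
      (fun c a _ => Nat.eq_zero_of_le_zero ((anti (by omega)).trans q1.le)) (by omega) (by omega)
  · have := h0 rfl
    exact key _ (D 0) 0 (by omega) q1.le (by omega)
      (fun c a _ => Nat.eq_zero_of_le_zero ((anti (by omega)).trans q1.le)) (by omega) (by omega)

theorem squareJ {d o β : ℕ}
    (h : (d = 1 ∧ o = 0 ∧ β = 1) ∨ (d = 1 ∧ o = 1 ∧ β = 0) ∨ (d = 0 ∧ o = 0 ∧ β = 0))
    (hn : 0 < n) {D : ℕ → ℕ} (h1 : ∀ i, D (i + 1) ≤ D i) (h2 : ∀ i, D i ≤ D (i + 1) + 2)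
    (hpar : ∀ i, i % 2 ≠ o → D i = D (i + 1)) {lv : Fin n → ℕ} (hS : Sizes D o β lv) {r : ℕ}
    {s : ℕ → HypOct n} (hJ : HasJMD (weyl d n) r s 1 d) {Q : Prop}
    (hQ : Q → D (D 0) = 0 ∧ (2 ≤ D (D 0 - 1) → 2 * D 0 ≤ D 0 + D 1)) (κ : ℂ) :
    Square (weyl d n) r s Q (κ • PJ β lv) := by
  have anti : Antitone D := antitone_nat_of_succ_le h1
  have s0 : 2 * #{i | lv i = 0} + β = if o = 0 then D 0 else 0 := by
    rw [hS.1]
    exact (mu_nat D o 0).trans (if_congr eq_comm rfl rfl)
  have s1 : ∀ c, c ≠ 0 → #{i | lv i = c} = if c % 2 = o then D c else 0 := fun c hc => by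
    rw [hS.2 c (Nat.pos_of_ne_zero hc), mu_nat]
  have hp : ∀ i, lv i % 2 = o ∧ ex β (lv i) (pos lv i) < D (lv i) := fun i => by
    have := pos_lt lv i
    unfold ex
    by_cases hi : lv i = 0
    · rw [hi] at this ⊢
      split_ifs at s0 ⊢ <;> omega
    · rw [s1 _ hi] at this
      split_ifs at this ⊢ <;> omega
  have hq : ∀ c x, c % 2 = o → x < D c → (c = 0 → x % 2 = β) →
      ∃ i, lv i = c ∧ ex β c (pos lv i) = x := fun c x hc hx h0 => by
    by_cases e : c = 0
    · subst e
      obtain ⟨i, e1, e2⟩ := (pos_sur lv 0 (x / 2)).2 (by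
        have := h0 rfl
        split_ifs at s0 <;> omega)
      have := h0 rfl
      exact ⟨i, e1, by simp only [ex, if_true]; omega⟩
    · obtain ⟨i, e1, e2⟩ := (pos_sur lv c x).2 (by rwa [s1 c e, if_pos hc])
      exact ⟨i, e1, by rw [ex, if_neg e, e2]⟩
  have hz : ∀ t, ex β 0 t % 2 = β := fun t => by
    simp only [ex, if_true]
    omega
  have hcl : ∀ i j, ex β (lv i) (pos lv i) % 2 = ex β (lv j) (pos lv j) % 2 →
      cl β (lv i) (pos lv i) = cl β (lv j) (pos lv j) → lv i = lv j := fun i j e e' => by
    have a1 := (hp i).1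
    have a2 := (hp j).1
    have a3 : lv i = 0 → ex β (lv i) (pos lv i) % 2 = β := fun h => h ▸ hz _
    have a4 : lv j = 0 → ex β (lv j) (pos lv j) % 2 = β := fun h => h ▸ hz _
    unfold cl at e'
    split_ifs at e' <;> omega
  have hsd : ∀ x y : ℕ, decide (x % 2 = 1) = decide (y % 2 = 1) ↔ x % 2 = y % 2 := fun x y => by
    rw [decide_eq_decide]
    omega
  have hcell : ∀ x c : ℕ, x < D (if x % 2 = β then 2 * c + o else 2 * c + 2 - o) →
      ∃ j, ex β (lv j) (pos lv j) = x ∧ cl β (lv j) (pos lv j) = c := fun x c hx => by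
    obtain ⟨j, e1, e2⟩ := hq _ x (by split_ifs <;> omega) hx (by split_ifs <;> omega)
    refine ⟨j, e1 ▸ e2, ?_⟩
    rw [cl, e1, e2]
    split_ifs <;> omega
  have hlev : ∀ i, lv i = if ex β (lv i) (pos lv i) % 2 = β then 2 * cl β (lv i) (pos lv i) + o
      else 2 * cl β (lv i) (pos lv i) + 2 - o := fun i => by
    have a1 := (hp i).1
    have a3 : lv i = 0 → ex β (lv i) (pos lv i) % 2 = β := fun h => h ▸ hz _
    unfold cl
    split_ifs <;> omega
  let L : Lab n := ⟨fun i => decide (ex β (lv i) (pos lv i) % 2 = 1),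
    fun i => ex β (lv i) (pos lv i) / 2, fun i => cl β (lv i) (pos lv i),
    fun i j e1 e2 e3 => by
      have e4 := (hsd _ _).1 e1
      have e5 := hcl i j e4 e3
      refine pos_inj lv e5 ?_
      have e6 : ex β (lv i) (pos lv i) = ex β (lv i) (pos lv j) := by
        rw [← e5] at e2 e4
        omega
      unfold ex at e6
      split_ifs at e6 <;> omega,
    fun i t c ht hc => by
      obtain ⟨j, e1, e2⟩ := hcell (2 * t + ex β (lv i) (pos lv i) % 2) c (by
        have a1 := (hp i).2
        have a2 := hlev i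
        refine lt_of_lt_of_le (by omega) (anti (b := lv i) ?_)
        split_ifs at a2 ⊢ <;> omega)
      exact ⟨j, (hsd _ _).2 (by omega), by omega, e2⟩⟩
  have hev : ∀ i, L.ev 1 d i = eg d β (lv i) (pos lv i) := fun i => by
    simp only [Lab.ev, L, eg, decide_eq_true_eq]
    generalize ex β (lv i) (pos lv i) / 2 = y
    split_ifs <;> push_cast <;> ring
  intro _
  refine core (c := fun k => ∑ i, L.ev 1 d i ^ k) hJ (fun hc k => ?_) fun hc h0 => ?_
  · rw [map_smul, PJ_eq, jm_scalar (pRep _) L (Or.inr ⟨rfl, fun i => ?_⟩)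
      (fun i j e e' => pRep_ss _ ?_) hc (fun i j e e' => hcl i j ((hsd _ _).1 e) e'), smul_comm]
    · rw [pRep_tt]
      congr 1
      change (-1 : ℂ) ^ ex β (lv i) (pos lv i) = _
      simp only [L, decide_eq_true_eq]
      split_ifs with e
      · exact (Nat.odd_iff.2 e).neg_one_pow
      · exact (Nat.even_iff.2 (by omega)).neg_one_pow
    · have e4 := (hsd _ _).1 e
      change ex β (lv i) (pos lv i) / 2 = ex β (lv j) (pos lv j) / 2 at e'
      change ex β (lv i) (pos lv i) = ex β (lv j) (pos lv j)
      omega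
  · obtain ⟨S, hb⟩ := exists_bound lv
    have hD : ∀ c, c % 2 = o → S ≤ c → D c = 0 := fun c hc hS => by
      have := hb ⟨0, hn⟩
      have := s1 c (by omega)
      rwa [card_zero_of_bound hb hS, if_pos hc, eq_comm] at this
    obtain ⟨k, hk⟩ : ∃ k, ∀ c, c % 2 = o → D c = 2 * k + d - c := by
      rcases h0 with h0 | h0
      · exact dom_listed h h1 h2 hpar (fun e => by rw [if_pos e] at s0; omega) (hQ h0).1 (hQ h0).2
      simp only [pow_one, hev] at h0
      have h0' : ∑ i, eg d β (lv i) (pos lv i) = 0 := by exact_mod_cast h0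
      by_cases ho : o = 0
      · rw [sum_pos lv (S := 2 * S + 1) (fun i => by have := hb i; omega) (eg d β),
          sum_range_succ', sum_two, add_comm] at h0'
        rw [if_pos ho] at s0
        have := sumBD (m := fun j => D (2 * j + 2)) (N := S) (k := #{i | lv i = 0}) (β := β)
          (by omega) (fun j hj => hD _ (by omega) (by omega)) (fun j => anti (by omega))
          (fun j => by
            have := h2 (2 * j + 2)
            rwa [hpar (2 * j + 2 + 1) (by omega)] at this)
          (by
            have := h2 0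
            rw [hpar (0 + 1) (by omega), ← s0] at this
            exact this)
          (s0 ▸ anti (by omega))
          (by
            rw [← h0']
            congr 1
            · exact sum_congr rfl fun t _ => (eg_zero (by omega) t).symm
            · refine sum_congr rfl fun j _ => ?_
              rw [s1 _ (by omega), s1 _ (by omega), if_neg (by omega), if_pos (by omega)]
              simp only [range_zero, sum_empty, zero_add]
              refine sum_congr rfl fun t _ => ?_
              rw [eg_pos h (by omega) (by omega)]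
              congr 1
              push_cast
              ring)
        refine ⟨#{i | lv i = 0}, fun c hc => ?_⟩
        rcases Nat.eq_zero_or_pos c with rfl | hc0
        · omega
        · have e := this (c / 2 - 1)
          rw [show 2 * (c / 2 - 1) + 2 = c by omega] at e
          omega
      · rw [sum_pos lv (S := 2 * S) (fun i => by have := hb i; omega) (eg d β), sum_two] at h0'
        rw [if_neg ho] at s0
        obtain ⟨k, hk⟩ := sumC (m := fun j => D (2 * j + 1)) (N := S)
          (fun j hj => hD _ (by omega) (by omega)) (fun j => anti (by omega))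
          (fun j => by
            have := h2 (2 * j + 1)
            rwa [hpar (2 * j + 1 + 1) (by omega)] at this)
          (by
            rw [← h0']
            refine sum_congr rfl fun j _ => ?_
            have e : #{i | lv i = 2 * j} = 0 := by
              rcases Nat.eq_zero_or_pos j with rfl | hj
              · simp only [mul_zero]
                omega
              · rw [s1 _ (by omega), if_neg (by omega)]
            rw [e, s1 _ (by omega), if_pos (by omega)]
            simp only [range_zero, sum_empty, zero_add]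
            refine sum_congr rfl fun t _ => ?_
            rw [eg_pos h (by omega) (by omega)]
            congr 1
            · push_cast
              ring
            · omega)
        refine ⟨k, fun c hc => ?_⟩
        have e := hk (c / 2)
        rw [show 2 * (c / 2) + 1 = c by omega] at e
        omega
    let τ : Fin n → (ℕ × ℕ) ⊕ (ℕ × ℕ) := fun i =>
      if L.sd i then Sum.inr (L.row i, L.col i) else Sum.inl (L.row i, L.col i)
    have hτ : IsBitableau (staircase k) (staircase (k + d - 1)) τ := by
      refine ⟨fun i j e => ?_, ?_⟩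
      · simp only [τ] at e
        split_ifs at e with a b b
        · simp only [Sum.inr.injEq, Prod.mk.injEq] at e
          exact L.inj i j (a.trans b.symm) e.1 e.2
        · simp only [Sum.inl.injEq, Prod.mk.injEq] at e
          exact L.inj i j (by simp [a, b]) e.1 e.2
      · have a : ∀ i, ex β (lv i) (pos lv i) < 2 * k + d - lv i := fun i =>
          hk _ (hp i).1 ▸ (hp i).2
        rintro (⟨t, c⟩ | ⟨t, c⟩)
        · simp only [Sum.elim_inl, mem_staircase, τ, L, decide_eq_true_eq]
          constructor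
          · rintro ⟨i, e⟩
            have a1 := a i
            have a2 := hlev i
            split_ifs at e a2 <;> simp only [Sum.inl.injEq, Prod.mk.injEq] at e <;> omega
          · intro e
            obtain ⟨j, e1, e2⟩ := hcell (2 * t) c (by
              rw [hk _ (by split_ifs <;> omega)]
              split_ifs <;> omega)
            exact ⟨j, by rw [if_neg (by omega), e1, e2, Nat.mul_div_cancel_left _ two_pos]⟩
        · simp only [Sum.elim_inr, mem_staircase, τ, L, decide_eq_true_eq]
          constructor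
          · rintro ⟨i, e⟩
            have a1 := a i
            have a2 := hlev i
            split_ifs at e a2 <;> simp only [Sum.inr.injEq, Prod.mk.injEq] at e <;> omega
          · intro e
            obtain ⟨j, e1, e2⟩ := hcell (2 * t + 1) c (by
              rw [hk _ (by split_ifs <;> omega)]
              split_ifs <;> omega)
            exact ⟨j, by rw [if_pos (by omega), e1, e2, show (2 * t + 1) / 2 = t by omega]⟩
    have c0 := hτ.card
    have c1 := card_staircase k
    have c2 := card_staircase (k + d - 1)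
    have hd : d = 0 ∨ d = 1 := by omega
    have hk1 : 1 ≤ k := by
      by_contra e
      obtain rfl : k = 0 := by omega
      rw [show 0 + d - 1 = 0 by omega] at c0
      omega
    have := bigJ' hd hk1 (by
      obtain ⟨k, rfl⟩ : ∃ k', k = k' + 1 := ⟨k - 1, by omega⟩
      rcases hd with rfl | rfl
      · simp only [add_zero, Nat.add_sub_cancel] at c0 c2 ⊢
        nlinarith
      · simp only [Nat.add_sub_cancel] at c0 ⊢
        omega) hc
    convert this using 2 with j
    have := bitab_sum hτ (Sum.elim (fun c => ((2 * ((c.2 : ℤ) - c.1) + d : ℤ) : ℂ) ^ j)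
      fun c => ((2 * ((c.2 : ℤ) - c.1) - d : ℤ) : ℂ) ^ j)
    simp only [Sum.elim_inl, Sum.elim_inr] at this
    rw [csum, ← this]
    refine sum_congr rfl fun i _ => ?_
    simp only [τ, Lab.ev]
    split_ifs <;> simp only [Sum.elim_inl, Sum.elim_inr] <;> push_cast <;> ring

end

end Pool.Agent.P.MP_5e2a31_al.L
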